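import Pool.Agent.H716R3.Hilb
import Pool.Agent.Helper604.UMD.Kothe

/-! The algebra of operators `op f`. -/

open Finset Pool.Agent.Helper604.UMD

namespace Pool.Agent.H716R3

/-- coordinates: block `K`, output coordinates `j`, input coordinates `(k, i)` -/
abbrev I : Type := ℕ × (ℕ ⊕ ℕ × ℕ)

/-- dyadic colour of a distance -/
def col (l : ℕ) : ℕ := Nat.log 2 (l + 1)

lemma col_le (l : ℕ) : col l ≤ l := by
  unfold col
  have := Nat.log_lt_self 2 (x := l + 1) (by omega)
  omega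

noncomputable section

/-- weight -/
def wt (l : ℕ) : ℝ := ((l : ℝ) + 1)⁻¹

lemma wt_pos (l : ℕ) : 0 < wt l := by unfold wt; positivity

section alg

variable {𝕜 : Type} [RCLike 𝕜]

/-- off-diagonal part -/
def off (f : ℕ → 𝕜) (x : I → 𝕜) (K j : ℕ) : 𝕜 :=
  ∑ k ∈ Ico j K, ((wt (k - j) : ℝ) : 𝕜) * ((f (2 * k + 1) - f (2 * j)) * x (K, Sum.inr (k, col (k - j))))

/-- the operator with symbol `f` -/
def op (f : ℕ → 𝕜) (x : I → 𝕜) : I → 𝕜
  | (K, Sum.inl j) => f (2 * j) * x (K, Sum.inl j) + off f x K j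
  | (K, Sum.inr q) => f (2 * q.1 + 1) * x (K, Sum.inr q)

lemma op_inl (f : ℕ → 𝕜) (x : I → 𝕜) (K j : ℕ) : op f x (K, Sum.inl j) = f (2 * j) * x (K, Sum.inl j) + off f x K j := rfl
lemma op_inr (f : ℕ → 𝕜) (x : I → 𝕜) (K : ℕ) (q : ℕ × ℕ) : op f x (K, Sum.inr q) = f (2 * q.1 + 1) * x (K, Sum.inr q) := rfl

lemma op_mul (f g : ℕ → 𝕜) (x : I → 𝕜) : op (f * g) x = op f (op g x) := by
  funext ⟨K, i⟩
  rcases i with j | q
  · simp only [op_inl, off, op_inr, Pi.mul_apply, mul_add, mul_sum]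
    rw [add_assoc, ← sum_add_distrib]
    congr 1
    · ring
    · refine sum_congr rfl fun k _ => ?_
      ring
  · simp only [op_inr, Pi.mul_apply]
    ring

lemma op_one (x : I → 𝕜) : op 1 x = x := by
  funext ⟨K, i⟩
  rcases i with j | q
  · simp [op_inl, off]
  · simp [op_inr]

lemma op_const (c : 𝕜) (x : I → 𝕜) : op (fun _ => c) x = c • x := by
  funext ⟨K, i⟩
  rcases i with j | q
  · simp [op_inl, off]
  · simp [op_inr]

lemma op_add_left (f g : ℕ → 𝕜) (x : I → 𝕜) : op (f + g) x = op f x + op g x := by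
  funext ⟨K, i⟩
  rcases i with j | q
  · simp only [op_inl, off, Pi.add_apply]
    rw [add_add_add_comm, ← sum_add_distrib]
    congr 1
    · ring
    · refine sum_congr rfl fun k _ => ?_
      ring
  · simp only [op_inr, Pi.add_apply]
    ring

lemma op_sub_left (f g : ℕ → 𝕜) (x : I → 𝕜) : op (f - g) x = op f x - op g x := by
  funext ⟨K, i⟩
  rcases i with j | q
  · simp only [op_inl, off, Pi.sub_apply]
    rw [add_sub_add_comm, ← sum_sub_distrib]
    congr 1
    · ring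
    · refine sum_congr rfl fun k _ => ?_
      ring
  · simp only [op_inr, Pi.sub_apply]
    ring

lemma op_smul_left (c : 𝕜) (f : ℕ → 𝕜) (x : I → 𝕜) : op (c • f) x = c • op f x := by
  funext ⟨K, i⟩
  rcases i with j | q
  · simp only [op_inl, off, Pi.smul_apply, smul_eq_mul, mul_add, mul_sum]
    congr 1
    · ring
    · refine sum_congr rfl fun k _ => ?_
      ring
  · simp only [op_inr, Pi.smul_apply, smul_eq_mul]
    ring

lemma op_add (f : ℕ → 𝕜) (x y : I → 𝕜) : op f (x + y) = op f x + op f y := by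
  funext ⟨K, i⟩
  rcases i with j | q
  · simp only [op_inl, off, Pi.add_apply]
    rw [add_add_add_comm, ← sum_add_distrib]
    congr 1
    · ring
    · refine sum_congr rfl fun k _ => ?_
      ring
  · simp only [op_inr, Pi.add_apply]
    ring

lemma op_smul (f : ℕ → 𝕜) (c : 𝕜) (x : I → 𝕜) : op f (c • x) = c • op f x := by
  funext ⟨K, i⟩
  rcases i with j | q
  · simp only [op_inl, off, Pi.smul_apply, smul_eq_mul, mul_add, mul_sum]
    congr 1
    · ring
    · refine sum_congr rfl fun k _ => ?_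
      ring
  · simp only [op_inr, Pi.smul_apply, smul_eq_mul]
    ring

lemma op_cont (f : ℕ → 𝕜) : Continuous (op f) := by
  refine continuous_pi fun ⟨K, i⟩ => ?_
  rcases i with j | q
  · simp only [op_inl, off]
    fun_prop
  · simp only [op_inr]
    fun_prop

end alg

/-! ### norms -/

/-- finite boxes of coordinates -/
def box (N : ℕ) : Finset I := range N ×ˢ (range N).disjSum (range N ×ˢ range N)

lemma sum_box {M : Type*} [AddCommMonoid M] (N : ℕ) (F : I → M) : ∑ i ∈ box N, F i =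
    ∑ K ∈ range N, ((∑ j ∈ range N, F (K, Sum.inl j)) + ∑ k ∈ range N, ∑ i ∈ range N, F (K, Sum.inr (k, i))) := by
  unfold box
  rw [sum_product]
  refine sum_congr rfl fun K _ => ?_
  rw [sum_disjSum, sum_product]

lemma mem_box_iff (N : ℕ) (K : ℕ) (i : ℕ ⊕ ℕ × ℕ) : (K, i) ∈ box N ↔ K < N ∧ (∀ j, i = Sum.inl j → j < N) ∧
    (∀ q, i = Sum.inr q → q.1 < N ∧ q.2 < N) := by
  unfold box
  rcases i with j | q
  · simp
  · simp

lemma mem_box_of {i : I} : ∃ N, i ∈ box N := by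
  obtain ⟨K, i⟩ := i
  rcases i with j | ⟨k, i⟩
  · refine ⟨max K j + 1, ?_⟩
    rw [mem_box_iff]
    refine ⟨by omega, ?_, by simp⟩
    rintro _ ⟨rfl⟩
    omega
  · refine ⟨max K (max k i) + 1, ?_⟩
    rw [mem_box_iff]
    refine ⟨by omega, by simp, ?_⟩
    rintro _ ⟨rfl⟩
    constructor <;> simp only <;> omega

lemma box_mono {M N : ℕ} (h : M ≤ N) : box M ⊆ box N := by
  rintro ⟨K, i⟩ hi
  rw [mem_box_iff] at hi ⊢
  refine ⟨hi.1.trans_le h, fun j hj => (hi.2.1 j hj).trans_le h, fun q hq => ?_⟩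
  have := hi.2.2 q hq
  exact ⟨this.1.trans_le h, this.2.trans_le h⟩

/-- `ℓ_p` norm of a finite family -/
def lpn {α : Type*} (p : ℝ) (s : Finset α) (f : α → ℝ) : ℝ := (∑ i ∈ s, |f i| ^ p) ^ (1 / p)

section lpn

variable {α β : Type*} {p : ℝ}

lemma lpn_nonneg (s : Finset α) (f : α → ℝ) : 0 ≤ lpn p s f := by unfold lpn; positivity

lemma lpn_add (hp : 1 ≤ p) (s : Finset α) (f g : α → ℝ) : lpn p s (fun i => f i + g i) ≤ lpn p s f + lpn p s g :=
  Real.Lp_add_le s f g hp

lemma lpn_mono (hp : 0 < p) (s : Finset α) {f g : α → ℝ} (h : ∀ i ∈ s, |f i| ≤ |g i|) : lpn p s f ≤ lpn p s g := by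
  unfold lpn
  refine Real.rpow_le_rpow (by positivity) (sum_le_sum fun i hi => ?_) (by positivity)
  exact Real.rpow_le_rpow (abs_nonneg _) (h i hi) hp.le

lemma lpn_smul (hp : 0 < p) (s : Finset α) {c : ℝ} (hc : 0 ≤ c) (f : α → ℝ) : lpn p s (fun i => c * f i) = c * lpn p s f := by
  unfold lpn
  simp_rw [abs_mul, abs_of_nonneg hc, Real.mul_rpow hc (abs_nonneg _)]
  rw [← mul_sum, Real.mul_rpow (by positivity) (by positivity), ← Real.rpow_mul hc, mul_one_div_cancel hp.ne', Real.rpow_one]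

lemma lpn_zero (hp : 0 < p) (s : Finset α) : lpn p s (fun _ => 0) = 0 := by
  unfold lpn
  simp [Real.zero_rpow hp.ne']
  rw [Real.zero_rpow]
  positivity

lemma lpn_sum (hp : 1 ≤ p) (s : Finset α) (t : Finset β) (F : β → α → ℝ) :
    lpn p s (fun i => ∑ m ∈ t, F m i) ≤ ∑ m ∈ t, lpn p s (F m) := by
  classical
  induction t using Finset.induction_on with
  | empty => simp [lpn_zero (by linarith : 0 < p)]
  | insert a t ha ih =>
    simp only [sum_insert ha]
    refine (lpn_add hp s _ _).trans ?_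
    linarith

lemma lpn_rpow (hp : 0 < p) (s : Finset α) (f : α → ℝ) : lpn p s f ^ p = ∑ i ∈ s, |f i| ^ p := by
  unfold lpn
  rw [← Real.rpow_mul (by positivity), one_div_mul_cancel hp.ne', Real.rpow_one]

lemma le_lpn (hp : 0 < p) {s : Finset α} {i : α} (hi : i ∈ s) (f : α → ℝ) : |f i| ≤ lpn p s f := by
  unfold lpn
  calc |f i| = (|f i| ^ p) ^ (1 / p) := by
        rw [← Real.rpow_mul (abs_nonneg _), mul_one_div_cancel hp.ne', Real.rpow_one]
    _ ≤ _ := by
      gcongr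
      exact single_le_sum (f := fun i => |f i| ^ p) (fun _ _ => by positivity) hi

lemma lpn_subset (hp : 0 < p) {s t : Finset α} (h : s ⊆ t) (f : α → ℝ) : lpn p s f ≤ lpn p t f := by
  unfold lpn
  gcongr

lemma lpn_le_iff (hp : 0 < p) (s : Finset α) (f : α → ℝ) {c : ℝ} (hc : 0 ≤ c) : lpn p s f ≤ c ↔ ∑ i ∈ s, |f i| ^ p ≤ c ^ p := by
  rw [← lpn_rpow hp]
  exact (Real.rpow_le_rpow_iff (lpn_nonneg _ _) hc hp).symm

lemma lpn_cont (hp : 0 < p) (s : Finset α) : Continuous (lpn p s) := by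
  unfold lpn
  refine Continuous.rpow_const ?_ fun x => Or.inr (by positivity)
  refine continuous_finsetSum _ fun j _ => ?_
  exact Continuous.rpow_const (by fun_prop) fun x => Or.inr hp.le

end lpn

/-- norm of the coordinates in the box -/
def PN (p : ℝ) (N : ℕ) (x : I → ℝ) : ℝ := lpn p (box N) x

/-- constant of the kernel estimate -/
def hc (p : ℝ) : ℝ := hp p ^ (1 / p)

lemma hc_nonneg {p : ℝ} (hp1 : 1 < p) : 0 ≤ hc p := Real.rpow_nonneg (hp_pos hp1).le _

lemma hc_rpow {p : ℝ} (hp1 : 1 < p) : hc p ^ p = hp p := by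
  unfold hc
  rw [← Real.rpow_mul (hp_pos hp1).le, one_div_mul_cancel (by linarith), Real.rpow_one]

lemma diff_le' {E : Type*} [SeminormedAddCommGroup E] (f : ℕ → E) {j k : ℕ} (hjk : j ≤ k) : ‖f (2 * k) - f (2 * j)‖ ≤
    ∑ m ∈ Ico j k, (‖f (2 * m + 1) - f (2 * m)‖ + ‖f (2 * m + 2) - f (2 * m + 1)‖) := by
  induction k, hjk using Nat.le_induction with
  | base =>
    simp
  | succ k hjk ih =>
    rw [sum_Ico_succ_top hjk]
    have h1 : f (2 * (k + 1)) - f (2 * j) = (f (2 * k + 2) - f (2 * k + 1)) + (f (2 * k + 1) - f (2 * k)) +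
        (f (2 * k) - f (2 * j)) := by
      rw [show 2 * (k + 1) = 2 * k + 2 by ring]
      abel
    rw [h1]
    have h2 := norm_add₃_le (a := f (2 * k + 2) - f (2 * k + 1)) (b := f (2 * k + 1) - f (2 * k)) (c := f (2 * k) - f (2 * j))
    linarith

/-- variation in a cell -/
def cell {E : Type*} [SeminormedAddCommGroup E] (f : ℕ → E) (m : ℕ) : ℝ :=
  ‖f (2 * m + 1) - f (2 * m)‖ + ‖f (2 * m + 2) - f (2 * m + 1)‖

lemma cell_nonneg {E : Type*} [SeminormedAddCommGroup E] (f : ℕ → E) (m : ℕ) : 0 ≤ cell f m := by unfold cell; positivity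

lemma diff_le {E : Type*} [SeminormedAddCommGroup E] (f : ℕ → E) {j k : ℕ} (hjk : j ≤ k) : ‖f (2 * k + 1) - f (2 * j)‖ ≤
    ∑ m ∈ Ico j (k + 1), cell f m := by
  rw [sum_Ico_succ_top hjk]
  have h1 : f (2 * k + 1) - f (2 * j) = (f (2 * k + 1) - f (2 * k)) + (f (2 * k) - f (2 * j)) := by abel
  rw [h1]
  have h2 := norm_add_le (f (2 * k + 1) - f (2 * k)) (f (2 * k) - f (2 * j))
  have h3 := diff_le' f hjk
  have h4 := norm_nonneg (f (2 * k + 2) - f (2 * k + 1))
  unfold cell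
  linarith

lemma sum_cell {E : Type*} [SeminormedAddCommGroup E] (f : ℕ → E) (M : ℕ) :
    ∑ m ∈ range M, cell f m = ∑ n ∈ range (2 * M), ‖f (n + 1) - f n‖ := by
  induction M with
  | zero => simp
  | succ M ih =>
    rw [sum_range_succ, ih, show 2 * (M + 1) = 2 * M + 1 + 1 by ring, sum_range_succ, sum_range_succ]
    unfold cell
    ring

section bound

variable {𝕜 : Type} [RCLike 𝕜]

/-- size of the inputs at place `k` -/
def Zc (p : ℝ) (N : ℕ) (x : I → 𝕜) (K k : ℕ) : ℝ := lpn p (range N) fun i => ‖x (K, Sum.inr (k, i))‖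

/-- the part of the kernel across the place `m` -/
def Gm (Z : ℕ → ℝ) (K m j : ℕ) : ℝ := if j ≤ m then ∑ k ∈ Ico m K, wt (k - j) * Z k else 0

lemma Gm_bound {p : ℝ} (hp1 : 1 < p) (Z : ℕ → ℝ) (hZ : ∀ k, 0 ≤ Z k) (K m : ℕ) (hm : m < K) :
    lpn p (range K) (Gm Z K m) ≤ hc p * lpn p (range K) Z := by
  have hp0 : 0 < p := by linarith
  rw [lpn_le_iff hp0 _ _ (mul_nonneg (hc_nonneg hp1) (lpn_nonneg _ _)), Real.mul_rpow (hc_nonneg hp1) (lpn_nonneg _ _),
    hc_rpow hp1, lpn_rpow hp0]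
  have h1 : ∑ j ∈ range K, |Gm Z K m j| ^ p = ∑ j ∈ range (m + 1), (∑ k ∈ Ico m K, wt (k - j) * Z k) ^ p := by
    rw [← sum_subset (range_mono (by omega : m + 1 ≤ K))]
    · refine sum_congr rfl fun j hj => ?_
      rw [mem_range] at hj
      unfold Gm
      rw [if_pos (by omega), abs_of_nonneg (sum_nonneg fun k _ => mul_nonneg (wt_pos _).le (hZ k))]
    · intro j _ hj
      rw [mem_range] at hj
      unfold Gm
      rw [if_neg (by omega), abs_zero, Real.zero_rpow hp0.ne']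
  rw [h1, ← sum_flip]
  have h2 : ∀ a ∈ range (m + 1), (∑ k ∈ Ico m K, wt (k - (m - a)) * Z k) = ∑ b ∈ range (K - m), ((a : ℝ) + b + 1)⁻¹ * Z (m + b) := by
    intro a ha
    rw [mem_range] at ha
    rw [sum_Ico_eq_sum_range]
    refine sum_congr rfl fun b _ => ?_
    unfold wt
    congr 2
    have : m + b - (m - a) = a + b := by omega
    rw [this]
    push_cast
    ring
  calc _ = ∑ a ∈ range (m + 1), (∑ b ∈ range (K - m), ((a : ℝ) + b + 1)⁻¹ * Z (m + b)) ^ p :=
        sum_congr rfl fun a ha => by rw [h2 a ha]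
    _ ≤ hp p * ∑ b ∈ range (K - m), Z (m + b) ^ p := hilbert_kernel hp1 _ _ _ fun b => hZ _
    _ = hp p * ∑ k ∈ Ico m K, Z k ^ p := by rw [sum_Ico_eq_sum_range]
    _ ≤ hp p * ∑ k ∈ range K, |Z k| ^ p := by
        have := (hp_pos hp1).le
        gcongr
        calc ∑ k ∈ Ico m K, Z k ^ p = ∑ k ∈ Ico m K, |Z k| ^ p := sum_congr rfl fun k _ => by rw [abs_of_nonneg (hZ k)]
          _ ≤ _ := by
            refine sum_le_sum_of_subset_of_nonneg ?_ fun _ _ _ => by positivity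
            intro k hk
            rw [mem_Ico] at hk
            rw [mem_range]
            exact hk.2

lemma off_le {p : ℝ} (hp1 : 1 < p) (f : ℕ → 𝕜) (x : I → 𝕜) {N K : ℕ} (hK : K ≤ N) (j : ℕ) :
    ‖off f x K j‖ ≤ ∑ m ∈ range K, cell f m * Gm (Zc p N x K) K m j := by
  have hp0 : 0 < p := by linarith
  have h1 : ‖off f x K j‖ ≤ ∑ k ∈ Ico j K, ∑ m ∈ Ico j (k + 1), cell f m * (wt (k - j) * Zc p N x K k) := by
    unfold off
    refine (norm_sum_le _ _).trans (sum_le_sum fun k hk => ?_)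
    rw [mem_Ico] at hk
    rw [← sum_mul, norm_mul, norm_mul, RCLike.norm_ofReal, abs_of_pos (wt_pos _)]
    have h2 := diff_le f hk.1
    have h3 : ‖x (K, Sum.inr (k, col (k - j)))‖ ≤ Zc p N x K k := by
      have h4 := col_le (k - j)
      have h5 := le_lpn hp0 (s := range N) (i := col (k - j)) (by rw [mem_range]; omega) fun i => ‖x (K, Sum.inr (k, i))‖
      simp only [abs_norm] at h5
      exact h5
    have h4 := (wt_pos (k - j)).le
    calc wt (k - j) * (‖f (2 * k + 1) - f (2 * j)‖ * ‖x (K, Sum.inr (k, col (k - j)))‖) ≤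
        wt (k - j) * ((∑ m ∈ Ico j (k + 1), cell f m) * Zc p N x K k) := by
          have : 0 ≤ ∑ m ∈ Ico j (k + 1), cell f m := sum_nonneg fun m _ => cell_nonneg f m
          gcongr
      _ = _ := by ring
  refine h1.trans ?_
  rw [← sum_Ico_Ico_comm j K (fun m k => cell f m * (wt (k - j) * Zc p N x K k))]
  have hZ : ∀ k, 0 ≤ Zc p N x K k := fun k => lpn_nonneg _ _
  calc ∑ m ∈ Ico j K, ∑ k ∈ Ico m K, cell f m * (wt (k - j) * Zc p N x K k)
      = ∑ m ∈ Ico j K, cell f m * Gm (Zc p N x K) K m j := by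
        refine sum_congr rfl fun m hm => ?_
        rw [mem_Ico] at hm
        unfold Gm
        rw [if_pos hm.1, mul_sum]
    _ ≤ _ := by
        refine sum_le_sum_of_subset_of_nonneg ?_ fun m _ _ => ?_
        · intro m hm
          rw [mem_Ico] at hm
          rw [mem_range]
          exact hm.2
        · refine mul_nonneg (cell_nonneg f m) ?_
          unfold Gm
          split_ifs
          · exact sum_nonneg fun k _ => mul_nonneg (wt_pos _).le (hZ k)
          · exact le_rfl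

lemma off_eq_zero (f : ℕ → 𝕜) (x : I → 𝕜) {K j : ℕ} (h : K ≤ j) : off f x K j = 0 := by
  unfold off
  rw [Ico_eq_empty (by omega), sum_empty]

lemma off_lpn {p : ℝ} (hp1 : 1 < p) (f : ℕ → 𝕜) {V : ℝ} (hV : ∀ M, ∑ n ∈ range M, ‖f (n + 1) - f n‖ ≤ V)
    (x : I → 𝕜) {N K : ℕ} (hK : K ≤ N) :
    lpn p (range N) (fun j => ‖off f x K j‖) ≤ V * (hc p * lpn p (range K) (Zc p N x K)) := by
  have hp0 : 0 < p := by linarith
  have hV0 : 0 ≤ V := le_trans (by simp) (hV 0)
  have h1 : lpn p (range N) (fun j => ‖off f x K j‖) = lpn p (range K) (fun j => ‖off f x K j‖) := by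
    unfold lpn
    congr 1
    symm
    refine sum_subset (range_mono hK) fun j _ hj => ?_
    rw [mem_range] at hj
    have h0 : off f x K j = 0 := off_eq_zero f x (by omega)
    simp only [h0, norm_zero, abs_zero]
    exact Real.zero_rpow hp0.ne'
  rw [h1]
  have hZ : ∀ k, 0 ≤ Zc p N x K k := fun k => lpn_nonneg _ _
  calc lpn p (range K) (fun j => ‖off f x K j‖)
      ≤ lpn p (range K) (fun j => ∑ m ∈ range K, cell f m * Gm (Zc p N x K) K m j) := by
        refine lpn_mono hp0 _ fun j _ => ?_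
        rw [abs_norm]
        exact (off_le hp1 f x hK j).trans (le_abs_self _)
    _ ≤ ∑ m ∈ range K, lpn p (range K) (fun j => cell f m * Gm (Zc p N x K) K m j) := lpn_sum hp1.le _ _ _
    _ = ∑ m ∈ range K, cell f m * lpn p (range K) (Gm (Zc p N x K) K m) :=
        sum_congr rfl fun m _ => lpn_smul hp0 _ (cell_nonneg f m) _
    _ ≤ ∑ m ∈ range K, cell f m * (hc p * lpn p (range K) (Zc p N x K)) := by
        refine sum_le_sum fun m hm => ?_
        rw [mem_range] at hm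
        have := cell_nonneg f m
        have := Gm_bound hp1 (Zc p N x K) hZ K m hm
        gcongr
    _ = (∑ m ∈ range K, cell f m) * (hc p * lpn p (range K) (Zc p N x K)) := by rw [sum_mul]
    _ ≤ _ := by
        have : 0 ≤ hc p * lpn p (range K) (Zc p N x K) := mul_nonneg (hc_nonneg hp1) (lpn_nonneg _ _)
        gcongr
        rw [sum_cell]
        exact hV _

theorem PN_op {p : ℝ} (hp1 : 1 < p) (f : ℕ → 𝕜) {S V : ℝ} (hS : ∀ n, ‖f n‖ ≤ S)
    (hV : ∀ M, ∑ n ∈ range M, ‖f (n + 1) - f n‖ ≤ V) (N : ℕ) (x : I → 𝕜) :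
    PN p N (absf (op f x)) ≤ (S + V * hc p) * PN p N (absf x) := by
  have hp0 : 0 < p := by linarith
  have hV0 : 0 ≤ V := le_trans (by simp) (hV 0)
  have hS0 : 0 ≤ S := (norm_nonneg _).trans (hS 0)
  have hc0 := hc_nonneg hp1
  set O : I → ℝ := fun i => match i with
    | (K, Sum.inl j) => ‖off f x K j‖
    | (_, Sum.inr _) => 0 with hO
  have h1 : PN p N (absf (op f x)) ≤ lpn p (box N) (fun i => S * absf x i + O i) := by
    refine lpn_mono hp0 _ ?_
    rintro ⟨K, i⟩ -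
    have hx : ∀ i, 0 ≤ absf x i := fun i => norm_nonneg _
    rcases i with j | q
    · have hO1 : 0 ≤ O (K, Sum.inl j) := norm_nonneg _
      rw [abs_of_nonneg (a := absf (op f x) (K, Sum.inl j)) (norm_nonneg _), abs_of_nonneg (add_nonneg (mul_nonneg hS0 (hx _)) hO1)]
      simp only [hO, absf, op_inl]
      refine (norm_add_le _ _).trans ?_
      rw [norm_mul]
      gcongr
      exact hS _
    · have hO1 : 0 ≤ O (K, Sum.inr q) := le_rfl
      rw [abs_of_nonneg (a := absf (op f x) (K, Sum.inr q)) (norm_nonneg _), abs_of_nonneg (add_nonneg (mul_nonneg hS0 (hx _)) hO1)]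
      simp only [hO, absf, op_inr, add_zero, norm_mul]
      gcongr
      exact hS _
  refine h1.trans ((lpn_add hp1.le _ _ _).trans ?_)
  rw [lpn_smul hp0 _ hS0, add_mul]
  refine add_le_add le_rfl ?_
  have hx0 : 0 ≤ PN p N (absf x) := lpn_nonneg _ _
  rw [lpn_le_iff hp0 _ _ (by positivity), mul_assoc, Real.mul_rpow hV0 (by positivity), Real.mul_rpow hc0 hx0]
  unfold PN
  rw [lpn_rpow hp0, sum_box, sum_box, mul_sum, mul_sum]
  refine sum_le_sum fun K hK => ?_
  rw [mem_range] at hK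
  have h2 := off_lpn hp1 f hV x hK.le
  rw [lpn_le_iff hp0 _ _ (mul_nonneg hV0 (mul_nonneg hc0 (lpn_nonneg _ _))), Real.mul_rpow hV0 (mul_nonneg hc0 (lpn_nonneg _ _)),
    Real.mul_rpow hc0 (lpn_nonneg _ _), lpn_rpow hp0] at h2
  have h3 : ∑ k ∈ range K, |Zc p N x K k| ^ p ≤ ∑ k ∈ range N, ∑ i ∈ range N, |absf x (K, Sum.inr (k, i))| ^ p := by
    calc ∑ k ∈ range K, |Zc p N x K k| ^ p ≤ ∑ k ∈ range N, |Zc p N x K k| ^ p :=
          sum_le_sum_of_subset_of_nonneg (range_mono hK.le) fun _ _ _ => by positivity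
      _ = _ := by
          refine sum_congr rfl fun k _ => ?_
          rw [abs_of_nonneg (a := Zc p N x K k) (lpn_nonneg _ _)]
          unfold Zc
          rw [lpn_rpow hp0]
          rfl
  have h4 : ∑ j ∈ range N, |O (K, Sum.inl j)| ^ p = ∑ j ∈ range N, |‖off f x K j‖| ^ p := rfl
  have h5 : ∑ k ∈ range N, ∑ i ∈ range N, |O (K, Sum.inr (k, i))| ^ p = 0 := by
    simp only [hO, abs_zero, Real.zero_rpow hp0.ne', sum_const_zero]
  rw [h4, h5, add_zero]
  refine h2.trans ?_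
  have h6 : 0 ≤ ∑ j ∈ range N, |absf x (K, Sum.inl j)| ^ p := sum_nonneg fun _ _ => by positivity
  have h7 := Real.rpow_nonneg hV0 p
  have h8 := Real.rpow_nonneg hc0 p
  gcongr
  linarith

end bound

end

end Pool.Agent.H716R3
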