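import Pool.Agent.H716R3.Defs

/-! Cauchy integral formula on sectors. -/

open MeasureTheory Filter Topology Set

namespace Pool.Agent.H716R3

noncomputable section

lemma arg_exp' {w : ℂ} (h1 : -Real.pi < w.im) (h2 : w.im ≤ Real.pi) : Complex.arg (Complex.exp w) = w.im := by
  rw [← Complex.log_im, Complex.log_exp h1 h2]

lemma exp_mem_sector {σ : ℝ} (hσ : σ ≤ Real.pi) {w : ℂ} (hw : |w.im| < σ) : Complex.exp w ∈ sector σ := by
  obtain ⟨h1, h2⟩ := abs_lt.1 hw
  refine ⟨Complex.exp_ne_zero w, ?_⟩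
  rw [arg_exp' (by linarith) (by linarith)]
  exact hw

lemma ray_exp (x θ : ℝ) : ((Real.exp x : ℝ) : ℂ) * Complex.exp (θ * Complex.I) = Complex.exp (x + θ * Complex.I) := by
  rw [Complex.ofReal_exp, ← Complex.exp_add]

lemma norm_ray {r : ℝ} (hr : 0 < r) (θ : ℝ) : ‖(r : ℂ) * Complex.exp (θ * Complex.I)‖ = r := by
  rw [norm_mul, Complex.norm_exp_ofReal_mul_I, mul_one, Complex.norm_real, Real.norm_of_nonneg hr.le]

lemma arg_ray {r : ℝ} (hr : 0 < r) {θ : ℝ} (h1 : -Real.pi < θ) (h2 : θ ≤ Real.pi) :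
    Complex.arg ((r : ℂ) * Complex.exp (θ * Complex.I)) = θ := by
  rw [Complex.arg_real_mul _ hr, arg_exp' (by simpa using h1) (by simpa using h2)]
  simp

lemma ray_mem {σ : ℝ} (hσ : σ ≤ Real.pi) {r : ℝ} (hr : 0 < r) {θ : ℝ} (h : |θ| < σ) :
    (r : ℂ) * Complex.exp (θ * Complex.I) ∈ sector σ := by
  obtain ⟨h1, h2⟩ := abs_lt.1 h
  refine ⟨?_, ?_⟩
  · rw [← norm_pos_iff, norm_ray hr]; exact hr
  · rw [arg_ray hr (by linarith) (by linarith)]; exact h

lemma isOpen_sector {σ : ℝ} (hσ : σ ≤ Real.pi) : IsOpen (sector σ) := by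
  have h : sector σ = Complex.slitPlane ∩ Complex.arg ⁻¹' (Ioo (-σ) σ) := by
    ext z
    simp only [sector, Set.mem_ofPred_eq, mem_inter_iff, Complex.mem_slitPlane_iff_arg, mem_preimage, mem_Ioo, abs_lt]
    constructor
    · rintro ⟨h1, h2, h3⟩
      exact ⟨⟨by linarith, h1⟩, h2, h3⟩
    · rintro ⟨⟨h1, h2⟩, h3, h4⟩
      exact ⟨h2, h3, h4⟩
  rw [h]
  exact ContinuousOn.isOpen_inter_preimage (fun z hz => (Complex.continuousAt_arg hz).continuousWithinAt)
    Complex.isOpen_slitPlane isOpen_Ioo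

lemma integral_Ioi_exp {E : Type*} [NormedAddCommGroup E] [NormedSpace ℝ E] (g : ℝ → E) :
    ∫ r in Ioi (0 : ℝ), g r = ∫ x : ℝ, Real.exp x • g (Real.exp x) := by
  have h1 := integral_image_eq_integral_abs_deriv_smul (s := univ) (f := Real.exp) (f' := Real.exp) MeasurableSet.univ
    (fun x _ => (Real.hasDerivAt_exp x).hasDerivWithinAt) Real.exp_injective.injOn g
  rw [image_univ, Real.range_exp] at h1
  rw [h1, setIntegral_univ]
  simp only [Real.abs_exp]

lemma integrable_exp_abs {ε : ℝ} (hε : 0 < ε) : Integrable (fun x : ℝ => Real.exp (-(ε * |x|))) := by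
  have h1 : IntegrableOn (fun x : ℝ => Real.exp (-(ε * |x|))) (Ioi 0) := by
    refine (integrableOn_exp_mul_Ioi (a := -ε) (by linarith) 0).congr_fun (fun x hx => ?_) measurableSet_Ioi
    rw [mem_Ioi] at hx
    simp only [abs_of_pos hx]
    congr 1
    ring
  have h2 : IntegrableOn (fun x : ℝ => Real.exp (-(ε * |x|))) (Iic 0) := by
    refine (integrableOn_exp_mul_Iic (a := ε) hε 0).congr_fun (fun x hx => ?_) measurableSet_Iic
    rw [mem_Iic] at hx
    simp only [abs_of_nonpos hx]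
    congr 1
    ring
  rw [← integrableOn_univ, ← Iic_union_Ioi (a := (0 : ℝ))]
  exact h2.union h1

/-- a function on the sector decaying like a member of `H_0^∞` divided by `z` -/
structure Dec (σ : ℝ) (h : ℂ → ℂ) : Prop where
  diff : DifferentiableOn ℂ h (sector σ)
  bound : ∃ C ε : ℝ, 0 < ε ∧ ∀ z ∈ sector σ, ‖h z‖ * ‖z‖ ≤ C * Real.exp (-(ε * |Real.log ‖z‖|))

lemma dec_k {σ : ℝ} (hσ : σ ≤ Real.pi) {h : ℂ → ℂ} {C ε : ℝ}
    (hb : ∀ z ∈ sector σ, ‖h z‖ * ‖z‖ ≤ C * Real.exp (-(ε * |Real.log ‖z‖|))) (x y : ℝ) (hy : |y| < σ) :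
    ‖h (Complex.exp (x + y * Complex.I)) * Complex.exp (x + y * Complex.I)‖ ≤ C * Real.exp (-(ε * |x|)) := by
  have h1 := hb (Complex.exp (x + y * Complex.I)) (exp_mem_sector hσ (by simpa using hy))
  have h2 : ‖Complex.exp (x + y * Complex.I)‖ = Real.exp x := by
    rw [Complex.norm_exp]; simp
  rw [norm_mul]
  rw [h2, Real.log_exp] at h1
  rw [h2]
  exact h1

lemma dec_cont {σ : ℝ} (hσ : σ ≤ Real.pi) {h : ℂ → ℂ} (hd : DifferentiableOn ℂ h (sector σ)) {y : ℝ} (hy : |y| < σ) :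
    Continuous (fun x : ℝ => h (Complex.exp (x + y * Complex.I)) * Complex.exp (x + y * Complex.I)) := by
  refine Continuous.mul ?_ (by fun_prop)
  refine hd.continuousOn.comp_continuous (by fun_prop) fun x => exp_mem_sector hσ (by simpa using hy)

lemma dec_integrable {σ : ℝ} (hσ : σ ≤ Real.pi) {h : ℂ → ℂ} (hd : Dec σ h) {y : ℝ} (hy : |y| < σ) :
    Integrable (fun x : ℝ => h (Complex.exp (x + y * Complex.I)) * Complex.exp (x + y * Complex.I)) := by
  obtain ⟨C, ε, hε, hb⟩ := hd.bound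
  refine ((integrable_exp_abs hε).const_mul C).mono' (dec_cont hσ hd.diff hy).aestronglyMeasurable
    (Eventually.of_forall fun x => dec_k hσ hb x y hy)

/-- the ray integral does not depend on the angle -/
theorem rot {σ : ℝ} (hσ : σ ≤ Real.pi) {h : ℂ → ℂ} (hd : Dec σ h) {θ₁ θ₂ : ℝ} (h1 : |θ₁| < σ) (h2 : |θ₂| < σ) :
    ∫ x : ℝ, h (Complex.exp (x + θ₁ * Complex.I)) * Complex.exp (x + θ₁ * Complex.I) =
    ∫ x : ℝ, h (Complex.exp (x + θ₂ * Complex.I)) * Complex.exp (x + θ₂ * Complex.I) := by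
  obtain ⟨C, ε, hε, hb⟩ := hd.bound
  set k : ℂ → ℂ := fun w => h (Complex.exp w) * Complex.exp w with hk
  have hI1 := dec_integrable hσ hd h1
  have hI2 := dec_integrable hσ hd h2
  have hkd : ∀ R : ℝ, DifferentiableOn ℂ k (uIcc (-R) R ×ℂ uIcc θ₁ θ₂) := by
    intro R
    have hmaps : MapsTo Complex.exp (uIcc (-R) R ×ℂ uIcc θ₁ θ₂) (sector σ) := by
      intro w hw
      refine exp_mem_sector hσ ?_
      have h3 := hw.2
      have h4 : w.im ∈ uIcc θ₁ θ₂ := h3
      rw [abs_lt] at h1 h2 ⊢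
      rcases le_total θ₁ θ₂ with h | h
      · rw [uIcc_of_le h] at h4
        exact ⟨by linarith [h4.1], by linarith [h4.2]⟩
      · rw [uIcc_of_ge h] at h4
        exact ⟨by linarith [h4.1], by linarith [h4.2]⟩
    exact (hd.diff.comp Complex.differentiable_exp.differentiableOn hmaps).mul Complex.differentiable_exp.differentiableOn
  have hrect : ∀ R : ℝ, (∫ x in (-R)..R, k (x + θ₁ * Complex.I)) - (∫ x in (-R)..R, k (x + θ₂ * Complex.I)) =
      Complex.I • (∫ y in θ₁..θ₂, k ((-R : ℝ) + y * Complex.I)) - Complex.I • ∫ y in θ₁..θ₂, k (R + y * Complex.I) := by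
    intro R
    have h3 := Complex.integral_boundary_rect_eq_zero_of_differentiableOn k (-R + θ₁ * Complex.I) (R + θ₂ * Complex.I)
      (by simpa using hkd R)
    simp only [Complex.add_re, Complex.neg_re, Complex.ofReal_re, Complex.mul_re, Complex.I_re, mul_zero, Complex.ofReal_im,
      Complex.I_im, mul_one, sub_self, add_zero, Complex.add_im, Complex.neg_im, neg_zero, Complex.mul_im, zero_add, zero_mul] at h3
    linear_combination h3
  have hv : ∀ R y : ℝ, y ∈ uIoc θ₁ θ₂ → ‖k (R + y * Complex.I)‖ ≤ C * Real.exp (-(ε * |R|)) := by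
    intro R y hy
    refine dec_k hσ hb R y ?_
    rw [abs_lt] at h1 h2 ⊢
    rcases le_total θ₁ θ₂ with h | h
    · rw [uIoc_of_le h] at hy
      exact ⟨by linarith [hy.1], by linarith [hy.2]⟩
    · rw [uIoc_of_ge h] at hy
      exact ⟨by linarith [hy.1], by linarith [hy.2]⟩
  have hT : Tendsto (fun R : ℝ => C * Real.exp (-(ε * |R|)) * |θ₂ - θ₁|) atTop (𝓝 0) := by
    have h3 : Tendsto (fun R : ℝ => Real.exp (-(ε * |R|))) atTop (𝓝 0) := by
      refine Real.tendsto_exp_neg_atTop_nhds_zero.comp ?_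
      exact tendsto_abs_atTop_atTop.const_mul_atTop hε
    have h4 := (h3.const_mul C).mul_const |θ₂ - θ₁|
    simpa using h4
  have hv1 : Tendsto (fun R : ℝ => ∫ y in θ₁..θ₂, k (R + y * Complex.I)) atTop (𝓝 0) := by
    refine squeeze_zero_norm (fun R => ?_) hT
    exact intervalIntegral.norm_integral_le_of_norm_le_const fun y hy => hv R y hy
  have hv2 : Tendsto (fun R : ℝ => ∫ y in θ₁..θ₂, k ((-R : ℝ) + y * Complex.I)) atTop (𝓝 0) := by
    refine squeeze_zero_norm (fun R => ?_) hT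
    refine intervalIntegral.norm_integral_le_of_norm_le_const fun y hy => ?_
    have := hv (-R) y hy
    rwa [abs_neg] at this
  have hlim1 : Tendsto (fun R : ℝ => (∫ x in (-R)..R, k (x + θ₁ * Complex.I)) - (∫ x in (-R)..R, k (x + θ₂ * Complex.I))) atTop
      (𝓝 ((∫ x : ℝ, k (x + θ₁ * Complex.I)) - ∫ x : ℝ, k (x + θ₂ * Complex.I))) :=
    (intervalIntegral_tendsto_integral hI1 tendsto_neg_atTop_atBot tendsto_id).sub
      (intervalIntegral_tendsto_integral hI2 tendsto_neg_atTop_atBot tendsto_id)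
  have hlim2 : Tendsto (fun R : ℝ => (∫ x in (-R)..R, k (x + θ₁ * Complex.I)) - (∫ x in (-R)..R, k (x + θ₂ * Complex.I))) atTop (𝓝 0) := by
    simp_rw [hrect]
    have := (hv2.const_smul Complex.I).sub (hv1.const_smul Complex.I)
    simpa using this
  exact sub_eq_zero.1 (tendsto_nhds_unique hlim1 hlim2)

end

end Pool.Agent.H716R3
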