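import Mathlib

/-! Symbols of bounded variation on the points `2^{-n}`. -/

open Finset

namespace Pool.Agent.H716R3

noncomputable section

/-- the points -/
def lam (n : ℕ) : ℝ := (1 / 2) ^ n

lemma lam_pos (n : ℕ) : 0 < lam n := by unfold lam; positivity
lemma lam_le_one (n : ℕ) : lam n ≤ 1 := by unfold lam; exact pow_le_one₀ (by norm_num) (by norm_num)
lemma lam_zero : lam 0 = 1 := by simp [lam]
lemma lam_succ (n : ℕ) : lam (n + 1) = lam n / 2 := by unfold lam; ring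
lemma lam_anti (n : ℕ) : lam (n + 1) ≤ lam n := by rw [lam_succ]; linarith [lam_pos n]

/-- bounded by `S` and of variation at most `V` -/
structure BV (f : ℕ → ℂ) (S V : ℝ) : Prop where
  sup : ∀ n, ‖f n‖ ≤ S
  var : ∀ M, ∑ n ∈ range M, ‖f (n + 1) - f n‖ ≤ V

lemma BV.S_nonneg {f : ℕ → ℂ} {S V : ℝ} (h : BV f S V) : 0 ≤ S := (norm_nonneg _).trans (h.sup 0)
lemma BV.V_nonneg {f : ℕ → ℂ} {S V : ℝ} (h : BV f S V) : 0 ≤ V := by
  have := h.var 0
  simpa using this

lemma BV.of_dom {f : ℕ → ℂ} {S V : ℝ} (hS : ∀ n, ‖f n‖ ≤ S) (g : ℕ → ℝ) (hg : ∀ n, ‖f (n + 1) - f n‖ ≤ g (n + 1) - g n)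
    (hV : ∀ n, g n - g 0 ≤ V) : BV f S V := by
  refine ⟨hS, fun M => ?_⟩
  calc _ ≤ ∑ n ∈ range M, (g (n + 1) - g n) := sum_le_sum fun n _ => hg n
    _ = g M - g 0 := sum_range_sub g M
    _ ≤ V := hV M

lemma BV.mono {f : ℕ → ℂ} {S V S' V' : ℝ} (h : BV f S V) (hS : S ≤ S') (hV : V ≤ V') : BV f S' V' :=
  ⟨fun n => (h.sup n).trans hS, fun M => (h.var M).trans hV⟩

lemma BV.mul {f g : ℕ → ℂ} {S V S' V' : ℝ} (h : BV f S V) (h' : BV g S' V') : BV (f * g) (S * S') (S * V' + V * S') := by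
  refine ⟨fun n => ?_, fun M => ?_⟩
  · rw [Pi.mul_apply, norm_mul]
    have := h.sup n
    have := h'.sup n
    have := h.S_nonneg
    gcongr
  · calc _ ≤ ∑ n ∈ range M, (S * ‖g (n + 1) - g n‖ + ‖f (n + 1) - f n‖ * S') := by
          refine sum_le_sum fun n _ => ?_
          have e : (f * g) (n + 1) - (f * g) n = f (n + 1) * (g (n + 1) - g n) + (f (n + 1) - f n) * g n := by
            simp only [Pi.mul_apply]; ring
          rw [e]
          refine (norm_add_le _ _).trans ?_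
          rw [norm_mul, norm_mul]
          have := h.sup (n + 1)
          have := h'.sup n
          gcongr
      _ = S * (∑ n ∈ range M, ‖g (n + 1) - g n‖) + (∑ n ∈ range M, ‖f (n + 1) - f n‖) * S' := by
          rw [sum_add_distrib, mul_sum, sum_mul]
      _ ≤ _ := by
          have := h.S_nonneg
          have := h'.S_nonneg
          have := h.var M
          have := h'.var M
          gcongr

lemma BV.add {f g : ℕ → ℂ} {S V S' V' : ℝ} (h : BV f S V) (h' : BV g S' V') : BV (f + g) (S + S') (V + V') := by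
  refine ⟨fun n => ?_, fun M => ?_⟩
  · exact (norm_add_le _ _).trans (add_le_add (h.sup n) (h'.sup n))
  · calc _ ≤ ∑ n ∈ range M, (‖f (n + 1) - f n‖ + ‖g (n + 1) - g n‖) := by
          refine sum_le_sum fun n _ => ?_
          have e : (f + g) (n + 1) - (f + g) n = (f (n + 1) - f n) + (g (n + 1) - g n) := by
            simp only [Pi.add_apply]; ring
          rw [e]
          exact norm_add_le _ _
      _ ≤ _ := by
          rw [sum_add_distrib]
          exact add_le_add (h.var M) (h'.var M)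

lemma BV.smul {f : ℕ → ℂ} {S V : ℝ} (h : BV f S V) (c : ℂ) : BV (c • f) (‖c‖ * S) (‖c‖ * V) := by
  refine ⟨fun n => ?_, fun M => ?_⟩
  · rw [Pi.smul_apply, norm_smul]
    have := h.sup n
    gcongr
  · simp only [Pi.smul_apply, ← smul_sub, norm_smul, ← mul_sum]
    have := h.var M
    gcongr

lemma BV.neg {f : ℕ → ℂ} {S V : ℝ} (h : BV f S V) : BV (-f) S V := by
  refine ⟨fun n => ?_, fun M => ?_⟩
  · rw [Pi.neg_apply, norm_neg]
    exact h.sup n
  · have : ∀ n, ‖(-f) (n + 1) - (-f) n‖ = ‖f (n + 1) - f n‖ := fun n => by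
      rw [Pi.neg_apply, Pi.neg_apply, neg_sub_neg, norm_sub_rev]
    simp only [this]
    exact h.var M

lemma BV.sub {f g : ℕ → ℂ} {S V S' V' : ℝ} (h : BV f S V) (h' : BV g S' V') : BV (f - g) (S + S') (V + V') := by
  rw [sub_eq_add_neg]
  exact h.add h'.neg

lemma BV.const (c : ℂ) : BV (fun _ => c) ‖c‖ 0 := ⟨fun _ => le_rfl, fun M => by simp⟩

lemma BV.one : BV 1 1 0 := ⟨fun _ => by simp, fun M => by simp⟩

/-- symbol of `A` -/
def symA (n : ℕ) : ℂ := (lam n : ℂ)

lemma BV.symA : BV symA 1 1 := by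
  refine BV.of_dom (fun n => ?_) (fun n => -lam n) (fun n => ?_) (fun n => ?_)
  · unfold Pool.Agent.H716R3.symA
    rw [Complex.norm_real, Real.norm_of_nonneg (lam_pos n).le]
    exact lam_le_one n
  · unfold Pool.Agent.H716R3.symA
    rw [← Complex.ofReal_sub, Complex.norm_real, Real.norm_eq_abs, abs_of_nonpos (by linarith [lam_anti n])]
    linarith
  · rw [lam_zero]
    linarith [lam_pos n]

/-- symbol of the semigroup -/
def symT (t : ℝ) (n : ℕ) : ℝ := Real.exp (-(t * lam n))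

lemma symT_pos (t : ℝ) (n : ℕ) : 0 < symT t n := Real.exp_pos _

lemma symT_le_one {t : ℝ} (ht : 0 ≤ t) (n : ℕ) : symT t n ≤ 1 := by
  unfold symT
  rw [Real.exp_le_one_iff]
  have := mul_nonneg ht (lam_pos n).le
  linarith

lemma symT_mono {t : ℝ} (ht : 0 ≤ t) (n : ℕ) : symT t n ≤ symT t (n + 1) := by
  unfold symT
  rw [Real.exp_le_exp]
  have := mul_le_mul_of_nonneg_left (lam_anti n) ht
  linarith

lemma symT_add (s t : ℝ) (n : ℕ) : symT (s + t) n = symT s n * symT t n := by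
  unfold symT
  rw [← Real.exp_add]
  congr 1
  ring

lemma symT_zero (n : ℕ) : symT 0 n = 1 := by simp [symT]

lemma BV.symT {t : ℝ} (ht : 0 ≤ t) : BV (fun n => (symT t n : ℂ)) 1 1 := by
  refine BV.of_dom (fun n => ?_) (fun n => Pool.Agent.H716R3.symT t n) (fun n => ?_) (fun n => ?_)
  · rw [Complex.norm_real, Real.norm_of_nonneg (symT_pos t n).le]
    exact symT_le_one ht n
  · rw [← Complex.ofReal_sub, Complex.norm_real, Real.norm_of_nonneg (by linarith [symT_mono ht n])]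
  · linarith [symT_le_one ht n, symT_pos t 0]

lemma BV.symT_sub {t : ℝ} (ht : 0 ≤ t) : BV (fun n => ((Pool.Agent.H716R3.symT t n - 1 : ℝ) : ℂ)) t t := by
  have h1 : ∀ n, 1 - t ≤ Pool.Agent.H716R3.symT t n := by
    intro n
    unfold Pool.Agent.H716R3.symT
    have h2 := Real.add_one_le_exp (-(t * lam n))
    have h3 := mul_le_mul_of_nonneg_left (lam_le_one n) ht
    linarith
  refine BV.of_dom (fun n => ?_) (fun n => Pool.Agent.H716R3.symT t n) (fun n => ?_) (fun n => ?_)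
  · rw [Complex.norm_real, Real.norm_eq_abs, abs_of_nonpos (by linarith [symT_le_one ht n])]
    linarith [h1 n]
  · rw [← Complex.ofReal_sub, Complex.norm_real, Real.norm_of_nonneg (by linarith [symT_mono ht n])]
    linarith
  · linarith [symT_le_one ht n, h1 0]

lemma BV.symG {t : ℝ} (ht : 0 < t) : BV (fun n => (((Pool.Agent.H716R3.symT t n - 1) / t + lam n : ℝ) : ℂ)) t t := by
  have key : ∀ a b : ℝ, 0 ≤ a → a ≤ b → (Real.exp (-(t * a)) - 1) / t + a ≤ (Real.exp (-(t * b)) - 1) / t + b := by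
    intro a b ha hab
    have h1 : Real.exp (-(t * a)) - Real.exp (-(t * b)) ≤ t * (b - a) := by
      have e : Real.exp (-(t * b)) = Real.exp (-(t * a)) * Real.exp (-(t * (b - a))) := by
        rw [← Real.exp_add]; congr 1; ring
      rw [e]
      have h2 := Real.add_one_le_exp (-(t * (b - a)))
      have h3 : Real.exp (-(t * a)) ≤ 1 := by
        rw [Real.exp_le_one_iff]
        have := mul_nonneg ht.le ha
        linarith
      have h4 := Real.exp_pos (-(t * a))
      have h5 : 0 ≤ t * (b - a) := mul_nonneg ht.le (by linarith)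
      nlinarith
    have h2 : (Real.exp (-(t * a)) - Real.exp (-(t * b))) / t ≤ b - a := by
      rw [div_le_iff₀ ht]; linarith
    have h3 : (Real.exp (-(t * a)) - 1) / t - (Real.exp (-(t * b)) - 1) / t = (Real.exp (-(t * a)) - Real.exp (-(t * b))) / t := by ring
    linarith
  have h0 : ∀ n, 0 ≤ (Pool.Agent.H716R3.symT t n - 1) / t + lam n := by
    intro n
    have := key 0 (lam n) le_rfl (lam_pos n).le
    simpa [Pool.Agent.H716R3.symT] using this
  have h1 : (Pool.Agent.H716R3.symT t 0 - 1) / t + lam 0 ≤ t := by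
    unfold Pool.Agent.H716R3.symT
    rw [lam_zero, mul_one]
    have h2 : Real.exp (-t) ≤ 1 - t + t * t := by
      have h3 := Real.add_one_le_exp t
      have h4 : Real.exp (-t) ≤ 1 / (1 + t) := by
        rw [Real.exp_neg, ← one_div]
        gcongr
        linarith
      refine h4.trans ?_
      rw [div_le_iff₀ (by linarith)]
      nlinarith [pow_pos ht 3]
    have h3 : (Real.exp (-t) - 1) / t ≤ -1 + t := by
      rw [div_le_iff₀ ht]; nlinarith
    linarith
  have h2 : ∀ n, (Pool.Agent.H716R3.symT t (n + 1) - 1) / t + lam (n + 1) ≤ (Pool.Agent.H716R3.symT t n - 1) / t + lam n := fun n =>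
    key _ _ (lam_pos _).le (lam_anti n)
  have h3 : ∀ n, (Pool.Agent.H716R3.symT t n - 1) / t + lam n ≤ t := by
    intro n
    induction n with
    | zero => exact h1
    | succ n ih => exact (h2 n).trans ih
  refine BV.of_dom (fun n => ?_) (fun n => -((Pool.Agent.H716R3.symT t n - 1) / t + lam n)) (fun n => ?_) (fun n => ?_)
  · rw [Complex.norm_real, Real.norm_of_nonneg (h0 n)]
    exact h3 n
  · rw [← Complex.ofReal_sub, Complex.norm_real, Real.norm_eq_abs, abs_of_nonpos (by linarith [h2 n])]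
    linarith
  · linarith [h0 n, h1]

/-- symbol of the resolvent -/
def symR (z : ℂ) (n : ℕ) : ℂ := (z - lam n)⁻¹

lemma BV.symR {z : ℂ} {c : ℝ} (hc : 0 < c) (hz : z ≠ 0) (h : ∀ s : ℝ, 0 ≤ s → c * (‖z‖ + s) ≤ ‖z - s‖) :
    BV (symR z) (c⁻¹ * ‖z‖⁻¹) ((c ^ 2)⁻¹ * ‖z‖⁻¹) := by
  have hz0 : 0 < ‖z‖ := norm_pos_iff.2 hz
  have hpos : ∀ n, 0 < ‖z‖ + lam n := fun n => by linarith [lam_pos n]
  have hne : ∀ n, 0 < ‖z - (lam n : ℂ)‖ := fun n => lt_of_lt_of_le (mul_pos hc (hpos n)) (h _ (lam_pos n).le)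
  refine BV.of_dom (fun n => ?_) (fun n => (c ^ 2)⁻¹ * (‖z‖ + lam n)⁻¹) (fun n => ?_) (fun n => ?_)
  · unfold Pool.Agent.H716R3.symR
    rw [norm_inv, ← mul_inv]
    refine inv_anti₀ (by positivity) ?_
    refine le_trans ?_ (h _ (lam_pos n).le)
    have := (lam_pos n).le
    gcongr
    linarith
  · unfold Pool.Agent.H716R3.symR
    have e : (z - (lam (n + 1) : ℂ))⁻¹ - (z - (lam n : ℂ))⁻¹ = ((lam (n + 1) - lam n : ℝ) : ℂ) / ((z - (lam (n + 1) : ℂ)) * (z - (lam n : ℂ))) := by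
      have h1 : z - (lam (n + 1) : ℂ) ≠ 0 := norm_pos_iff.1 (hne _)
      have h2 : z - (lam n : ℂ) ≠ 0 := norm_pos_iff.1 (hne _)
      push_cast
      field_simp
      ring
    rw [e, norm_div, norm_mul, Complex.norm_real, Real.norm_eq_abs, abs_of_nonpos (by linarith [lam_anti n])]
    have e2 : (c ^ 2)⁻¹ * (‖z‖ + lam (n + 1))⁻¹ - (c ^ 2)⁻¹ * (‖z‖ + lam n)⁻¹ =
        (-(lam (n + 1) - lam n)) / ((c * (‖z‖ + lam (n + 1))) * (c * (‖z‖ + lam n))) := by
      have := (hpos n).ne'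
      have := (hpos (n + 1)).ne'
      field_simp
      ring
    rw [e2]
    have h3 : 0 ≤ -(lam (n + 1) - lam n) := by linarith [lam_anti n]
    have h4 := hpos n
    have h5 := hpos (n + 1)
    have h6 := h _ (lam_pos n).le
    have h7 := h _ (lam_pos (n + 1)).le
    gcongr
  · have h1 : (‖z‖ + lam n)⁻¹ ≤ ‖z‖⁻¹ := inv_anti₀ hz0 (by linarith [lam_pos n])
    have h2 : 0 ≤ (c ^ 2)⁻¹ * (‖z‖ + lam 0)⁻¹ := mul_nonneg (by positivity) (inv_nonneg.2 (hpos 0).le)
    have h3 : (c ^ 2)⁻¹ * (‖z‖ + lam n)⁻¹ ≤ (c ^ 2)⁻¹ * ‖z‖⁻¹ := by gcongr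
    linarith

/-- distance from a point to the positive half line -/
lemma dist_half (z : ℂ) {κ : ℝ} (hκ1 : -1 ≤ κ) (hre : z.re ≤ κ * ‖z‖) {s : ℝ} (hs : 0 ≤ s) :
    (1 - κ) / 2 * (‖z‖ + s) ^ 2 ≤ ‖z - s‖ ^ 2 := by
  have h1 : ‖z - s‖ ^ 2 = ‖z‖ ^ 2 - 2 * s * z.re + s ^ 2 := by
    rw [← Complex.normSq_eq_norm_sq, ← Complex.normSq_eq_norm_sq, Complex.normSq_apply, Complex.normSq_apply]
    simp
    ring
  rw [h1]
  have h2 : s * z.re ≤ s * (κ * ‖z‖) := mul_le_mul_of_nonneg_left hre hs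
  nlinarith [mul_nonneg (by linarith : 0 ≤ 1 + κ) (sq_nonneg (‖z‖ - s))]

end

end Pool.Agent.H716R3
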