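import Pool.Agent.H716R3.Cau
import Pool.Agent.H716R3.Sym

/-! Cauchy integral formula on sectors: test functions and the formula. -/

open MeasureTheory Filter Topology Set

namespace Pool.Agent.H716R3

noncomputable section

lemma exists_c' {σ : ℝ} (h0 : 0 ≤ σ) (h1 : σ < Real.pi) : ∃ c : ℝ, 0 < c ∧ ∀ z ∈ sector σ,
    ∀ s : ℝ, 0 ≤ s → c * (‖z‖ + s) ≤ ‖z + s‖ := by
  have hcos : -1 < Real.cos σ := by
    rw [← Real.cos_pi]
    exact Real.cos_lt_cos_of_nonneg_of_le_pi h0 le_rfl h1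
  refine ⟨Real.sqrt ((1 - (-Real.cos σ)) / 2), Real.sqrt_pos.2 (by linarith), fun z hz s hs => ?_⟩
  have h2 : (-z).re ≤ (-Real.cos σ) * ‖-z‖ := by
    rw [Complex.neg_re, norm_neg, ← Complex.norm_mul_cos_arg z, neg_mul, mul_comm, ← Real.cos_abs (Complex.arg z)]
    rw [neg_le_neg_iff]
    gcongr
    exact Real.cos_le_cos_of_nonneg_of_le_pi (abs_nonneg _) h1.le hz.2.le
  have h3 := dist_half (-z) (by linarith [Real.cos_le_one σ]) h2 hs
  have e : ‖-z - s‖ = ‖z + s‖ := by rw [← norm_neg]; congr 1; ring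
  rw [e, norm_neg] at h3
  refine abs_le_of_sq_le_sq' ?_ (norm_nonneg _) |>.2
  rw [mul_pow, Real.sq_sqrt (by linarith)]
  exact h3

lemma slit_of_sector {σ : ℝ} (hσ : σ ≤ Real.pi) {z : ℂ} (hz : z ∈ sector σ) : z ∈ Complex.slitPlane := by
  rw [Complex.mem_slitPlane_iff_arg]
  refine ⟨?_, hz.1⟩
  intro h
  have := hz.2
  rw [h, abs_of_pos Real.pi_pos] at this
  linarith

/-- the test functions `z / ((z + a)(1 + b z))` -/
def qf (a b : ℝ) (z : ℂ) : ℂ := z / ((z + a) * (1 + b * z))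

lemma qf_bounds {σ : ℝ} (h1 : σ < Real.pi) {c : ℝ} (hc : 0 < c)
    (hcz : ∀ z ∈ sector σ, ∀ s : ℝ, 0 ≤ s → c * (‖z‖ + s) ≤ ‖z + s‖) {a b : ℝ} (ha : 0 < a) (hb : 0 < b) {z : ℂ} (hz : z ∈ sector σ) :
    z + a ≠ 0 ∧ 1 + b * z ≠ 0 ∧ ‖qf a b z‖ ≤ (c ^ 2)⁻¹ * (‖z‖ / ((‖z‖ + a) * (1 + b * ‖z‖))) := by
  have hz0 : 0 < ‖z‖ := norm_pos_iff.2 hz.1
  have h2 := hcz z hz a ha.le
  have h3 := hcz z hz b⁻¹ (inv_nonneg.2 hb.le)
  have h4 : ‖1 + b * z‖ = b * ‖z + (b⁻¹ : ℝ)‖ := by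
    have hb' : (b : ℂ) ≠ 0 := by exact_mod_cast hb.ne'
    have e : 1 + b * z = b * (z + (b⁻¹ : ℝ)) := by
      push_cast
      field_simp
      ring
    rw [e, norm_mul, Complex.norm_real, Real.norm_of_nonneg hb.le]
  have h5 : c * (1 + b * ‖z‖) ≤ ‖1 + b * z‖ := by
    rw [h4]
    calc c * (1 + b * ‖z‖) = b * (c * (‖z‖ + b⁻¹)) := by field_simp; ring
      _ ≤ _ := by gcongr
  have h6 : 0 < c * (‖z‖ + a) := by positivity
  have h7 : 0 < c * (1 + b * ‖z‖) := by positivity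
  refine ⟨norm_pos_iff.1 (h6.trans_le h2), norm_pos_iff.1 (h7.trans_le h5), ?_⟩
  unfold qf
  rw [norm_div, norm_mul]
  calc ‖z‖ / (‖z + a‖ * ‖1 + b * z‖) ≤ ‖z‖ / ((c * (‖z‖ + a)) * (c * (1 + b * ‖z‖))) := by gcongr
    _ = _ := by field_simp

lemma qf_diff {σ : ℝ} (h0 : 0 ≤ σ) (h1 : σ < Real.pi) {a b : ℝ} (ha : 0 < a) (hb : 0 < b) : DifferentiableOn ℂ (qf a b) (sector σ) := by
  obtain ⟨c, hc, hcz⟩ := exists_c' h0 h1
  intro z hz
  obtain ⟨h2, h3, -⟩ := qf_bounds h1 hc hcz ha hb hz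
  unfold qf
  refine DifferentiableAt.differentiableWithinAt ?_
  refine DifferentiableAt.div (by fun_prop) (by fun_prop) (mul_ne_zero h2 h3)

lemma imPow_norm (s : ℝ) {z : ℂ} (hz : z ≠ 0) : ‖imPow s z‖ ≤ Real.exp (|s| * Real.pi) := by
  unfold imPow
  rw [Complex.norm_exp, Real.exp_le_exp]
  have h1 : (Complex.I * s * Complex.log z).re = -(s * Complex.arg z) := by
    simp [Complex.log_im]
  rw [h1]
  refine (neg_le_abs _).trans ?_
  rw [abs_mul]
  gcongr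
  exact Complex.abs_arg_le_pi z

lemma imPow_diff {σ : ℝ} (hσ : σ ≤ Real.pi) (s : ℝ) : DifferentiableOn ℂ (imPow s) (sector σ) := by
  intro z hz
  refine DifferentiableAt.differentiableWithinAt ?_
  unfold imPow
  have := Complex.differentiableAt_log (slit_of_sector hσ hz)
  fun_prop

/-- `q_{a,b} z^{is}` belongs to `H_0^∞` -/
lemma isH0 {σ : ℝ} (h0 : 0 ≤ σ) (h1 : σ < Real.pi) {a b : ℝ} (ha : 0 < a) (hb : 0 < b) (s : ℝ) :
    IsH0Inf σ (fun z => qf a b z * imPow s z) := by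
  refine ⟨(qf_diff h0 h1 ha hb).mul (imPow_diff h1.le s), ?_⟩
  obtain ⟨c, hc, hcz⟩ := exists_c' h0 h1
  refine ⟨(c ^ 2)⁻¹ * (1 / (min 1 a * min 1 b)) * Real.exp (|s| * Real.pi), 1, by positivity, one_pos, fun z hz => ?_⟩
  obtain ⟨-, -, h2⟩ := qf_bounds h1 hc hcz ha hb hz
  have hz0 : 0 < ‖z‖ := norm_pos_iff.2 hz.1
  rw [norm_mul]
  have h3 : ‖z‖ / ((‖z‖ + a) * (1 + b * ‖z‖)) ≤ 1 / (min 1 a * min 1 b) * (‖z‖ ^ (1 : ℝ) * (1 + ‖z‖) ^ (-(2 * 1) : ℝ)) := by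
    rw [Real.rpow_one, Real.rpow_neg (by positivity), show (2 * 1 : ℝ) = (2 : ℕ) by norm_num, Real.rpow_natCast]
    have h4 : min 1 a * (1 + ‖z‖) ≤ ‖z‖ + a := by
      have := min_le_left 1 a
      have := min_le_right 1 a
      nlinarith
    have h5 : min 1 b * (1 + ‖z‖) ≤ 1 + b * ‖z‖ := by
      have := min_le_left 1 b
      have := min_le_right 1 b
      nlinarith
    have h6 : 0 < min 1 a := by positivity
    have h7 : 0 < min 1 b := by positivity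
    calc ‖z‖ / ((‖z‖ + a) * (1 + b * ‖z‖)) ≤ ‖z‖ / ((min 1 a * (1 + ‖z‖)) * (min 1 b * (1 + ‖z‖))) := by gcongr
      _ = _ := by field_simp
  calc ‖qf a b z‖ * ‖imPow s z‖ ≤ ((c ^ 2)⁻¹ * (1 / (min 1 a * min 1 b) * (‖z‖ ^ (1 : ℝ) * (1 + ‖z‖) ^ (-(2 * 1) : ℝ)))) *
        Real.exp (|s| * Real.pi) := by
        refine mul_le_mul (h2.trans (by gcongr)) (imPow_norm s hz.1) (norm_nonneg _) (by positivity)
    _ = _ := by ring

lemma imPow_zero (z : ℂ) : imPow 0 z = 1 := by simp [imPow]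

lemma isH0' {σ : ℝ} (h0 : 0 ≤ σ) (h1 : σ < Real.pi) {a b : ℝ} (ha : 0 < a) (hb : 0 < b) : IsH0Inf σ (qf a b) := by
  have := isH0 h0 h1 ha hb 0
  simpa [imPow_zero] using this

lemma H0_bound {σ : ℝ} {f : ℂ → ℂ} (hf : IsH0Inf σ f) : ∃ C ε : ℝ, 0 < C ∧ 0 < ε ∧ ∀ z ∈ sector σ,
    ‖f z‖ ≤ C * Real.exp (-(ε * |Real.log ‖z‖|)) := by
  obtain ⟨-, C, ε, hC, hε, hb⟩ := hf
  refine ⟨C, ε, hC, hε, fun z hz => (hb z hz).trans ?_⟩
  have hz0 : 0 < ‖z‖ := norm_pos_iff.2 hz.1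
  rw [mul_assoc]
  gcongr
  rcases le_total ‖z‖ 1 with h | h
  · rw [abs_of_nonpos (Real.log_nonpos hz0.le h)]
    have h1 : (1 + ‖z‖) ^ (-(2 * ε)) ≤ 1 := Real.rpow_le_one_of_one_le_of_nonpos (by linarith) (by linarith)
    have h2 : ‖z‖ ^ ε = Real.exp (-(ε * -Real.log ‖z‖)) := by
      rw [Real.rpow_def_of_pos hz0]
      congr 1
      ring
    rw [← h2]
    have := Real.rpow_nonneg hz0.le ε
    nlinarith
  · rw [abs_of_nonneg (Real.log_nonneg h)]
    have h1 : (1 + ‖z‖) ^ (-(2 * ε)) ≤ ‖z‖ ^ (-(2 * ε)) := by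
      rw [Real.rpow_neg (by positivity), Real.rpow_neg hz0.le]
      gcongr
      linarith
    have h2 : ‖z‖ ^ ε * ‖z‖ ^ (-(2 * ε)) = Real.exp (-(ε * Real.log ‖z‖)) := by
      rw [← Real.rpow_add hz0, Real.rpow_def_of_pos hz0]
      congr 1
      ring
    rw [← h2]
    gcongr

/-- the ray integral in the coordinate `r` -/
def RIr (h : ℂ → ℂ) (θ : ℝ) : ℂ := ∫ r in Ioi (0 : ℝ), h (r * Complex.exp (θ * Complex.I)) * Complex.exp (θ * Complex.I)

lemma RIr_eq (h : ℂ → ℂ) (θ : ℝ) :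
    RIr h θ = ∫ x : ℝ, h (Complex.exp (x + θ * Complex.I)) * Complex.exp (x + θ * Complex.I) := by
  unfold RIr
  rw [integral_Ioi_exp]
  congr 1
  funext x
  rw [ray_exp, Complex.real_smul, Complex.exp_add, Complex.ofReal_exp]
  ring

lemma integrableOn_Ioi_exp {E : Type*} [NormedAddCommGroup E] [NormedSpace ℝ E] (g : ℝ → E) :
    IntegrableOn g (Ioi (0 : ℝ)) ↔ Integrable (fun x : ℝ => Real.exp x • g (Real.exp x)) := by
  have h1 := integrableOn_image_iff_integrableOn_abs_deriv_smul (s := univ) (f := Real.exp) (f' := Real.exp) MeasurableSet.univ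
    (fun x _ => (Real.hasDerivAt_exp x).hasDerivWithinAt) Real.exp_injective.injOn g
  rw [image_univ, Real.range_exp] at h1
  rw [h1, integrableOn_univ]
  simp only [Real.abs_exp]

lemma ray_integrable {σ θ : ℝ} (h0 : 0 < |θ|) (h1 : |θ| < σ) (h2 : σ ≤ Real.pi) {f : ℂ → ℂ} (hf : IsH0Inf σ f) {μ : ℝ} (hμ : 0 ≤ μ) :
    IntegrableOn (fun r : ℝ => (fun z => f z * (z - μ)⁻¹) (r * Complex.exp (θ * Complex.I)) * Complex.exp (θ * Complex.I)) (Ioi 0) := by
  obtain ⟨C, ε, hC, hε, hb⟩ := H0_bound hf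
  rw [integrableOn_Ioi_exp]
  have hcos : Real.cos θ < 1 := by
    rw [← Real.cos_zero, ← Real.cos_abs θ]
    exact Real.cos_lt_cos_of_nonneg_of_le_pi le_rfl (h1.le.trans h2) h0
  set c : ℝ := Real.sqrt ((1 - Real.cos θ) / 2) with hc
  have hc0 : 0 < c := Real.sqrt_pos.2 (by linarith)
  have habs := abs_lt.1 (h1.trans_le h2)
  have hz : ∀ x : ℝ, c * (‖Complex.exp (x + θ * Complex.I)‖ + μ) ≤ ‖Complex.exp (x + θ * Complex.I) - μ‖ := by
    intro x
    set z := Complex.exp (x + θ * Complex.I) with hzd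
    have harg : Complex.arg z = θ := by
      rw [hzd, arg_exp' (by simpa using habs.1) (by simpa using habs.2.le)]
      simp
    have h3 : z.re ≤ Real.cos θ * ‖z‖ := by
      rw [← Complex.norm_mul_cos_arg z, harg, mul_comm]
    have h4 := dist_half z (Real.neg_one_le_cos θ) h3 hμ
    refine abs_le_of_sq_le_sq' ?_ (norm_nonneg _) |>.2
    rw [mul_pow, hc, Real.sq_sqrt (by linarith)]
    exact h4
  have hne : ∀ x : ℝ, Complex.exp (x + θ * Complex.I) - μ ≠ 0 := fun x => by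
    have h3 : 0 < ‖Complex.exp (x + θ * Complex.I)‖ := norm_pos_iff.2 (Complex.exp_ne_zero _)
    have h4 : 0 < c * (‖Complex.exp (x + θ * Complex.I)‖ + μ) := by positivity
    exact norm_pos_iff.1 (h4.trans_le (hz x))
  have e : (fun x : ℝ => Real.exp x • ((fun z => f z * (z - μ)⁻¹) ((Real.exp x : ℝ) * Complex.exp (θ * Complex.I)) * Complex.exp (θ * Complex.I))) =
      fun x : ℝ => f (Complex.exp (x + θ * Complex.I)) * (Complex.exp (x + θ * Complex.I) - μ)⁻¹ * Complex.exp (x + θ * Complex.I) := by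
    funext x
    simp only [ray_exp, Complex.real_smul]
    rw [Complex.exp_add, Complex.ofReal_exp]
    ring
  rw [e]
  have hcont : Continuous fun x : ℝ => f (Complex.exp (x + θ * Complex.I)) * (Complex.exp (x + θ * Complex.I) - μ)⁻¹ * Complex.exp (x + θ * Complex.I) := by
    refine Continuous.mul (Continuous.mul ?_ ?_) (by fun_prop)
    · exact hf.1.continuousOn.comp_continuous (by fun_prop) fun x => exp_mem_sector h2 (by simpa using h1)
    · exact Continuous.inv₀ (by fun_prop) hne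
  refine ((integrable_exp_abs hε).const_mul (C * c⁻¹)).mono' hcont.aestronglyMeasurable (Eventually.of_forall fun x => ?_)
  have h3 := hb (Complex.exp (x + θ * Complex.I)) (exp_mem_sector h2 (by simpa using h1))
  have h4 : ‖Complex.exp (x + θ * Complex.I)‖ = Real.exp x := by
    rw [Complex.norm_exp]; simp
  rw [h4, Real.log_exp] at h3
  rw [norm_mul, norm_mul, norm_inv]
  have h5 := hz x
  rw [h4] at h5 ⊢
  have h6 : 0 < Real.exp x := Real.exp_pos x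
  have h7 : ‖Complex.exp (x + θ * Complex.I) - μ‖⁻¹ * Real.exp x ≤ c⁻¹ := by
    calc ‖Complex.exp (x + θ * Complex.I) - μ‖⁻¹ * Real.exp x ≤ (c * Real.exp x)⁻¹ * Real.exp x := by
          gcongr
          refine le_trans ?_ h5
          gcongr
          linarith
      _ = c⁻¹ := by field_simp
  calc ‖f (Complex.exp (x + θ * Complex.I))‖ * ‖Complex.exp (x + θ * Complex.I) - μ‖⁻¹ * Real.exp x
      = ‖f (Complex.exp (x + θ * Complex.I))‖ * (‖Complex.exp (x + θ * Complex.I) - μ‖⁻¹ * Real.exp x) := by ring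
    _ ≤ (C * Real.exp (-(ε * |x|))) * c⁻¹ := by gcongr
    _ = _ := by ring

end

end Pool.Agent.H716R3
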