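import Pool.Agent.H716R3.Cau2

/-! Cauchy integral formula on sectors. -/

open MeasureTheory Filter Topology Set

namespace Pool.Agent.H716R3

noncomputable section

lemma pos_mem_sector {σ μ : ℝ} (hσ : 0 < σ) (hμ : 0 < μ) : (μ : ℂ) ∈ sector σ := by
  refine ⟨by exact_mod_cast hμ.ne', ?_⟩
  rw [Complex.arg_ofReal_of_nonneg hμ.le, abs_zero]
  exact hσ

lemma dec_dslope {σ : ℝ} (hσ0 : 0 < σ) (hσ : σ ≤ Real.pi) {f : ℂ → ℂ} (hf : IsH0Inf σ f) {μ : ℝ} (hμ : 0 < μ) (h0 : f μ = 0) :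
    Dec σ (dslope f μ) := by
  have hopen := isOpen_sector hσ
  have hmem := pos_mem_sector hσ0 hμ
  have hd : DifferentiableOn ℂ (dslope f μ) (sector σ) :=
    (Complex.differentiableOn_dslope (hopen.mem_nhds hmem)).2 hf.1
  refine ⟨hd, ?_⟩
  obtain ⟨C, ε, hC, hε, hb⟩ := H0_bound hf
  obtain ⟨r, hr, hball⟩ := Metric.nhds_basis_closedBall.mem_iff.1 (hopen.mem_nhds hmem)
  have hcomp : IsCompact (Metric.closedBall (μ : ℂ) r) := isCompact_closedBall _ _
  have hcont : ContinuousOn (fun z : ℂ => ‖dslope f μ z‖ * ‖z‖ * Real.exp (ε * |Real.log ‖z‖|)) (Metric.closedBall (μ : ℂ) r) := by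
    refine ContinuousOn.mul (ContinuousOn.mul (hd.continuousOn.mono hball).norm continuous_norm.continuousOn) ?_
    refine Real.continuous_exp.comp_continuousOn (continuousOn_const.mul (continuous_abs.comp_continuousOn ?_))
    exact ContinuousOn.log continuous_norm.continuousOn fun z hz => (norm_pos_iff.2 (hball hz).1).ne'
  obtain ⟨B, hB⟩ := hcomp.exists_bound_of_continuousOn hcont
  refine ⟨max B (C * (1 + μ / r)), ε, hε, fun z hz => ?_⟩
  have hz0 : 0 < ‖z‖ := norm_pos_iff.2 hz.1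
  have hexp : 0 < Real.exp (-(ε * |Real.log ‖z‖|)) := Real.exp_pos _
  by_cases hzb : z ∈ Metric.closedBall (μ : ℂ) r
  · have h1 := hB z hzb
    rw [Real.norm_of_nonneg (by positivity)] at h1
    have h2 : ‖dslope f μ z‖ * ‖z‖ = (‖dslope f μ z‖ * ‖z‖ * Real.exp (ε * |Real.log ‖z‖|)) * Real.exp (-(ε * |Real.log ‖z‖|)) := by
      rw [mul_assoc _ (Real.exp _), ← Real.exp_add, add_neg_cancel, Real.exp_zero, mul_one]
    rw [h2]
    gcongr
    exact h1.trans (le_max_left _ _)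
  · have hzr : r < ‖z - μ‖ := by
      rw [Metric.mem_closedBall, dist_eq_norm, not_le] at hzb
      exact hzb
    have hne : z ≠ μ := by
      rintro rfl
      simp at hzr
      linarith
    rw [dslope_of_ne _ hne, slope_def_field, h0, sub_zero, norm_div]
    have h1 : ‖z‖ / ‖z - μ‖ ≤ 1 + μ / r := by
      have h2 : 0 < ‖z - μ‖ := hr.trans hzr
      have h3 : ‖z‖ ≤ ‖z - μ‖ + μ := by
        calc ‖z‖ = ‖(z - μ) + μ‖ := by congr 1; ring
          _ ≤ _ := (norm_add_le _ _).trans (by rw [Complex.norm_real, Real.norm_of_nonneg hμ.le])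
      rw [div_le_iff₀ h2]
      have h4 : μ ≤ μ / r * ‖z - μ‖ := by
        rw [div_mul_eq_mul_div, le_div_iff₀ hr]
        gcongr
      linarith
    calc ‖f z‖ / ‖z - μ‖ * ‖z‖ = ‖f z‖ * (‖z‖ / ‖z - μ‖) := by ring
      _ ≤ (C * Real.exp (-(ε * |Real.log ‖z‖|))) * (1 + μ / r) := by
          gcongr
          exact hb z hz
      _ = (C * (1 + μ / r)) * Real.exp (-(ε * |Real.log ‖z‖|)) := by ring
      _ ≤ _ := by
          gcongr
          exact le_max_right _ _

/-- the case of a function vanishing at `μ` -/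
lemma cauchy_zero {σ θ : ℝ} (h0 : 0 < θ) (h1 : θ < σ) (h2 : σ ≤ Real.pi) {f : ℂ → ℂ} (hf : IsH0Inf σ f) {μ : ℝ} (hμ : 0 < μ)
    (hz : f μ = 0) : RIr (fun z => f z * (z - μ)⁻¹) (-θ) - RIr (fun z => f z * (z - μ)⁻¹) θ = 0 := by
  have hdec := dec_dslope (h0.trans h1) h2 hf hμ hz
  have key : ∀ φ : ℝ, |φ| = θ → RIr (fun z => f z * (z - μ)⁻¹) φ = ∫ x : ℝ, dslope f μ (Complex.exp (x + φ * Complex.I)) * Complex.exp (x + φ * Complex.I) := by
    intro φ hφ
    rw [RIr_eq]
    congr 1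
    funext x
    congr 1
    have hne : Complex.exp (x + φ * Complex.I) ≠ μ := by
      intro h
      have h3 := congrArg Complex.arg h
      have h4 : |φ| < Real.pi := by rw [hφ]; linarith
      obtain ⟨h5, h6⟩ := abs_lt.1 h4
      rw [arg_exp' (by simpa using h5) (by simpa using h6.le), Complex.arg_ofReal_of_nonneg hμ.le] at h3
      simp at h3
      rw [h3, abs_zero] at hφ
      linarith
    rw [dslope_of_ne _ hne, slope_def_field, hz, sub_zero, div_eq_mul_inv]
  rw [key (-θ) (by rw [abs_neg, abs_of_pos h0]), key θ (abs_of_pos h0), sub_eq_zero]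
  exact rot h2 hdec (by rw [abs_neg, abs_of_pos h0]; exact h1) (by rw [abs_of_pos h0]; exact h1)

/-- explicit computation for one function -/
lemma cauchy_qf_ray {θ : ℝ} (h0 : 0 < θ) (h1 : θ < Real.pi) {μ : ℝ} (hμ : 0 < μ) :
    RIr (fun z => qf μ μ⁻¹ z * (z - μ)⁻¹) θ = 1 / 2 - Real.pi / 4 * Complex.I := by
  have hμc : (μ : ℂ) ≠ 0 := by exact_mod_cast hμ.ne'
  set e : ℂ := Complex.exp (θ * Complex.I) with he
  have heim : 0 < e.im := by
    rw [he, Complex.exp_ofReal_mul_I_im]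
    exact Real.sin_pos_of_pos_of_lt_pi h0 h1
  have hne1 : ∀ r : ℝ, 0 ≤ r → (r : ℂ) * e + μ ≠ 0 := by
    intro r hr h
    have h2 := congrArg Complex.im h
    have h3 := congrArg Complex.re h
    simp at h2 h3
    rcases h2 with h2 | h2
    · rw [h2] at h3
      simp at h3
      linarith
    · linarith
  have hne2 : ∀ r : ℝ, 0 ≤ r → (r : ℂ) * e - μ ≠ 0 := by
    intro r hr h
    have h2 := congrArg Complex.im h
    have h3 := congrArg Complex.re h
    simp at h2 h3
    rcases h2 with h2 | h2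
    · rw [h2] at h3
      simp at h3
      linarith
    · linarith
  set u : ℝ → ℂ := fun r => ((r : ℂ) * e - μ) / ((r : ℂ) * e + μ) with hu
  have hslit : ∀ r : ℝ, 0 ≤ r → -Complex.I * u r ∈ Complex.slitPlane := by
    intro r hr
    have h2 := hne1 r hr
    rcases hr.eq_or_lt with h | h
    · subst h
      simp only [hu, Complex.ofReal_zero, zero_mul, zero_sub, zero_add]
      rw [neg_div, div_self hμc]
      simp [Complex.mem_slitPlane_iff]
    · left
      have h3 : (-Complex.I * u r).re = (u r).im := by simp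
      rw [h3]
      simp only [hu]
      rw [Complex.div_im]
      have h4 : 0 < Complex.normSq ((r : ℂ) * e + μ) := Complex.normSq_pos.2 h2
      rw [← sub_div]
      apply div_pos _ h4
      simp
      have : 0 < r * e.im * μ := by positivity
      nlinarith
  set Φ : ℝ → ℂ := fun r => 1 / 4 * Complex.log (-Complex.I * u r) - (μ / 2) / ((r : ℂ) * e + μ) with hΦ
  have hder : ∀ r : ℝ, 0 ≤ r → HasDerivAt Φ (qf μ μ⁻¹ (r * e) * (r * e - μ)⁻¹ * e) r := by
    intro r hr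
    have h2 := hne1 r hr
    have h3 := hne2 r hr
    have hz : HasDerivAt (fun r : ℝ => (r : ℂ) * e) e r := by
      have := (Complex.ofRealCLM.hasDerivAt (x := r)).mul_const e
      simpa using this
    have hzm := hz.sub_const (μ : ℂ)
    have hzp := hz.add_const (μ : ℂ)
    have hu' : HasDerivAt u ((e * ((r : ℂ) * e + μ) - ((r : ℂ) * e - μ) * e) / ((r : ℂ) * e + μ) ^ 2) r := hzm.div hzp h2
    have hlog := (hu'.const_mul (-Complex.I)).clog_real (hslit r hr)
    have hinv := (hzp.inv h2).const_mul ((μ : ℂ) / 2)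
    have h4 := (hlog.const_mul (1 / 4 : ℂ)).sub hinv
    have hune : u r ≠ 0 := div_ne_zero h3 h2
    have h6 : qf μ μ⁻¹ (r * e) * (r * e - μ)⁻¹ * e =
        1 / 4 * (-Complex.I * ((e * (↑r * e + ↑μ) - (↑r * e - ↑μ) * e) / (↑r * e + ↑μ) ^ 2) / (-Complex.I * u r)) -
        ↑μ / 2 * (-e / (↑r * e + ↑μ) ^ 2) := by
      unfold qf
      have h5 : 1 + ((μ⁻¹ : ℝ) : ℂ) * (r * e) = ((r : ℂ) * e + μ) / μ := by
        push_cast
        field_simp
        ring
      rw [h5]
      simp only [hu]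
      have hI := Complex.I_ne_zero
      field_simp
      ring
    rw [h6]
    have h7 : Φ = ((fun y : ℝ => 1 / 4 * Complex.log (-Complex.I * u y)) - fun y : ℝ => ↑μ / 2 * (fun x : ℝ => (x : ℂ) * e + ↑μ)⁻¹ y) := by
      funext y
      simp only [hΦ, Pi.sub_apply, Pi.inv_apply]
      rw [div_eq_mul_inv (_ / 2)]
    rw [h7]
    exact h4
  have hlim : Tendsto Φ atTop (𝓝 (1 / 4 * Complex.log (-Complex.I) - 0)) := by
    have h2 : Tendsto (fun r : ℝ => ((r : ℂ) * e + μ)⁻¹) atTop (𝓝 0) := by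
      refine tendsto_inv₀_cobounded.comp ?_
      rw [← tendsto_norm_atTop_iff_cobounded]
      have h3 : ∀ r : ℝ, 0 ≤ r → r - μ ≤ ‖(r : ℂ) * e + μ‖ := by
        intro r hr
        have h4 : ‖(r : ℂ) * e‖ = r := by
          rw [he, norm_mul, Complex.norm_exp_ofReal_mul_I, mul_one, Complex.norm_real, Real.norm_of_nonneg hr]
        have h5 := norm_sub_le ((r : ℂ) * e + μ) μ
        rw [add_sub_cancel_right, h4, Complex.norm_real, Real.norm_of_nonneg hμ.le] at h5
        linarith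
      refine tendsto_atTop_mono' atTop ?_ (tendsto_atTop_add_const_right atTop (-μ) tendsto_id)
      filter_upwards [eventually_ge_atTop 0] with r hr
      have := h3 r hr
      simpa [sub_eq_add_neg] using this
    have h3 : Tendsto u atTop (𝓝 1) := by
      have h4 : Tendsto (fun r : ℝ => 1 - 2 * μ * ((r : ℂ) * e + μ)⁻¹) atTop (𝓝 (1 - 2 * μ * 0)) := (h2.const_mul (2 * (μ : ℂ))).const_sub 1
      rw [mul_zero, sub_zero] at h4
      refine h4.congr' ?_
      filter_upwards [eventually_ge_atTop 0] with r hr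
      have := hne1 r hr
      simp only [hu]
      field_simp
      ring
    have h4 : Tendsto (fun r => Complex.log (-Complex.I * u r)) atTop (𝓝 (Complex.log (-Complex.I))) := by
      have h5 := h3.const_mul (-Complex.I)
      rw [mul_one] at h5
      exact (_root_.continuousAt_clog (by simp [Complex.mem_slitPlane_iff])).tendsto.comp h5
    have h5 := (h4.const_mul (1 / 4 : ℂ)).sub (h2.const_mul ((μ : ℂ) / 2))
    rw [mul_zero] at h5
    exact h5
  have hint : IntegrableOn (fun r : ℝ => qf μ μ⁻¹ (r * e) * (r * e - μ)⁻¹ * e) (Ioi 0) := by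
    have h2 := isH0' (σ := (θ + Real.pi) / 2) (by linarith) (by linarith) hμ (inv_pos.2 hμ)
    have h3 := ray_integrable (θ := θ) (by rwa [abs_of_pos h0]) (by rw [abs_of_pos h0]; linarith) (by linarith) h2 hμ.le
    exact h3
  have h2 := integral_Ioi_of_hasDerivAt_of_tendsto (hder 0 le_rfl).continuousAt.continuousWithinAt
    (fun r hr => hder r (le_of_lt hr)) hint hlim
  unfold RIr
  rw [h2]
  simp only [hΦ, hu, Complex.ofReal_zero, zero_mul, zero_sub, zero_add]
  rw [neg_div, div_self hμc, mul_neg, mul_one, neg_neg, Complex.log_I, Complex.log_neg_I]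
  field_simp
  ring

lemma cauchy_qf {θ : ℝ} (h0 : 0 < θ) (h1 : θ < Real.pi) {μ : ℝ} (hμ : 0 < μ) :
    RIr (fun z => qf μ μ⁻¹ z * (z - μ)⁻¹) (-θ) - RIr (fun z => qf μ μ⁻¹ z * (z - μ)⁻¹) θ = 2 * Real.pi * Complex.I * qf μ μ⁻¹ μ := by
  have h2 : RIr (fun z => qf μ μ⁻¹ z * (z - μ)⁻¹) (-θ) = (starRingEnd ℂ) (RIr (fun z => qf μ μ⁻¹ z * (z - μ)⁻¹) θ) := by
    unfold RIr
    rw [← integral_conj]
    congr 1
    funext r
    have h3 : Complex.exp ((-θ : ℝ) * Complex.I) = (starRingEnd ℂ) (Complex.exp (θ * Complex.I)) := by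
      rw [← Complex.exp_conj]
      simp
    simp only [qf, h3, map_mul, map_div₀, map_inv₀, map_add, map_sub, map_one, Complex.conj_ofReal]
  rw [h2, cauchy_qf_ray h0 h1 hμ]
  have hμc : (μ : ℂ) ≠ 0 := by exact_mod_cast hμ.ne'
  have h4 : qf μ μ⁻¹ μ = 1 / 4 := by
    unfold qf
    push_cast
    field_simp
    norm_num
  rw [h4]
  simp only [map_sub, map_div₀, map_one, map_mul, Complex.conj_ofReal, Complex.conj_I]
  have e2 : (starRingEnd ℂ) 2 = 2 := Complex.conj_ofNat 2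
  have e4 : (starRingEnd ℂ) 4 = 4 := Complex.conj_ofNat 4
  rw [e2, e4]
  ring

/-- **Cauchy's integral formula for sectors.** -/
theorem cauchy {σ θ : ℝ} (h0 : 0 < θ) (h1 : θ < σ) (h2 : σ < Real.pi) {f : ℂ → ℂ} (hf : IsH0Inf σ f) {μ : ℝ} (hμ : 0 < μ) :
    RIr (fun z => f z * (z - μ)⁻¹) (-θ) - RIr (fun z => f z * (z - μ)⁻¹) θ = 2 * Real.pi * Complex.I * f μ := by
  have hμc : (μ : ℂ) ≠ 0 := by exact_mod_cast hμ.ne'
  have hq4 : qf μ μ⁻¹ μ = 1 / 4 := by
    unfold qf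
    push_cast
    field_simp
    norm_num
  have hq := isH0' (σ := σ) (by linarith) h2 hμ (inv_pos.2 hμ)
  set c : ℂ := 4 * f μ with hc
  set g : ℂ → ℂ := fun z => f z - c * qf μ μ⁻¹ z with hg
  have hgH : IsH0Inf σ g := by
    obtain ⟨C, ε, hC, hε, hb⟩ := hf.2
    obtain ⟨C', ε', hC', hε', hb'⟩ := hq.2
    refine ⟨hf.1.sub (hq.1.const_mul c), C + ‖c‖ * C', min ε ε', by positivity, by positivity, fun z hz => ?_⟩
    have hz0 : 0 < ‖z‖ := norm_pos_iff.2 hz.1
    have key : ∀ δ δ' : ℝ, 0 < δ' → δ' ≤ δ → ‖z‖ ^ δ * (1 + ‖z‖) ^ (-(2 * δ)) ≤ ‖z‖ ^ δ' * (1 + ‖z‖) ^ (-(2 * δ')) := by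
      intro δ δ' h3 h4
      have h5 : ∀ δ : ℝ, ‖z‖ ^ δ * (1 + ‖z‖) ^ (-(2 * δ)) = (‖z‖ / (1 + ‖z‖) ^ (2 : ℕ)) ^ δ := by
        intro δ
        rw [Real.div_rpow hz0.le (by positivity), ← Real.rpow_natCast (1 + ‖z‖) 2, ← Real.rpow_mul (by positivity), Real.rpow_neg (by positivity)]
        push_cast
        rw [div_eq_mul_inv]
      rw [h5, h5]
      refine Real.rpow_le_rpow_of_exponent_ge (by positivity) ?_ h4
      rw [div_le_one (by positivity)]
      nlinarith
    calc ‖g z‖ ≤ ‖f z‖ + ‖c * qf μ μ⁻¹ z‖ := norm_sub_le _ _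
      _ ≤ C * ‖z‖ ^ ε * (1 + ‖z‖) ^ (-(2 * ε)) + ‖c‖ * (C' * ‖z‖ ^ ε' * (1 + ‖z‖) ^ (-(2 * ε'))) := by
          rw [norm_mul]
          gcongr
          · exact hb z hz
          · exact hb' z hz
      _ = C * (‖z‖ ^ ε * (1 + ‖z‖) ^ (-(2 * ε))) + ‖c‖ * C' * (‖z‖ ^ ε' * (1 + ‖z‖) ^ (-(2 * ε'))) := by ring
      _ ≤ C * (‖z‖ ^ min ε ε' * (1 + ‖z‖) ^ (-(2 * min ε ε'))) + ‖c‖ * C' * (‖z‖ ^ min ε ε' * (1 + ‖z‖) ^ (-(2 * min ε ε'))) := by
          gcongr C * ?_ + ‖c‖ * C' * ?_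
          · exact key _ _ (by positivity) (min_le_left _ _)
          · exact key _ _ (by positivity) (min_le_right _ _)
      _ = _ := by ring
  have hg0 : g μ = 0 := by
    simp only [hg, hq4, hc]
    ring
  have h3 := cauchy_zero h0 h1 h2.le hgH hμ hg0
  have h4 := cauchy_qf h0 (h1.trans h2) hμ
  have hsplit : ∀ φ : ℝ, |φ| = θ → RIr (fun z => f z * (z - μ)⁻¹) φ =
      RIr (fun z => g z * (z - μ)⁻¹) φ + c * RIr (fun z => qf μ μ⁻¹ z * (z - μ)⁻¹) φ := by
    intro φ hφ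
    have i1 := ray_integrable (θ := φ) (by rw [hφ]; exact h0) (by rw [hφ]; exact h1) h2.le hgH hμ.le
    have i2 := ray_integrable (θ := φ) (by rw [hφ]; exact h0) (by rw [hφ]; exact h1) h2.le hq hμ.le
    unfold RIr
    rw [← integral_const_mul, ← integral_add i1 (i2.const_mul c)]
    congr 1
    funext r
    simp only [hg]
    ring
  rw [hsplit (-θ) (by rw [abs_neg, abs_of_pos h0]), hsplit θ (abs_of_pos h0)]
  rw [hq4] at h4
  linear_combination h3 + c * h4 + 2 * Real.pi * Complex.I * (1 / 4) * hc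

end

end Pool.Agent.H716R3
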