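import Mathlib

/-! Sectorial operators, the `H^∞`-calculus, imaginary powers, semigroups. -/

open MeasureTheory Filter Topology Set
open scoped NNReal ENNReal

namespace Pool.Agent.H716R3

noncomputable section

/-- The open sector `Σ_ω = {z ≠ 0 : |arg z| < ω}`. -/
def sector (ω : ℝ) : Set ℂ := {z | z ≠ 0 ∧ |Complex.arg z| < ω}

section defs

variable {X : Type*} [NormedAddCommGroup X] [NormedSpace ℂ X]

/-- `R` is the resolvent `R(z, A) = (z - A)⁻¹` of the (possibly unbounded) operator `A`. -/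
def IsResolvent (A : X →ₗ.[ℂ] X) (z : ℂ) (R : X →L[ℂ] X) : Prop :=
  (∀ x : X, ∃ h : R x ∈ A.domain, z • R x - A ⟨R x, h⟩ = x) ∧ ∀ x : A.domain, R (z • (x : X) - A x) = x

open Classical in
/-- The resolvent `R(z, A)` (the value is `0` when `z` lies in the spectrum). -/
def res (A : X →ₗ.[ℂ] X) (z : ℂ) : X →L[ℂ] X := if h : ∃ R, IsResolvent A z R then h.choose else 0

/-- The spectrum is contained in the closure of `Σ_ω`, and `z R(z, A)` is uniformly bounded outside the closure of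
`Σ_{ω + ε}`, for every `ε > 0`. -/
structure IsSectorialOfAngle (A : X →ₗ.[ℂ] X) (ω : ℝ) : Prop where
  spectrum_subset : ∀ z, z ∉ closure (sector ω) → ∃ R, IsResolvent A z R
  bound : ∀ ε : ℝ, 0 < ε → ∃ C : ℝ, ∀ z, z ∉ closure (sector (ω + ε)) → ‖z • res A z‖ ≤ C

/-- Sectorial operators: closed, with dense domain and dense range, of angle `ω` for some `ω ∈ (0, π)`. -/
def IsSectorial (A : X →ₗ.[ℂ] X) : Prop :=
  A.IsClosed ∧ Dense (A.domain : Set X) ∧ Dense (LinearMap.range A.toFun : Set X) ∧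
    ∃ ω : ℝ, 0 < ω ∧ ω < Real.pi ∧ IsSectorialOfAngle A ω

/-- The angle `ω(A)` of sectoriality. -/
def sectorialAngle (A : X →ₗ.[ℂ] X) : ℝ := sInf {ω : ℝ | 0 < ω ∧ ω < Real.pi ∧ IsSectorialOfAngle A ω}

/-- The class `H_0^∞(Σ_σ)`. -/
def IsH0Inf (σ : ℝ) (f : ℂ → ℂ) : Prop :=
  DifferentiableOn ℂ f (sector σ) ∧ ∃ C ε : ℝ, 0 < C ∧ 0 < ε ∧ ∀ z ∈ sector σ, ‖f z‖ ≤ C * ‖z‖ ^ ε * (1 + ‖z‖) ^ (-(2 * ε))

/-- The integral of `f(z) R(z, A)` along the ray `{r e^{iθ} : r > 0}`, oriented from `0` to `∞`. -/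
def rayInt (A : X →ₗ.[ℂ] X) (θ : ℝ) (f : ℂ → ℂ) : X →L[ℂ] X :=
  ∫ r in Ioi (0 : ℝ), (f (r * Complex.exp (θ * Complex.I)) * Complex.exp (θ * Complex.I)) •
    res A (r * Complex.exp (θ * Complex.I))

/-- The Cauchy integral `f(A) = (2πi)⁻¹ ∫_{∂Σ_θ} f(z) R(z, A) dz`, the boundary of `Σ_θ` being run through
counterclockwise. -/
def funcCalc (A : X →ₗ.[ℂ] X) (θ : ℝ) (f : ℂ → ℂ) : X →L[ℂ] X :=
  (2 * Real.pi * Complex.I)⁻¹ • (rayInt A (-θ) f - rayInt A θ f)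

/-- `A` has a bounded `H^∞(Σ_σ)`-calculus for some `σ ∈ (ω(A), π)`; here `θ ∈ (ω(A), σ)` is the angle of the contour in the
Cauchy integral (which does not depend on it). -/
def HasBoundedHInftyCalculus (A : X →ₗ.[ℂ] X) : Prop :=
  ∃ σ θ : ℝ, sectorialAngle A < θ ∧ θ < σ ∧ σ < Real.pi ∧ ∃ C : ℝ, ∀ f : ℂ → ℂ, IsH0Inf σ f →
    ∀ M : ℝ, (∀ z ∈ sector σ, ‖f z‖ ≤ M) → ‖funcCalc A θ f‖ ≤ C * M

/-- The regulariser `ρ(z) = z (1 + z)⁻²`. -/
def rho (z : ℂ) : ℂ := z / (1 + z) ^ 2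

/-- The function `z ↦ z^{is}`, principal branch. -/
def imPow (s : ℝ) (z : ℂ) : ℂ := Complex.exp (Complex.I * s * Complex.log z)

/-- `B` is the imaginary power `A^{is}`, given by the extended functional calculus `A^{is} = ρ(A)⁻¹ (ρ z^{is})(A)`, and `B` is
an everywhere defined bounded operator. -/
def IsImaginaryPower (A : X →ₗ.[ℂ] X) (s : ℝ) (B : X →L[ℂ] X) : Prop :=
  ∃ θ : ℝ, sectorialAngle A < θ ∧ θ < Real.pi ∧
    (funcCalc A θ rho).comp B = funcCalc A θ (fun z => rho z * imPow s z)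

/-- Every imaginary power `A^{is}`, `s ∈ ℝ`, is bounded. -/
def HasBIP (A : X →ₗ.[ℂ] X) : Prop := ∀ s : ℝ, ∃ B : X →L[ℂ] X, IsImaginaryPower A s B

/-- `C_0`-semigroup of bounded operators. -/
structure IsC0Semigroup (T : ℝ≥0 → X →L[ℂ] X) : Prop where
  zero : T 0 = ContinuousLinearMap.id ℂ X
  add : ∀ s t, T (s + t) = (T s).comp (T t)
  continuous : ∀ x, Continuous fun t => T t x

/-- `B` is the generator of the semigroup `T`: `B x = y` if and only if `(T(t) x - x) / t → y` as `t → 0+`. -/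
def IsGenerator (T : ℝ≥0 → X →L[ℂ] X) (B : X →ₗ.[ℂ] X) : Prop :=
  ∀ x y : X, (∃ h : x ∈ B.domain, B ⟨x, h⟩ = y) ↔
    Tendsto (fun t : ℝ≥0 => ((t : ℝ)⁻¹ : ℂ) • (T t x - x)) (𝓝[>] 0) (𝓝 y)

end defs

end

end Pool.Agent.H716R3
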