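import Pool.Agent.H716R3.Defs

/-! `R`-boundedness, `R`-sectoriality. -/

open Set

namespace Pool.Agent.H716R3

noncomputable section

section defs

variable {X : Type*} [NormedAddCommGroup X] [NormedSpace ℂ X]

/-- The norm of the Rademacher sum `∑ r_k x_k` in `L_2([0,1]; X)`: the quadratic mean of `‖∑ ± x_k‖` over all choices of
signs. -/
def radNorm {ι : Type} [Fintype ι] [DecidableEq ι] (x : ι → X) : ℝ :=
  Real.sqrt (((2 : ℝ) ^ Fintype.card ι)⁻¹ * ∑ ε : ι → Bool, ‖∑ k, (if ε k then x k else -x k)‖ ^ 2)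

/-- `R`-boundedness of a set of operators. -/
def IsRBounded (S : Set (X →L[ℂ] X)) : Prop :=
  ∃ C : ℝ, ∀ (ι : Type) [Fintype ι] [DecidableEq ι] (T : ι → X →L[ℂ] X) (x : ι → X), (∀ k, T k ∈ S) →
    radNorm (fun k => T k (x k)) ≤ C * radNorm x

/-- `{z R(z, A) : z ∉ closure Σ_ω}` is `R`-bounded, and `ω ∈ (ω(A), π)`. -/
def IsRAngle (A : X →ₗ.[ℂ] X) (ω : ℝ) : Prop :=
  sectorialAngle A < ω ∧ ω < Real.pi ∧ IsRBounded {B : X →L[ℂ] X | ∃ z, z ∉ closure (sector ω) ∧ B = z • res A z}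

/-- `R`-sectorial operators. -/
def IsRSectorial (A : X →ₗ.[ℂ] X) : Prop := ∃ ω : ℝ, IsRAngle A ω

/-- The angle `ω_R(A)`. -/
def rAngle (A : X →ₗ.[ℂ] X) : ℝ := sInf {ω : ℝ | IsRAngle A ω}

/-- `R`-analytic: `R`-sectorial with `ω_R(A) < π/2`. -/
def IsRAnalytic (A : X →ₗ.[ℂ] X) : Prop := IsRSectorial A ∧ rAngle A < Real.pi / 2

end defs

end

end Pool.Agent.H716R3
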