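import Pool.Agent.H716R3.Sec
import Pool.Agent.H716R3.Cau3

/-! Evaluation of the functional calculus of the model operator. -/

open Pool.Agent.Helper604.UMD Filter Topology MeasureTheory Set
open scoped NNReal

namespace Pool.Agent.H716R3

noncomputable section

/-- `op g w i` is a finite linear combination of values of `g` -/
lemma op_comb (w : I → ℂ) (i : I) : ∃ (F : Finset ℕ) (α : ℕ → ℂ), ∀ g : ℕ → ℂ, op g w i = ∑ n ∈ F, α n * g n := by
  classical
  obtain ⟨K, i⟩ := i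
  rcases i with j | q
  · refine ⟨Finset.range (2 * (j + K) + 2), fun n => (if n = 2 * j then w (K, Sum.inl j) else 0) +
      ∑ k ∈ Finset.Ico j K, ((wt (k - j) : ℝ) : ℂ) * ((if n = 2 * k + 1 then 1 else 0) - (if n = 2 * j then 1 else 0)) *
        w (K, Sum.inr (k, col (k - j))), fun g => ?_⟩
    rw [op_inl]
    unfold off
    simp only [add_mul, Finset.sum_add_distrib]
    congr 1
    · simp only [ite_mul, zero_mul]
      rw [Finset.sum_ite_eq', if_pos (by simp; omega)]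
      ring
    · simp only [Finset.sum_mul]
      rw [Finset.sum_comm]
      refine Finset.sum_congr rfl fun k hk => ?_
      rw [Finset.mem_Ico] at hk
      have h1 : ∀ n, (((wt (k - j) : ℝ) : ℂ) * ((if n = 2 * k + 1 then (1 : ℂ) else 0) - (if n = 2 * j then 1 else 0)) *
        w (K, Sum.inr (k, col (k - j)))) * g n = (if n = 2 * k + 1 then ((wt (k - j) : ℝ) : ℂ) * w (K, Sum.inr (k, col (k - j))) * g n else 0) -
          (if n = 2 * j then ((wt (k - j) : ℝ) : ℂ) * w (K, Sum.inr (k, col (k - j))) * g n else 0) := by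
        intro n
        split_ifs <;> ring
      simp only [h1, Finset.sum_sub_distrib]
      rw [Finset.sum_ite_eq', Finset.sum_ite_eq', if_pos (by simp; omega), if_pos (by simp; omega)]
      change ((wt (k - j) : ℝ) : ℂ) * _ = _
      ring
  · refine ⟨{2 * q.1 + 1}, fun _ => w (K, Sum.inr q), fun g => ?_⟩
    rw [op_inr, Finset.sum_singleton, mul_comm]

namespace Model

variable {p : ℝ} {X : Type} [NormedAddCommGroup X] [NormedSpace ℂ X] (m : Model p X)

lemma ray_res (hp1 : 1 < p) {φ : ℝ} (h0 : 0 < |φ|) (h1 : |φ| < Real.pi) : ∃ C : ℝ, 0 ≤ C ∧ ∀ r : ℝ, 0 < r →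
    (∃ S V, BV (symR (r * Complex.exp (φ * Complex.I))) S V) ∧
    res (m.A hp1) (r * Complex.exp (φ * Complex.I)) = m.Op hp1 (symR (r * Complex.exp (φ * Complex.I))) ∧
    (∀ n, (r * Complex.exp (φ * Complex.I)) - (lam n : ℂ) ≠ 0) ∧
    ‖m.Op hp1 (symR (r * Complex.exp (φ * Complex.I)))‖ ≤ C * r⁻¹ := by
  obtain ⟨c, hc0, hc1⟩ := exists_c h0 h1.le
  have hh := hc_nonneg hp1
  have hM := m.M_nonneg
  refine ⟨m.M * (c⁻¹ + (c ^ 2)⁻¹ * hc p), by positivity, fun r hr => ?_⟩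
  set z : ℂ := r * Complex.exp (φ * Complex.I) with hz
  have hzn : ‖z‖ = r := norm_ray hr φ
  have hz0 : z ≠ 0 := by rw [← norm_pos_iff, hzn]; exact hr
  have habs := abs_lt.1 h1
  have harg : Complex.arg z = φ := arg_ray hr habs.1 habs.2.le
  have hb := hc1 z (by rw [harg])
  have h2 := m.res_A hp1 hc0 hz0 hb
  refine ⟨⟨_, _, BV.symR hc0 hz0 hb⟩, h2, fun n => ?_, ?_⟩
  · have := hb _ (lam_pos n).le
    have h3 : 0 < c * (‖z‖ + lam n) := mul_pos hc0 (by linarith [lam_pos n, norm_nonneg z])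
    exact norm_pos_iff.1 (h3.trans_le this)
  · rw [← h2]
    have := m.res_norm hp1 hc0 hz0 hb
    rwa [hzn] at this

lemma ray_cont (hp1 : 1 < p) {φ : ℝ} (h0 : 0 < |φ|) (h1 : |φ| < Real.pi) :
    ContinuousOn (fun r : ℝ => m.Op hp1 (symR (r * Complex.exp (φ * Complex.I)))) (Ioi 0) := by
  obtain ⟨C, hC, hb⟩ := m.ray_res hp1 h0 h1
  intro r₀ hr₀
  rw [mem_Ioi] at hr₀
  have hdiff : ∀ r : ℝ, 0 < r → ‖m.Op hp1 (symR (r * Complex.exp (φ * Complex.I))) - m.Op hp1 (symR (r₀ * Complex.exp (φ * Complex.I)))‖ ≤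
      |r₀ - r| * (C * r⁻¹) * (C * r₀⁻¹) := by
    intro r hr
    obtain ⟨⟨S, V, h2⟩, h3, h4, h5⟩ := hb r hr
    obtain ⟨⟨S', V', h2'⟩, h3', h4', h5'⟩ := hb r₀ hr₀
    set z : ℂ := r * Complex.exp (φ * Complex.I) with hz
    set w : ℂ := r₀ * Complex.exp (φ * Complex.I) with hw
    have e : symR z - symR w = (w - z) • (symR z * symR w) := by
      funext n
      simp only [Pi.sub_apply, Pi.smul_apply, Pi.mul_apply, symR, smul_eq_mul]
      have := h4 n
      have := h4' n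
      field_simp
      ring
    rw [← m.Op_sub hp1 h2 h2', e, m.Op_smul hp1 (h2.mul h2'), m.Op_mul hp1 h2 h2', norm_smul]
    have h6 : ‖w - z‖ = |r₀ - r| := by
      rw [hw, hz, ← sub_mul, norm_mul, Complex.norm_exp_ofReal_mul_I, mul_one, ← Complex.ofReal_sub, Complex.norm_real, Real.norm_eq_abs]
    rw [h6, mul_assoc]
    gcongr
    exact (ContinuousLinearMap.opNorm_comp_le _ _).trans (by gcongr)
  rw [ContinuousWithinAt, tendsto_iff_norm_sub_tendsto_zero]
  refine squeeze_zero' (Eventually.of_forall fun _ => norm_nonneg _) (eventually_nhdsWithin_of_forall fun r hr => hdiff r hr) ?_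
  have h2 : ContinuousWithinAt (fun r : ℝ => |r₀ - r| * (C * r⁻¹) * (C * r₀⁻¹)) (Ioi 0) r₀ := by
    refine ContinuousAt.continuousWithinAt ?_
    have : ContinuousAt (fun r : ℝ => r⁻¹) r₀ := continuousAt_inv₀ hr₀.ne'
    fun_prop
  have h3 := h2.tendsto
  simpa using h3

lemma ray_int (hp1 : 1 < p) {φ σ : ℝ} (h0 : 0 < |φ|) (h1 : |φ| < σ) (h2 : σ < Real.pi) {f : ℂ → ℂ} (hf : IsH0Inf σ f) :
    IntegrableOn (fun r : ℝ => (f (r * Complex.exp (φ * Complex.I)) * Complex.exp (φ * Complex.I)) •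
      res (m.A hp1) (r * Complex.exp (φ * Complex.I))) (Ioi 0) := by
  obtain ⟨C, hC, hb⟩ := m.ray_res hp1 h0 (h1.trans h2)
  have h3 := (ray_integrable h0 h1 h2.le hf le_rfl).norm.const_mul C
  have hcont : ContinuousOn (fun r : ℝ => (f (r * Complex.exp (φ * Complex.I)) * Complex.exp (φ * Complex.I)) •
      res (m.A hp1) (r * Complex.exp (φ * Complex.I))) (Ioi 0) := by
    have h4 : ContinuousOn (fun r : ℝ => f (r * Complex.exp (φ * Complex.I)) * Complex.exp (φ * Complex.I)) (Ioi 0) := by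
      refine ContinuousOn.mul ?_ continuousOn_const
      exact hf.1.continuousOn.comp (by fun_prop) fun r hr => ray_mem h2.le hr h1
    refine (h4.smul (m.ray_cont hp1 h0 (h1.trans h2))).congr fun r hr => ?_
    rw [(hb r hr).2.1]
    rfl
  refine Integrable.mono' h3 (hcont.aestronglyMeasurable measurableSet_Ioi) ?_
  refine (ae_restrict_iff' measurableSet_Ioi).2 (Eventually.of_forall fun r hr => ?_)
  rw [mem_Ioi] at hr
  rw [norm_smul, (hb r hr).2.1]
  have h5 := (hb r hr).2.2.2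
  simp only [Complex.ofReal_zero, sub_zero]
  rw [norm_mul, norm_mul, norm_mul, norm_inv, norm_ray hr]
  calc _ ≤ ‖f (r * Complex.exp (φ * Complex.I))‖ * ‖Complex.exp (φ * Complex.I)‖ * (C * r⁻¹) := by gcongr
    _ = _ := by ring

theorem co_funcCalc [CompleteSpace X] (hp1 : 1 < p) {θ σ : ℝ} (h0 : 0 < θ) (h1 : θ < σ) (h2 : σ < Real.pi) {f : ℂ → ℂ} (hf : IsH0Inf σ f)
    (x : X) (i : I) : m.co (funcCalc (m.A hp1) θ f x) i = op (fun n => f (lam n)) (m.co x) i := by
  obtain ⟨F, α, hα⟩ := op_comb (m.co x) i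
  set Λ : (X →L[ℂ] X) →L[ℂ] ℂ := (m.cof hp1 i).comp (ContinuousLinearMap.apply ℂ X x) with hΛ
  have hΛa : ∀ B : X →L[ℂ] X, Λ B = m.co (B x) i := fun B => rfl
  have key : ∀ φ : ℝ, |φ| = θ → Λ (rayInt (m.A hp1) φ f) = ∑ n ∈ F, α n * RIr (fun z => f z * (z - (lam n : ℝ))⁻¹) φ := by
    intro φ hφ
    have hφ0 : 0 < |φ| := by rw [hφ]; exact h0
    have hφ1 : |φ| < σ := by rw [hφ]; exact h1
    obtain ⟨C, hC, hb⟩ := m.ray_res hp1 hφ0 (hφ1.trans h2)
    unfold rayInt
    rw [← Λ.integral_comp_comm (m.ray_int hp1 hφ0 hφ1 h2 hf)]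
    have e1 : ∫ r in Ioi (0 : ℝ), Λ ((f (r * Complex.exp (φ * Complex.I)) * Complex.exp (φ * Complex.I)) •
        res (m.A hp1) (r * Complex.exp (φ * Complex.I))) =
        ∫ r in Ioi (0 : ℝ), ∑ n ∈ F, α n * ((fun z => f z * (z - (lam n : ℝ))⁻¹) (r * Complex.exp (φ * Complex.I)) * Complex.exp (φ * Complex.I)) := by
      refine setIntegral_congr_fun measurableSet_Ioi fun r hr => ?_
      obtain ⟨⟨S, V, hBV⟩, h4, -, -⟩ := hb r hr
      simp only
      rw [map_smul, h4, hΛa, m.co_Op hp1 hBV, hα, smul_eq_mul, Finset.mul_sum]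
      refine Finset.sum_congr rfl fun n _ => ?_
      unfold symR
      ring
    rw [e1, integral_finsetSum]
    · refine Finset.sum_congr rfl fun n _ => ?_
      rw [integral_const_mul]
      rfl
    · intro n _
      exact (ray_integrable hφ0 hφ1 h2.le hf (lam_pos n).le).const_mul (α n)
  rw [← hΛa]
  unfold funcCalc
  rw [map_smul, map_sub, key (-θ) (by rw [abs_neg, abs_of_pos h0]), key θ (abs_of_pos h0), ← Finset.sum_sub_distrib, hα, smul_eq_mul, Finset.mul_sum]
  refine Finset.sum_congr rfl fun n _ => ?_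
  rw [← mul_sub, cauchy h0 h1 h2 hf (lam_pos n)]
  have hpi : (Real.pi : ℂ) ≠ 0 := by exact_mod_cast Real.pi_ne_zero
  have hI := Complex.I_ne_zero
  field_simp

end Model

end

end Pool.Agent.H716R3
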