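import Mathlib

/-! Hilbert kernel inequality on finite `ℓ_p`. -/

open Finset

namespace Pool.Agent.H716R3

lemma step1 {s : ℝ} (hs0 : 0 < s) (hs1 : s < 1) {x : ℝ} (hx : 0 ≤ x) :
    (x + 1) ^ (-s) ≤ ((x + 1) ^ (1 - s) - x ^ (1 - s)) / (1 - s) := by
  have h1 : 0 < x + 1 := by linarith
  have h2 : -1 ≤ -(1 / (x + 1)) := by
    rw [neg_le_neg_iff, div_le_one h1]; linarith
  have h3 := rpow_one_add_le_one_add_mul_self h2 (by linarith : 0 ≤ 1 - s) (by linarith : 1 - s ≤ 1)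
  have h4 : x = (x + 1) * (1 + -(1 / (x + 1))) := by field_simp; ring
  have h5 : 0 ≤ 1 + -(1 / (x + 1)) := by linarith
  have h6 : x ^ (1 - s) = (x + 1) ^ (1 - s) * (1 + -(1 / (x + 1))) ^ (1 - s) := by
    rw [← Real.mul_rpow h1.le h5, ← h4]
  have h7 : (x + 1) ^ (1 - s) = (x + 1) ^ (-s) * (x + 1) := by
    rw [show 1 - s = -s + 1 by ring, Real.rpow_add h1, Real.rpow_one]
  have h8 : 0 < (x + 1) ^ (-s) := Real.rpow_pos_of_pos h1 _
  rw [le_div_iff₀ (by linarith), h6]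
  have h9 : (x + 1) ^ (1 - s) * (1 + -(1 / (x + 1))) ^ (1 - s) ≤
      (x + 1) ^ (1 - s) * (1 + (1 - s) * -(1 / (x + 1))) := by
    gcongr
  have h10 : (x + 1) ^ (1 - s) * (1 + (1 - s) * -(1 / (x + 1))) = (x + 1) ^ (1 - s) - (1 - s) * (x + 1) ^ (-s) := by
    rw [h7]; field_simp; ring
  nlinarith

lemma step2 {s : ℝ} (hs0 : 0 < s) (hs1 : s < 1) {x : ℝ} (hx : 0 < x) :
    (x + 1) ^ (-1 - s) ≤ (x ^ (-s) - (x + 1) ^ (-s)) / s := by
  have h1 : 0 < x + 1 := by linarith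
  have h2 : -1 ≤ -(1 / (x + 1)) := by
    rw [neg_le_neg_iff, div_le_one h1]; linarith
  have h3 := rpow_one_add_le_one_add_mul_self h2 hs0.le hs1.le
  have h4 : x = (x + 1) * (1 + -(1 / (x + 1))) := by field_simp; ring
  have h5 : 0 < 1 + -(1 / (x + 1)) := by
    have : 1 / (x + 1) < 1 := by rw [div_lt_one h1]; linarith
    linarith
  have h6 : x ^ (-s) = (x + 1) ^ (-s) * (1 + -(1 / (x + 1))) ^ (-s) := by
    rw [← Real.mul_rpow h1.le h5.le, ← h4]
  have h7 : (x + 1) ^ (-1 - s) = (x + 1) ^ (-s) * (1 / (x + 1)) := by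
    rw [show -1 - s = -s + -1 by ring, Real.rpow_add h1, Real.rpow_neg_one, one_div]
  have h8 : 0 < (x + 1) ^ (-s) := Real.rpow_pos_of_pos h1 _
  have h9 : 1 + s * (1 / (x + 1)) ≤ (1 + -(1 / (x + 1))) ^ (-s) := by
    rw [Real.rpow_neg h5.le]
    have h10 : 0 < (1 + -(1 / (x + 1))) ^ s := Real.rpow_pos_of_pos h5 _
    rw [le_inv_comm₀ (by positivity) h10]
    refine h3.trans ?_
    rw [le_inv_comm₀ ?_ (by positivity)]
    · have h11 : 0 < 1 + s * -(1 / (x + 1)) := by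
        have : 0 < 1 / (x + 1) := by positivity
        nlinarith
      rw [le_inv_comm₀ (by positivity) h11]
      rw [le_inv_comm₀ h11 (by positivity), le_inv_comm₀ (by positivity) h11]
      rw [← one_div, le_div_iff₀ (by positivity)]
      nlinarith [sq_nonneg (s * (1 / (x + 1)))]
    · have : 0 < 1 / (x + 1) := by positivity
      nlinarith
  rw [le_div_iff₀ hs0, h6, h7]
  nlinarith

lemma sum1 {s : ℝ} (hs0 : 0 < s) (hs1 : s < 1) (n : ℕ) :
    ∑ b ∈ range n, ((b : ℝ) + 1) ^ (-s) ≤ (n : ℝ) ^ (1 - s) / (1 - s) := by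
  induction n with
  | zero =>
    simp only [range_zero, sum_empty, Nat.cast_zero]
    exact div_nonneg (Real.rpow_nonneg le_rfl _) (by linarith)
  | succ n ih =>
    rw [sum_range_succ]
    have := step1 hs0 hs1 (Nat.cast_nonneg n : (0 : ℝ) ≤ n)
    rw [sub_div] at this
    push_cast
    linarith

lemma sum2 {s : ℝ} (hs0 : 0 < s) (hs1 : s < 1) (a n : ℕ) :
    ∑ b ∈ range n, (((a + 1 + b : ℕ) : ℝ) + 1) ^ (-1 - s) ≤
      (((a : ℝ) + 1) ^ (-s) - ((a + 1 + n : ℕ) : ℝ) ^ (-s)) / s := by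
  induction n with
  | zero => simp
  | succ n ih =>
    rw [sum_range_succ]
    have := step2 hs0 hs1 (x := ((a + 1 + n : ℕ) : ℝ)) (by positivity)
    have e : (((a + 1 + (n + 1) : ℕ) : ℝ)) = ((a + 1 + n : ℕ) : ℝ) + 1 := by push_cast; ring
    rw [e]
    rw [sub_div] at this ih ⊢
    linarith

/-- constant in the kernel estimate -/
noncomputable def cs (s : ℝ) : ℝ := 1 / (1 - s) + 1 / s

lemma cs_pos {s : ℝ} (hs0 : 0 < s) (hs1 : s < 1) : 0 < cs s := by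
  unfold cs
  have : 0 < 1 - s := by linarith
  positivity

lemma kern_sum {s : ℝ} (hs0 : 0 < s) (hs1 : s < 1) (a N : ℕ) :
    ∑ b ∈ range N, ((a : ℝ) + b + 1)⁻¹ * ((b : ℝ) + 1) ^ (-s) ≤ cs s * ((a : ℝ) + 1) ^ (-s) := by
  have hbig : ∑ b ∈ range N, ((a : ℝ) + b + 1)⁻¹ * ((b : ℝ) + 1) ^ (-s) ≤
      ∑ b ∈ range (a + 1 + N), ((a : ℝ) + b + 1)⁻¹ * ((b : ℝ) + 1) ^ (-s) := by
    refine sum_le_sum_of_subset_of_nonneg (range_mono (by omega)) fun b _ _ => by positivity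
  refine hbig.trans ?_
  rw [sum_range_add]
  have ha : (0 : ℝ) < (a : ℝ) + 1 := by positivity
  have h1 : ∑ b ∈ range (a + 1), ((a : ℝ) + b + 1)⁻¹ * ((b : ℝ) + 1) ^ (-s) ≤ 1 / (1 - s) * ((a : ℝ) + 1) ^ (-s) := by
    calc _ ≤ ∑ b ∈ range (a + 1), ((a : ℝ) + 1)⁻¹ * ((b : ℝ) + 1) ^ (-s) := by
          refine sum_le_sum fun b _ => ?_
          gcongr
          linarith [(Nat.cast_nonneg b : (0 : ℝ) ≤ b)]
      _ = ((a : ℝ) + 1)⁻¹ * ∑ b ∈ range (a + 1), ((b : ℝ) + 1) ^ (-s) := by rw [mul_sum]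
      _ ≤ ((a : ℝ) + 1)⁻¹ * (((a + 1 : ℕ) : ℝ) ^ (1 - s) / (1 - s)) := by
          gcongr
          exact sum1 hs0 hs1 (a + 1)
      _ = _ := by
          push_cast
          rw [show 1 - s = -s + 1 by ring, Real.rpow_add ha, Real.rpow_one]
          field_simp
  have h2 : ∑ b ∈ range N, ((a : ℝ) + ((a + 1 + b : ℕ) : ℝ) + 1)⁻¹ * (((a + 1 + b : ℕ) : ℝ) + 1) ^ (-s) ≤
      1 / s * ((a : ℝ) + 1) ^ (-s) := by
    calc _ ≤ ∑ b ∈ range N, (((a + 1 + b : ℕ) : ℝ) + 1) ^ (-1 - s) := by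
          refine sum_le_sum fun b _ => ?_
          have hb : (0 : ℝ) < ((a + 1 + b : ℕ) : ℝ) + 1 := by positivity
          rw [show -1 - s = -1 + -s by ring, Real.rpow_add hb, Real.rpow_neg_one]
          gcongr
          linarith [(Nat.cast_nonneg a : (0 : ℝ) ≤ a)]
      _ ≤ _ := sum2 hs0 hs1 a N
      _ ≤ _ := by
          rw [div_eq_mul_one_div, mul_comm]
          gcongr
          have : (0 : ℝ) ≤ ((a + 1 + N : ℕ) : ℝ) ^ (-s) := by positivity
          linarith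
  unfold cs
  rw [add_mul]
  exact add_le_add h1 h2

/-- constant in the Hilbert kernel inequality, to the power `p` -/
noncomputable def hp (p : ℝ) : ℝ := (cs (1 / p)) ^ (p - 1) * cs (1 - 1 / p)

lemma hp_pos {p : ℝ} (hp1 : 1 < p) : 0 < hp p := by
  unfold hp
  have h0 : 0 < 1 / p := by positivity
  have h1 : 1 / p < 1 := by rw [div_lt_one (by linarith)]; exact hp1
  have := cs_pos h0 h1
  have := cs_pos (s := 1 - 1 / p) (by linarith) (by linarith)
  positivity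

theorem hilbert_kernel {p : ℝ} (hp1 : 1 < p) (M N : ℕ) (z : ℕ → ℝ) (hz : ∀ b, 0 ≤ z b) :
    ∑ a ∈ range M, (∑ b ∈ range N, ((a : ℝ) + b + 1)⁻¹ * z b) ^ p ≤ hp p * ∑ b ∈ range N, z b ^ p := by
  have hp0 : 0 < p := by linarith
  have h0 : 0 < 1 / p := by positivity
  have h1 : 1 / p < 1 := by rw [div_lt_one (by linarith)]; exact hp1
  have hc := cs_pos h0 h1
  have key : ∀ a : ℕ, (∑ b ∈ range N, ((a : ℝ) + b + 1)⁻¹ * z b) ^ p ≤
      (cs (1 / p)) ^ (p - 1) * ∑ b ∈ range N, (((b : ℝ) + a + 1)⁻¹ * ((a : ℝ) + 1) ^ (-(1 - 1 / p))) *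
        (((b : ℝ) + 1) ^ (1 - 1 / p) * z b ^ p) := by
    intro a
    set w : ℕ → ℝ := fun b => ((a : ℝ) + b + 1)⁻¹ * ((b : ℝ) + 1) ^ (-(1 / p)) with hw
    set f : ℕ → ℝ := fun b => ((b : ℝ) + 1) ^ (1 / p) * z b with hf
    have hw0 : ∀ b, 0 ≤ w b := fun b => by simp only [hw]; positivity
    have hf0 : ∀ b, 0 ≤ f b := fun b => mul_nonneg (by positivity) (hz b)
    have hJ := Real.inner_le_weight_mul_Lp_of_nonneg (range N) hp1.le w f hw0 hf0
    have e1 : ∑ b ∈ range N, w b * f b = ∑ b ∈ range N, ((a : ℝ) + b + 1)⁻¹ * z b := by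
      refine sum_congr rfl fun b _ => ?_
      simp only [hw, hf]
      have hb : (0 : ℝ) < (b : ℝ) + 1 := by positivity
      have : ((b : ℝ) + 1) ^ (-(1 / p)) * ((b : ℝ) + 1) ^ (1 / p) = 1 := by
        rw [← Real.rpow_add hb]; simp
      calc _ = ((a : ℝ) + b + 1)⁻¹ * (((b : ℝ) + 1) ^ (-(1 / p)) * ((b : ℝ) + 1) ^ (1 / p)) * z b := by ring
        _ = _ := by rw [this, mul_one]
    rw [e1] at hJ
    have hS0 : 0 ≤ ∑ b ∈ range N, ((a : ℝ) + b + 1)⁻¹ * z b :=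
      sum_nonneg fun b _ => mul_nonneg (by positivity) (hz b)
    have hW := kern_sum h0 h1 a N
    have hW0 : 0 ≤ ∑ b ∈ range N, w b := sum_nonneg fun b _ => hw0 b
    have hF0 : 0 ≤ ∑ b ∈ range N, w b * f b ^ p := sum_nonneg fun b _ => mul_nonneg (hw0 b) (Real.rpow_nonneg (hf0 b) _)
    have ha : (0 : ℝ) < (a : ℝ) + 1 := by positivity
    calc (∑ b ∈ range N, ((a : ℝ) + b + 1)⁻¹ * z b) ^ p
        ≤ ((∑ b ∈ range N, w b) ^ (1 - p⁻¹) * (∑ b ∈ range N, w b * f b ^ p) ^ p⁻¹) ^ p := by gcongr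
      _ = (∑ b ∈ range N, w b) ^ (p - 1) * (∑ b ∈ range N, w b * f b ^ p) := by
          rw [Real.mul_rpow (by positivity) (by positivity), ← Real.rpow_mul hW0, ← Real.rpow_mul hF0,
            inv_mul_cancel₀ hp0.ne', Real.rpow_one]
          congr 2
          field_simp
      _ ≤ (cs (1 / p) * ((a : ℝ) + 1) ^ (-(1 / p))) ^ (p - 1) * (∑ b ∈ range N, w b * f b ^ p) := by
          have : 0 ≤ p - 1 := by linarith
          gcongr
      _ = (cs (1 / p)) ^ (p - 1) * (((a : ℝ) + 1) ^ (-(1 - 1 / p)) * ∑ b ∈ range N, w b * f b ^ p) := by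
          rw [Real.mul_rpow hc.le (by positivity), ← Real.rpow_mul ha.le]
          rw [show -(1 / p) * (p - 1) = -(1 - 1 / p) by field_simp]
          ring
      _ = _ := by
          rw [mul_sum]
          congr 1
          refine sum_congr rfl fun b _ => ?_
          simp only [hw, hf]
          have hb : (0 : ℝ) < (b : ℝ) + 1 := by positivity
          rw [Real.mul_rpow (by positivity) (hz b), ← Real.rpow_mul hb.le, one_div, inv_mul_cancel₀ hp0.ne', Real.rpow_one]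
          have : ((b : ℝ) + 1) ^ (1 - p⁻¹) = ((b : ℝ) + 1) ^ (-p⁻¹) * ((b : ℝ) + 1) := by
            rw [show 1 - p⁻¹ = -p⁻¹ + 1 by ring, Real.rpow_add hb, Real.rpow_one]
          rw [this, show (b : ℝ) + a + 1 = a + b + 1 by ring]
          ring
  calc _ ≤ ∑ a ∈ range M, (cs (1 / p)) ^ (p - 1) * ∑ b ∈ range N, (((b : ℝ) + a + 1)⁻¹ * ((a : ℝ) + 1) ^ (-(1 - 1 / p))) *
        (((b : ℝ) + 1) ^ (1 - 1 / p) * z b ^ p) := sum_le_sum fun a _ => key a
    _ = (cs (1 / p)) ^ (p - 1) * ∑ b ∈ range N, (∑ a ∈ range M, ((b : ℝ) + a + 1)⁻¹ * ((a : ℝ) + 1) ^ (-(1 - 1 / p))) *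
        (((b : ℝ) + 1) ^ (1 - 1 / p) * z b ^ p) := by
        rw [← mul_sum, sum_comm]
        congr 1
        refine sum_congr rfl fun b _ => ?_
        rw [sum_mul]
    _ ≤ (cs (1 / p)) ^ (p - 1) * ∑ b ∈ range N, (cs (1 - 1 / p) * ((b : ℝ) + 1) ^ (-(1 - 1 / p))) *
        (((b : ℝ) + 1) ^ (1 - 1 / p) * z b ^ p) := by
        gcongr with b _
        · exact mul_nonneg (by positivity) (Real.rpow_nonneg (hz b) _)
        · exact kern_sum (by linarith) (by linarith) b M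
    _ = hp p * ∑ b ∈ range N, z b ^ p := by
        unfold hp
        rw [mul_assoc, mul_sum (a := cs (1 - 1 / p))]
        congr 1
        refine sum_congr rfl fun b _ => ?_
        have hb : (0 : ℝ) < (b : ℝ) + 1 := by positivity
        have : ((b : ℝ) + 1) ^ (-(1 - 1 / p)) * ((b : ℝ) + 1) ^ (1 - 1 / p) = 1 := by
          rw [← Real.rpow_add hb]; simp
        calc _ = cs (1 - 1 / p) * (((b : ℝ) + 1) ^ (-(1 - 1 / p)) * ((b : ℝ) + 1) ^ (1 - 1 / p)) * z b ^ p := by ring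
          _ = _ := by rw [this, mul_one]

end Pool.Agent.H716R3
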