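import Pool.Agent.H716R3.LpM

/-! The renormed lattice: `ℓ_2(I)` with the norm `sup_t ‖T(t) |x|‖`. -/

open Finset Pool.Agent.Helper604.UMD Filter Topology
open scoped NNReal ENNReal

namespace Pool.Agent.H716R3

noncomputable section

lemma rwt (l : ℕ) : ((wt l : ℝ) : ℝ) = wt l := rfl

lemma off_real (f : ℕ → ℝ) (x : I → ℝ) (K j : ℕ) :
    off f x K j = ∑ k ∈ Ico j K, wt (k - j) * ((f (2 * k + 1) - f (2 * j)) * x (K, Sum.inr (k, col (k - j)))) := by
  unfold off
  rfl

lemma symT_le {t : ℝ} (ht : 0 ≤ t) {j k : ℕ} (h : j ≤ k) : symT t j ≤ symT t k := by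
  induction k, h using Nat.le_induction with
  | base => exact le_rfl
  | succ k _ ih => exact ih.trans (symT_mono ht k)

lemma op_mono {t : ℝ} (ht : 0 ≤ t) {x y : I → ℝ} (h : x ≤ y) : op (symT t) x ≤ op (symT t) y := by
  rintro ⟨K, i⟩
  rcases i with j | q
  · rw [op_inl, op_inl, off_real, off_real]
    refine add_le_add (mul_le_mul_of_nonneg_left (h _) (symT_pos t _).le) (sum_le_sum fun k hk => ?_)
    rw [mem_Ico] at hk
    refine mul_le_mul_of_nonneg_left (mul_le_mul_of_nonneg_left (h _) ?_) (wt_pos _).le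
    linarith [symT_le ht (by omega : 2 * j ≤ 2 * k + 1)]
  · rw [op_inr, op_inr]
    exact mul_le_mul_of_nonneg_left (h _) (symT_pos t _).le

lemma op_zero {𝕜 : Type} [RCLike 𝕜] (f : ℕ → 𝕜) : op f (0 : I → 𝕜) = 0 := by
  have := op_smul f (0 : 𝕜) 0
  simpa using this

lemma op_nonneg {t : ℝ} (ht : 0 ≤ t) {x : I → ℝ} (h : 0 ≤ x) : 0 ≤ op (symT t) x := by
  rw [← op_zero (symT t)]
  exact op_mono ht h

lemma absf_op_le {t : ℝ} (ht : 0 ≤ t) (x : I → ℂ) : absf (op (fun n => (symT t n : ℂ)) x) ≤ op (symT t) (absf x) := by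
  rintro ⟨K, i⟩
  rcases i with j | q
  · rw [op_inl, off_real]
    simp only [absf, op_inl]
    refine (norm_add_le _ _).trans (add_le_add ?_ ?_)
    · rw [norm_mul, Complex.norm_real, Real.norm_of_nonneg (symT_pos t _).le]
    · unfold off
      refine (norm_sum_le _ _).trans (sum_le_sum fun k hk => ?_)
      rw [mem_Ico] at hk
      have h1 : 0 ≤ symT t (2 * k + 1) - symT t (2 * j) := by linarith [symT_le ht (by omega : 2 * j ≤ 2 * k + 1)]
      rw [norm_mul, norm_mul, RCLike.norm_ofReal, abs_of_pos (wt_pos _), ← Complex.ofReal_sub, Complex.norm_real, Real.norm_of_nonneg h1]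
  · rw [op_inr]
    simp only [absf, op_inr]
    rw [norm_mul, Complex.norm_real, Real.norm_of_nonneg (symT_pos t _).le]

lemma symT_mul (s t : ℝ) : symT (s + t) = symT s * symT t := by
  funext n
  exact symT_add s t n

lemma PN_absf {p : ℝ} (N : ℕ) (x : I → ℝ) : PN p N (absf x) = PN p N x := by
  unfold PN lpn absf
  simp only [Real.norm_eq_abs, abs_abs]

lemma sum_symT {t : ℝ} (ht : 0 ≤ t) (M : ℕ) : ∑ n ∈ range M, ‖symT t (n + 1) - symT t n‖ ≤ 1 := by
  calc _ = ∑ n ∈ range M, (symT t (n + 1) - symT t n) := sum_congr rfl fun n _ => by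
        rw [Real.norm_of_nonneg (by linarith [symT_mono ht n])]
    _ = symT t M - symT t 0 := sum_range_sub _ M
    _ ≤ 1 := by linarith [symT_le_one ht M, symT_pos t 0]

lemma PN_opT {p : ℝ} (hp1 : 1 < p) {t : ℝ} (ht : 0 ≤ t) (N : ℕ) (x : I → ℝ) : PN p N (op (symT t) x) ≤ (1 + 1 * hc p) * PN p N x := by
  have h1 := PN_op hp1 (symT t) (S := 1) (V := 1) (fun n => by
    rw [Real.norm_of_nonneg (symT_pos t n).le]
    exact symT_le_one ht n) (sum_symT ht) N x
  rwa [PN_absf, PN_absf] at h1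

/-- seminorms -/
def DD : KData I (ℝ≥0 × ℕ) where
  p k x := PN 2 k.2 (op (symT k.1) x)
  nonneg k x := lpn_nonneg _ _
  add_le k x y := by
    rw [op_add]
    exact lpn_add (by norm_num) _ _ _
  smul k c x hc := by
    rw [op_smul]
    exact lpn_smul (by norm_num) _ hc _
  mono k x y h0 h := by
    refine lpn_mono (by norm_num) _ fun i _ => ?_
    have h1 := op_nonneg k.1.coe_nonneg h0
    have h2 := op_mono k.1.coe_nonneg h
    rw [abs_of_nonneg (h1 i), abs_of_nonneg ((h1.trans h2) i)]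
    exact h2 i
  cont k := (lpn_cont (by norm_num) _).comp (op_cont _)
  ctrl i := by
    obtain ⟨N, hN⟩ := mem_box_of (i := i)
    refine ⟨(0, N), fun x hx => ?_⟩
    have h1 : op (symT ((0 : ℝ≥0) : ℝ)) x = x := by
      have : symT ((0 : ℝ≥0) : ℝ) = 1 := by
        funext n
        simp [symT_zero]
      rw [this, op_one]
    change x i ≤ PN 2 N (op (symT ((0 : ℝ≥0) : ℝ)) x)
    rw [h1]
    exact (le_abs_self _).trans (le_lpn (by norm_num) hN x)

lemma DD_p (t : ℝ≥0) (N : ℕ) (x : I → ℝ) : DD.p (t, N) x = PN 2 N (op (symT t) x) := rfl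

lemma DD_zero (N : ℕ) (x : I → ℝ) : DD.p (0, N) x = PN 2 N x := by
  rw [DD_p]
  have : symT ((0 : ℝ≥0) : ℝ) = 1 := by
    funext n
    simp [symT_zero]
  rw [this, op_one]

/-- the real Banach lattice -/
abbrev ER : Type := KSpace DD ℝ
/-- the complex Banach lattice -/
abbrev XC : Type := KSpace DD ℂ

lemma DD_bound (k : ℝ≥0 × ℕ) (x : I → ℂ) {a : ℝ} (h : ∀ N, PN 2 N (absf x) ≤ a) : DD.p k (absf x) ≤ (1 + 1 * hc 2) * a := by
  obtain ⟨t, N⟩ := k
  rw [DD_p]
  refine (PN_opT (by norm_num) t.coe_nonneg N (absf x)).trans ?_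
  have := hc_nonneg (p := 2) (by norm_num)
  gcongr
  exact h N

/-- the renormed space is a model -/
def mK : Model 2 XC where
  co := { toFun := fun x => x.co, map_add' := fun x y => rfl, map_smul' := fun c x => rfl }
  M := 1 + 1 * hc 2
  M_nonneg := by
    have := hc_nonneg (p := 2) (by norm_num)
    positivity
  lower := fun x N => by
    have := p_le_norm x ((0 : ℝ≥0), N)
    rw [DD_zero] at this
    exact this
  upper := fun x a h => by
    have ha : 0 ≤ a := (lpn_nonneg _ _).trans (h 0)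
    have h2 := hc_nonneg (p := 2) (by norm_num)
    exact norm_le_of (by positivity) fun k => DD_bound k _ h
  surj := fun y a h => ⟨KSpace.mk y ⟨(1 + 1 * hc 2) * a, by
    rintro _ ⟨k, rfl⟩
    exact DD_bound k _ h⟩, rfl⟩

lemma mK_co (x : XC) : mK.co x = x.co := rfl

/-- the semigroup consists of contractions -/
theorem T_contr (t : ℝ≥0) : ‖mK.T (by norm_num) t‖ ≤ 1 := by
  refine ContinuousLinearMap.opNorm_le_bound _ zero_le_one fun x => ?_
  rw [one_mul]
  refine norm_le_of (norm_nonneg _) fun k => ?_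
  obtain ⟨s, N⟩ := k
  rw [← mK_co, mK.co_T, mK_co]
  refine (DD.mono (s, N) _ _ (absf_nonneg _) (absf_op_le t.coe_nonneg x.co)).trans ?_
  rw [DD_p, ← op_mul, ← symT_mul]
  exact p_le_norm x (s + t, N)

/-- the semigroup is positive -/
theorem T_pos (t : ℝ≥0) (a : ER) (ha : 0 ≤ a) : ∃ b : ER, 0 ≤ b ∧ mK.T (by norm_num) t (incl a) = incl b := by
  have hb : BddAbove (Set.range fun k => DD.p k (absf (op (symT t) a.co))) := by
    obtain ⟨B, hB⟩ := a.bdd
    refine ⟨B, ?_⟩
    rintro _ ⟨⟨s, N⟩, rfl⟩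
    have h1 : absf (op (symT t) a.co) = op (symT t) (absf a.co) := by
      have h2 : absf a.co = a.co := by
        funext i
        exact Real.norm_of_nonneg (ha i)
      rw [h2]
      funext i
      exact Real.norm_of_nonneg (op_nonneg t.coe_nonneg ha i)
    simp only
    rw [h1, DD_p, ← op_mul, ← symT_mul]
    exact hB ⟨(s + t, N), rfl⟩
  refine ⟨KSpace.mk (op (symT t) a.co) hb, ?_, ?_⟩
  · rw [kle_iff]
    exact op_nonneg t.coe_nonneg ha
  · apply mK.ext (by norm_num)
    intro i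
    rw [mK.co_T, mK_co, mK_co, incl_co, co_mk]
    obtain ⟨K, i⟩ := i
    rcases i with j | q
    · rw [op_inl, op_inl, off_real]
      unfold off
      push_cast
      simp only [incl_co]
      rfl
    · rw [op_inr, op_inr, incl_co]
      push_cast
      rfl

/-- the renormed space is isomorphic to `ℓ_2(I)` -/
def isoH : XC ≃L[ℂ] LP 2 :=
  haveI : Fact ((1 : ℝ≥0∞) ≤ 2) := ⟨by norm_num⟩
  Model.equiv (p := 2) (by norm_num) mK (by
    have h : (2 : ℝ≥0∞).toReal = 2 := by norm_num
    have m := lpModel 2 (by rw [h]; norm_num)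
    rw [h] at m
    exact m)

end

end Pool.Agent.H716R3
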