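import Pool.Agent.H716R3.LpM

/-! `L_p` of the counting measure as a model. -/

open Finset Pool.Agent.Helper604.UMD Filter Topology MeasureTheory
open scoped NNReal ENNReal

namespace Pool.Agent.H716R3

noncomputable section

instance : MeasurableSingletonClass (ℕ ⊕ ℕ × ℕ) :=
  ⟨fun x => measurableSet_sum_iff.2 ⟨MeasurableSet.of_discrete, MeasurableSet.of_discrete⟩⟩

/-- the space `L_p(I, counting measure)` -/
abbrev LC (P : ℝ≥0∞) : Type := Lp ℂ P (Measure.count : Measure I)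

lemma eL_count {P : ℝ≥0∞} (h0 : P ≠ 0) (h1 : P ≠ ∞) (f : I → ℂ) :
    eLpNorm f P Measure.count = (∑' i, ‖f i‖ₑ ^ P.toReal) ^ (1 / P.toReal) := by
  rw [eLpNorm_eq_lintegral_rpow_enorm_toReal h0 h1, lintegral_count]

lemma sum_enorm {P : ℝ≥0∞} (hP0 : 0 < P.toReal) (f : I → ℂ) (s : Finset I) :
    ∑ i ∈ s, ‖f i‖ₑ ^ P.toReal = ENNReal.ofReal (∑ i ∈ s, |absf f i| ^ P.toReal) := by
  rw [ENNReal.ofReal_sum_of_nonneg fun i _ => by positivity]
  refine sum_congr rfl fun i _ => ?_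
  rw [absf, abs_norm, ← ofReal_norm, ENNReal.ofReal_rpow_of_nonneg (norm_nonneg _) hP0.le]

lemma eL_le {P : ℝ≥0∞} (h0 : P ≠ 0) (h1 : P ≠ ∞) (hP0 : 0 < P.toReal) (f : I → ℂ) {a : ℝ} (h : ∀ N, PN P.toReal N (absf f) ≤ a) :
    eLpNorm f P Measure.count ≤ ENNReal.ofReal a := by
  have ha : 0 ≤ a := (lpn_nonneg _ _).trans (h 0)
  rw [eL_count h0 h1]
  have h2 : ∑' i, ‖f i‖ₑ ^ P.toReal ≤ ENNReal.ofReal a ^ P.toReal := by
    rw [ENNReal.tsum_eq_iSup_sum]
    refine iSup_le fun s => ?_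
    obtain ⟨N, hN⟩ := exists_box s
    have h3 := h N
    unfold PN at h3
    rw [lpn_le_iff hP0 _ _ ha] at h3
    refine (sum_le_sum_of_subset hN).trans ?_
    rw [sum_enorm hP0, ENNReal.ofReal_rpow_of_nonneg ha hP0.le]
    exact ENNReal.ofReal_le_ofReal h3
  calc _ ≤ (ENNReal.ofReal a ^ P.toReal) ^ (1 / P.toReal) := by gcongr
    _ = _ := by rw [← ENNReal.rpow_mul, mul_one_div_cancel hP0.ne', ENNReal.rpow_one]

lemma le_eL {P : ℝ≥0∞} (h0 : P ≠ 0) (h1 : P ≠ ∞) (hP0 : 0 < P.toReal) (f : I → ℂ) (N : ℕ) :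
    ENNReal.ofReal (PN P.toReal N (absf f)) ≤ eLpNorm f P Measure.count := by
  rw [eL_count h0 h1]
  have h2 : ENNReal.ofReal (PN P.toReal N (absf f)) = (∑ i ∈ box N, ‖f i‖ₑ ^ P.toReal) ^ (1 / P.toReal) := by
    rw [sum_enorm hP0]
    unfold PN lpn
    rw [ENNReal.ofReal_rpow_of_nonneg (sum_nonneg fun _ _ => by positivity) (by positivity)]
  rw [h2]
  gcongr
  exact ENNReal.sum_le_tsum _

/-- `L_p` of the counting measure is a model -/
def lcModel (P : ℝ≥0∞) [Fact (1 ≤ P)] (h1 : P ≠ ∞) (hP : 1 < P.toReal) : Model P.toReal (LC P) where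
  co := { toFun := fun x => (x : I → ℂ)
          map_add' := fun x y => by
            have := Lp.coeFn_add x y
            rw [Filter.EventuallyEq, Measure.ae_count_iff] at this
            exact funext this
          map_smul' := fun c x => by
            have := Lp.coeFn_smul c x
            rw [Filter.EventuallyEq, Measure.ae_count_iff] at this
            exact funext this }
  M := 1
  M_nonneg := zero_le_one
  lower := fun x N => by
    have hp0 : 0 < P.toReal := by linarith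
    have h0 : P ≠ 0 := by rintro rfl; simp at hP; linarith
    have h2 := le_eL h0 h1 hp0 (x : I → ℂ) N
    rw [Lp.norm_def]
    exact (ENNReal.ofReal_le_iff_le_toReal (Lp.eLpNorm_ne_top x)).1 h2
  upper := fun x a h => by
    have hp0 : 0 < P.toReal := by linarith
    have h0 : P ≠ 0 := by rintro rfl; simp at hP; linarith
    have ha : 0 ≤ a := (lpn_nonneg _ _).trans (h 0)
    rw [one_mul, Lp.norm_def]
    exact ENNReal.toReal_le_of_le_ofReal ha (eL_le h0 h1 hp0 (x : I → ℂ) h)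
  surj := fun y a h => by
    have hp0 : 0 < P.toReal := by linarith
    have h0 : P ≠ 0 := by rintro rfl; simp at hP; linarith
    have hmem : MemLp y P (Measure.count : Measure I) :=
      ⟨(measurable_of_countable y).aestronglyMeasurable, (eL_le h0 h1 hp0 y h).trans_lt ENNReal.ofReal_lt_top⟩
    refine ⟨hmem.toLp, ?_⟩
    have := hmem.coeFn_toLp
    rw [Filter.EventuallyEq, Measure.ae_count_iff] at this
    exact funext this

lemma lcModel_co (P : ℝ≥0∞) [Fact (1 ≤ P)] (h1 : P ≠ ∞) (hP : 1 < P.toReal) (x : LC P) : (lcModel P h1 hP).co x = (x : I → ℂ) := rfl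

end

end Pool.Agent.H716R3
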