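import Pool.Agent.H716R3.Model

/-! `ℓ_p(I)` as a model, and isomorphisms of models. -/

open Finset Pool.Agent.Helper604.UMD Filter Topology
open scoped NNReal ENNReal

namespace Pool.Agent.H716R3

noncomputable section

lemma exists_box (s : Finset I) : ∃ N, s ⊆ box N := by
  classical
  induction s using Finset.induction_on with
  | empty => exact ⟨0, by simp⟩
  | insert a s _ ih =>
    obtain ⟨N, hN⟩ := ih
    obtain ⟨N', hN'⟩ := mem_box_of (i := a)
    refine ⟨max N N', ?_⟩
    intro i hi
    rw [mem_insert] at hi
    rcases hi with rfl | hi
    · exact box_mono (le_max_right _ _) hN'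
    · exact box_mono (le_max_left _ _) (hN hi)

/-- the space `ℓ_p(I)` -/
abbrev LP (P : ℝ≥0∞) : Type := lp (fun _ : I => ℂ) P

/-- `ℓ_p(I)` is a model -/
def lpModel (P : ℝ≥0∞) [Fact (1 ≤ P)] (hP : 1 < P.toReal) : Model P.toReal (LP P) where
  co := { toFun := fun x => (x : I → ℂ), map_add' := fun x y => rfl, map_smul' := fun c x => rfl }
  M := 1
  M_nonneg := zero_le_one
  lower := fun x N => by
    have hp0 : 0 < P.toReal := by linarith
    unfold PN
    rw [lpn_le_iff hp0 _ _ (norm_nonneg _)]
    have := lp.sum_rpow_le_norm_rpow hp0 x (box N)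
    refine le_trans (le_of_eq ?_) this
    refine sum_congr rfl fun i _ => ?_
    simp [absf]
  upper := fun x a h => by
    have hp0 : 0 < P.toReal := by linarith
    have ha : 0 ≤ a := (lpn_nonneg _ _).trans (h 0)
    rw [one_mul]
    refine lp.norm_le_of_forall_sum_le hp0 ha fun s => ?_
    obtain ⟨N, hN⟩ := exists_box s
    have h1 := h N
    unfold PN at h1
    rw [lpn_le_iff hp0 _ _ ha] at h1
    refine le_trans ?_ h1
    refine (sum_le_sum_of_subset_of_nonneg hN fun _ _ _ => by positivity).trans (le_of_eq ?_)
    refine sum_congr rfl fun i _ => ?_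
    simp [absf]
  surj := fun y a h => by
    have hp0 : 0 < P.toReal := by linarith
    have ha : 0 ≤ a := (lpn_nonneg _ _).trans (h 0)
    have hmem : Memℓp y P := by
      refine memℓp_gen' (C := a ^ P.toReal) fun s => ?_
      obtain ⟨N, hN⟩ := exists_box s
      have h1 := h N
      unfold PN at h1
      rw [lpn_le_iff hp0 _ _ ha] at h1
      refine le_trans ?_ h1
      refine (sum_le_sum_of_subset_of_nonneg hN fun _ _ _ => by positivity).trans (le_of_eq ?_)
      refine sum_congr rfl fun i _ => ?_
      simp [absf]
    exact ⟨⟨y, hmem⟩, rfl⟩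

namespace Model

variable {p : ℝ} {X Y : Type} [NormedAddCommGroup X] [NormedSpace ℂ X] [NormedAddCommGroup Y] [NormedSpace ℂ Y]

/-- the element of `Y` with the same coordinates -/
lemma exists_same (m : Model p X) (m' : Model p Y) (x : X) : ∃ y : Y, m'.co y = m.co x := m'.surj _ _ (m.lower x)

/-- two models are isomorphic -/
def equiv (hp1 : 1 < p) (m : Model p X) (m' : Model p Y) : X ≃L[ℂ] Y :=
  LinearEquiv.toContinuousLinearEquivOfBounds
    { toFun := fun x => (exists_same m m' x).choose
      map_add' := fun x y => by
        apply m'.inj hp1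
        rw [(exists_same m m' (x + y)).choose_spec, map_add, map_add, (exists_same m m' x).choose_spec, (exists_same m m' y).choose_spec]
      map_smul' := fun c x => by
        apply m'.inj hp1
        rw [(exists_same m m' (c • x)).choose_spec, map_smul, RingHom.id_apply, map_smul, (exists_same m m' x).choose_spec]
      invFun := fun y => (exists_same m' m y).choose
      left_inv := fun x => by
        apply m.inj hp1
        rw [(exists_same m' m _).choose_spec, (exists_same m m' x).choose_spec]
      right_inv := fun y => by
        apply m'.inj hp1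
        rw [(exists_same m m' _).choose_spec, (exists_same m' m y).choose_spec] }
    m'.M m.M
    (fun x => m'.upper _ _ fun N => by
      change PN p N (absf (m'.co (exists_same m m' x).choose)) ≤ _
      rw [(exists_same m m' x).choose_spec]
      exact m.lower x N)
    (fun y => m.upper _ _ fun N => by
      change PN p N (absf (m.co (exists_same m' m y).choose)) ≤ _
      rw [(exists_same m' m y).choose_spec]
      exact m'.lower y N)

end Model

end

end Pool.Agent.H716R3
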