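import Pool.Agent.H716R3.Act
import Pool.Agent.H716R3.Sym
import Pool.Agent.H716R3.Defs

/-! Banach spaces modelled on `ℓ_p(I)` and the operators `Op f` on them. -/

open Finset Pool.Agent.Helper604.UMD Filter Topology
open scoped NNReal

namespace Pool.Agent.H716R3

noncomputable section

/-- a Banach space isomorphic to `ℓ_p(I)` -/
structure Model (p : ℝ) (X : Type) [NormedAddCommGroup X] [NormedSpace ℂ X] where
  co : X →ₗ[ℂ] (I → ℂ)
  M : ℝ
  M_nonneg : 0 ≤ M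
  lower : ∀ x N, PN p N (absf (co x)) ≤ ‖x‖
  upper : ∀ x a, (∀ N, PN p N (absf (co x)) ≤ a) → ‖x‖ ≤ M * a
  surj : ∀ (y : I → ℂ) a, (∀ N, PN p N (absf y) ≤ a) → ∃ x, co x = y

namespace Model

variable {p : ℝ} {X : Type} [NormedAddCommGroup X] [NormedSpace ℂ X] (m : Model p X)

include m in
lemma inj (hp1 : 1 < p) {x y : X} (h : m.co x = m.co y) : x = y := by
  have h1 : m.co (x - y) = 0 := by rw [map_sub, h, sub_self]
  have h2 : ‖x - y‖ ≤ m.M * 0 := m.upper _ _ fun N => by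
    rw [h1, absf_zero]
    exact (lpn_zero (by linarith : 0 < p) _).le
  rw [mul_zero] at h2
  exact sub_eq_zero.1 (norm_le_zero_iff.1 h2)

include m in
lemma ext (hp1 : 1 < p) {x y : X} (h : ∀ i, m.co x i = m.co y i) : x = y := m.inj hp1 (funext h)

lemma co_le (hp1 : 1 < p) (x : X) (i : I) : ‖m.co x i‖ ≤ ‖x‖ := by
  obtain ⟨N, hN⟩ := mem_box_of (i := i)
  have h1 := le_lpn (by linarith : 0 < p) hN (absf (m.co x))
  rw [abs_of_nonneg (absf_nonneg (m.co x) i)] at h1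
  exact h1.trans (m.lower x N)

/-- coordinate functionals -/
def cof (hp1 : 1 < p) (i : I) : X →L[ℂ] ℂ :=
  LinearMap.mkContinuous { toFun := fun x => m.co x i, map_add' := fun x y => by simp, map_smul' := fun c x => by simp } 1
    fun x => by rw [one_mul]; exact m.co_le hp1 x i

@[simp] lemma cof_apply (hp1 : 1 < p) (i : I) (x : X) : m.cof hp1 i x = m.co x i := rfl

lemma PN_op_le (hp1 : 1 < p) {f : ℕ → ℂ} {S V : ℝ} (hf : BV f S V) (x : X) (N : ℕ) :
    PN p N (absf (op f (m.co x))) ≤ (S + V * hc p) * ‖x‖ := by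
  refine (PN_op hp1 f hf.sup hf.var N (m.co x)).trans ?_
  have := hf.S_nonneg
  have := hf.V_nonneg
  have := hc_nonneg hp1
  have := m.lower x N
  gcongr

/-- the operator with symbol `f` of bounded variation -/
def OpB (hp1 : 1 < p) {f : ℕ → ℂ} {S V : ℝ} (hf : BV f S V) : X →L[ℂ] X :=
  LinearMap.mkContinuous
    { toFun := fun x => (m.surj (op f (m.co x)) _ (m.PN_op_le hp1 hf x)).choose
      map_add' := fun x y => by
        apply m.inj hp1
        rw [(m.surj (op f (m.co (x + y))) _ (m.PN_op_le hp1 hf (x + y))).choose_spec, map_add, map_add,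
          (m.surj (op f (m.co x)) _ (m.PN_op_le hp1 hf x)).choose_spec,
          (m.surj (op f (m.co y)) _ (m.PN_op_le hp1 hf y)).choose_spec, op_add]
      map_smul' := fun c x => by
        apply m.inj hp1
        rw [(m.surj (op f (m.co (c • x))) _ (m.PN_op_le hp1 hf (c • x))).choose_spec, map_smul, RingHom.id_apply, map_smul,
          (m.surj (op f (m.co x)) _ (m.PN_op_le hp1 hf x)).choose_spec, op_smul] }
    (m.M * (S + V * hc p)) (fun x => by
      rw [mul_assoc]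
      refine m.upper _ _ fun N => ?_
      change PN p N (absf (m.co (m.surj (op f (m.co x)) _ (m.PN_op_le hp1 hf x)).choose)) ≤ _
      rw [(m.surj (op f (m.co x)) _ (m.PN_op_le hp1 hf x)).choose_spec]
      exact m.PN_op_le hp1 hf x N)

lemma co_OpB (hp1 : 1 < p) {f : ℕ → ℂ} {S V : ℝ} (hf : BV f S V) (x : X) : m.co (m.OpB hp1 hf x) = op f (m.co x) :=
  (m.surj (op f (m.co x)) _ (m.PN_op_le hp1 hf x)).choose_spec

lemma OpB_norm (hp1 : 1 < p) {f : ℕ → ℂ} {S V : ℝ} (hf : BV f S V) : ‖m.OpB hp1 hf‖ ≤ m.M * (S + V * hc p) := by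
  refine LinearMap.mkContinuous_norm_le _ ?_ _
  have := hf.S_nonneg
  have := hf.V_nonneg
  have := hc_nonneg hp1
  have := m.M_nonneg
  positivity

open Classical in
/-- the operator with symbol `f` (zero if `f` is not of bounded variation) -/
def Op (hp1 : 1 < p) (f : ℕ → ℂ) : X →L[ℂ] X :=
  if h : ∃ S V, BV f S V then m.OpB hp1 h.choose_spec.choose_spec else 0

lemma co_Op (hp1 : 1 < p) {f : ℕ → ℂ} {S V : ℝ} (hf : BV f S V) (x : X) : m.co (m.Op hp1 f x) = op f (m.co x) := by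
  unfold Op
  rw [dif_pos ⟨S, V, hf⟩]
  exact m.co_OpB hp1 _ x

lemma Op_eq (hp1 : 1 < p) {f : ℕ → ℂ} {S V : ℝ} (hf : BV f S V) : m.Op hp1 f = m.OpB hp1 hf := by
  ext1 x
  apply m.inj hp1
  rw [m.co_Op hp1 hf, m.co_OpB hp1 hf]

lemma Op_norm (hp1 : 1 < p) {f : ℕ → ℂ} {S V : ℝ} (hf : BV f S V) : ‖m.Op hp1 f‖ ≤ m.M * (S + V * hc p) := by
  rw [m.Op_eq hp1 hf]
  exact m.OpB_norm hp1 hf

lemma Op_mul (hp1 : 1 < p) {f g : ℕ → ℂ} {S V S' V' : ℝ} (hf : BV f S V) (hg : BV g S' V') :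
    m.Op hp1 (f * g) = (m.Op hp1 f).comp (m.Op hp1 g) := by
  ext1 x
  apply m.inj hp1
  rw [m.co_Op hp1 (hf.mul hg), ContinuousLinearMap.comp_apply, m.co_Op hp1 hf, m.co_Op hp1 hg, op_mul]

lemma Op_add (hp1 : 1 < p) {f g : ℕ → ℂ} {S V S' V' : ℝ} (hf : BV f S V) (hg : BV g S' V') :
    m.Op hp1 (f + g) = m.Op hp1 f + m.Op hp1 g := by
  ext1 x
  apply m.inj hp1
  rw [m.co_Op hp1 (hf.add hg), add_apply, map_add, m.co_Op hp1 hf, m.co_Op hp1 hg, op_add_left]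

lemma Op_sub (hp1 : 1 < p) {f g : ℕ → ℂ} {S V S' V' : ℝ} (hf : BV f S V) (hg : BV g S' V') :
    m.Op hp1 (f - g) = m.Op hp1 f - m.Op hp1 g := by
  ext1 x
  apply m.inj hp1
  rw [m.co_Op hp1 (hf.sub hg), sub_apply, map_sub, m.co_Op hp1 hf, m.co_Op hp1 hg, op_sub_left]

lemma Op_smul (hp1 : 1 < p) {f : ℕ → ℂ} {S V : ℝ} (hf : BV f S V) (c : ℂ) : m.Op hp1 (c • f) = c • m.Op hp1 f := by
  ext1 x
  apply m.inj hp1
  rw [m.co_Op hp1 (hf.smul c), smul_apply, map_smul, m.co_Op hp1 hf, op_smul_left]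

lemma Op_one (hp1 : 1 < p) : m.Op hp1 1 = ContinuousLinearMap.id ℂ X := by
  ext1 x
  apply m.inj hp1
  rw [m.co_Op hp1 BV.one, op_one]
  rfl

/-! ### the operator `A` and the semigroup -/

/-- the bounded operator `A` -/
def Ab (hp1 : 1 < p) : X →L[ℂ] X := m.Op hp1 symA

/-- the operator `A` as an operator with domain -/
def A (hp1 : 1 < p) : X →ₗ.[ℂ] X := (m.Ab hp1 : X →ₗ[ℂ] X).toPMap ⊤

lemma A_apply (hp1 : 1 < p) (x : X) (h : x ∈ (m.A hp1).domain) : m.A hp1 ⟨x, h⟩ = m.Ab hp1 x := rfl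

lemma A_mem (hp1 : 1 < p) (x : X) : x ∈ (m.A hp1).domain := Submodule.mem_top

/-- the semigroup -/
def T (hp1 : 1 < p) (t : ℝ≥0) : X →L[ℂ] X := m.Op hp1 (fun n => (symT t n : ℂ))

lemma co_T (hp1 : 1 < p) (t : ℝ≥0) (x : X) : m.co (m.T hp1 t x) = op (fun n => (symT t n : ℂ)) (m.co x) :=
  m.co_Op hp1 (BV.symT t.coe_nonneg) x

lemma T_zero (hp1 : 1 < p) : m.T hp1 0 = ContinuousLinearMap.id ℂ X := by
  unfold T
  rw [← m.Op_one hp1]
  congr 1
  funext n
  simp [symT_zero]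

lemma T_add (hp1 : 1 < p) (s t : ℝ≥0) : m.T hp1 (s + t) = (m.T hp1 s).comp (m.T hp1 t) := by
  unfold T
  rw [← m.Op_mul hp1 (BV.symT s.coe_nonneg) (BV.symT t.coe_nonneg)]
  congr 1
  funext n
  rw [Pi.mul_apply, ← Complex.ofReal_mul, ← symT_add, NNReal.coe_add]

lemma T_sub_one (hp1 : 1 < p) (t : ℝ≥0) : ‖m.T hp1 t - ContinuousLinearMap.id ℂ X‖ ≤ m.M * (1 + hc p) * t := by
  have h1 : m.T hp1 t - ContinuousLinearMap.id ℂ X = m.Op hp1 (fun n => ((symT t n - 1 : ℝ) : ℂ)) := by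
    rw [← m.Op_one hp1]
    unfold T
    rw [← m.Op_sub hp1 (BV.symT t.coe_nonneg) BV.one]
    congr 1
    funext n
    simp
  rw [h1]
  refine (m.Op_norm hp1 (BV.symT_sub t.coe_nonneg)).trans (le_of_eq ?_)
  ring

lemma T_norm (hp1 : 1 < p) (t : ℝ≥0) : ‖m.T hp1 t‖ ≤ m.M * (1 + hc p) := by
  refine (m.Op_norm hp1 (BV.symT t.coe_nonneg)).trans (le_of_eq ?_)
  ring

lemma T_lip (hp1 : 1 < p) (s t : ℝ≥0) : ‖m.T hp1 t - m.T hp1 s‖ ≤ (m.M * (1 + hc p)) ^ 2 * |(t : ℝ) - s| := by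
  have hC : 0 ≤ m.M * (1 + hc p) := by
    have := m.M_nonneg
    have := hc_nonneg hp1
    positivity
  have key : ∀ s t : ℝ≥0, s ≤ t → ‖m.T hp1 t - m.T hp1 s‖ ≤ (m.M * (1 + hc p)) ^ 2 * |(t : ℝ) - s| := by
    intro s t hst
    obtain ⟨h, rfl⟩ := exists_add_of_le hst
    have e : m.T hp1 (s + h) - m.T hp1 s = (m.T hp1 s).comp (m.T hp1 h - ContinuousLinearMap.id ℂ X) := by
      rw [m.T_add]
      ext x
      simp
    rw [e]
    refine (ContinuousLinearMap.opNorm_comp_le _ _).trans ?_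
    have h1 := m.T_norm hp1 s
    have h2 := m.T_sub_one hp1 h
    have h3 : |((s + h : ℝ≥0) : ℝ) - s| = h := by
      rw [NNReal.coe_add, add_sub_cancel_left, abs_of_nonneg h.coe_nonneg]
    rw [h3, pow_two, mul_assoc]
    gcongr
  rcases le_total s t with h | h
  · exact key s t h
  · rw [norm_sub_rev, abs_sub_comm]
    exact key t s h

lemma T_cont (hp1 : 1 < p) : Continuous (m.T hp1) := by
  have hC : 0 ≤ (m.M * (1 + hc p)) ^ 2 := by positivity
  have h : LipschitzWith (Real.toNNReal ((m.M * (1 + hc p)) ^ 2)) (m.T hp1) := by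
    refine LipschitzWith.of_dist_le_mul fun t s => ?_
    rw [dist_eq_norm, Real.coe_toNNReal _ hC, NNReal.dist_eq]
    exact m.T_lip hp1 s t
  exact h.continuous

theorem isC0 (hp1 : 1 < p) : IsC0Semigroup (m.T hp1) where
  zero := m.T_zero hp1
  add := m.T_add hp1
  continuous := fun x => (ContinuousLinearMap.apply ℂ X x).continuous.comp (m.T_cont hp1)

theorem isGen (hp1 : 1 < p) : IsGenerator (m.T hp1) (-(m.A hp1)) := by
  have h1 : ∀ x, Tendsto (fun t : ℝ≥0 => ((t : ℝ)⁻¹ : ℂ) • (m.T hp1 t x - x)) (𝓝[>] 0) (𝓝 (-(m.Ab hp1 x))) := by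
    intro x
    rw [tendsto_iff_norm_sub_tendsto_zero]
    have hb : ∀ t : ℝ≥0, 0 < t → ‖((t : ℝ)⁻¹ : ℂ) • (m.T hp1 t x - x) - -(m.Ab hp1 x)‖ ≤ m.M * (1 + hc p) * t * ‖x‖ := by
      intro t ht
      have ht' : (0 : ℝ) < t := ht
      have hT := BV.symT t.coe_nonneg
      have e : ((t : ℝ)⁻¹ : ℂ) • (m.T hp1 t x - x) - -(m.Ab hp1 x) =
          m.Op hp1 (fun n => (((symT t n - 1) / (t : ℝ) + lam n : ℝ) : ℂ)) x := by
        have e1 : (fun n => (((symT t n - 1) / (t : ℝ) + lam n : ℝ) : ℂ)) =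
            ((t : ℝ)⁻¹ : ℂ) • ((fun n => (symT t n : ℂ)) - 1) + symA := by
          funext n
          simp only [Pi.add_apply, Pi.smul_apply, Pi.sub_apply, Pi.one_apply, smul_eq_mul, symA]
          push_cast
          ring
        rw [e1, m.Op_add hp1 ((hT.sub BV.one).smul _) BV.symA, m.Op_smul hp1 (hT.sub BV.one), m.Op_sub hp1 hT BV.one, m.Op_one]
        simp [T, Ab]
      rw [e]
      refine (ContinuousLinearMap.le_opNorm _ _).trans ?_
      gcongr
      refine (m.Op_norm hp1 (BV.symG ht')).trans (le_of_eq ?_)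
      ring
    refine squeeze_zero' (Eventually.of_forall fun _ => norm_nonneg _) (eventually_nhdsWithin_of_forall hb) ?_
    have h2 : Tendsto (fun t : ℝ≥0 => m.M * (1 + hc p) * (t : ℝ) * ‖x‖) (𝓝 0) (𝓝 (m.M * (1 + hc p) * ((0 : ℝ≥0) : ℝ) * ‖x‖)) := by
      apply Continuous.tendsto
      fun_prop
    rw [NNReal.coe_zero, mul_zero, zero_mul] at h2
    exact h2.mono_left nhdsWithin_le_nhds
  intro x y
  have hne : (𝓝[>] (0 : ℝ≥0)).NeBot := inferInstance
  constructor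
  · rintro ⟨h, rfl⟩
    exact h1 x
  · intro h
    exact ⟨Submodule.mem_top, tendsto_nhds_unique (h1 x) h⟩

end Model

end

end Pool.Agent.H716R3
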