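import Pool.Agent.H716R3.Fc

/-! Failure of the bounded `H^∞`-calculus and of bounded imaginary powers. -/

open Finset Pool.Agent.Helper604.UMD Filter Topology MeasureTheory
open scoped NNReal

namespace Pool.Agent.H716R3

noncomputable section

/-- alternating signs -/
def alt (n : ℕ) : ℂ := (-1) ^ n

/-- block size -/
def bs (m : ℕ) : ℕ := 2 ^ (m + 1)

/-- test vectors -/
def tv (m : ℕ) : I → ℂ := fun i => match i with
  | (K, Sum.inr (k, c)) => if K = bs m ∧ k < bs m ∧ c < m + 2 then 1 else 0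
  | (_, Sum.inl _) => 0

lemma bs_pos (m : ℕ) : 0 < bs m := by unfold bs; positivity

lemma m_lt_bs (m : ℕ) : m + 1 < bs m := by unfold bs; exact Nat.lt_two_pow_self

lemma tv_supp (m : ℕ) (i : I) (hi : i ∉ box (bs m + m + 2)) : tv m i = 0 := by
  obtain ⟨K, i⟩ := i
  rcases i with j | ⟨k, c⟩
  · rfl
  · unfold tv
    rw [mem_box_iff] at hi
    refine if_neg ?_
    rintro ⟨h1, h2, h3⟩
    apply hi
    refine ⟨by omega, by simp, ?_⟩
    rintro _ ⟨rfl⟩
    constructor <;> simp only <;> omega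

lemma tv_PN {p : ℝ} (hp0 : 0 < p) (m N : ℕ) : PN p N (absf (tv m)) ≤ ((bs m : ℝ) * (m + 2)) ^ (1 / p) := by
  unfold PN lpn
  refine Real.rpow_le_rpow (sum_nonneg fun _ _ => by positivity) ?_ (by positivity)
  rw [sum_box]
  have h1 : ∀ K ∈ range N, ((∑ j ∈ range N, |absf (tv m) (K, Sum.inl j)| ^ p) + ∑ k ∈ range N, ∑ i ∈ range N, |absf (tv m) (K, Sum.inr (k, i))| ^ p) ≤
      if K = bs m then (bs m : ℝ) * (m + 2) else 0 := by
    intro K _
    have h2 : ∑ j ∈ range N, |absf (tv m) (K, Sum.inl j)| ^ p = 0 := sum_eq_zero fun j _ => by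
      simp [absf, tv, Real.zero_rpow hp0.ne']
    rw [h2, zero_add]
    split_ifs with hK
    · have h3 : ∀ k ∈ range N, ∑ i ∈ range N, |absf (tv m) (K, Sum.inr (k, i))| ^ p ≤ if k < bs m then ((m : ℝ) + 2) else 0 := by
        intro k _
        have h4 : ∀ i ∈ range N, |absf (tv m) (K, Sum.inr (k, i))| ^ p = if k < bs m ∧ i < m + 2 then 1 else 0 := by
          intro i _
          simp only [absf, tv, hK, true_and]
          split_ifs
          · simp
          · simp [Real.zero_rpow hp0.ne']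
        rw [sum_congr rfl h4]
        split_ifs with hk
        · simp only [hk, true_and]
          rw [sum_ite, sum_const_zero, add_zero, sum_const, nsmul_eq_mul, mul_one]
          have h5 : (filter (fun i => i < m + 2) (range N)).card ≤ m + 2 := by
            calc _ ≤ (range (m + 2)).card := card_le_card fun i hi => by simp at hi ⊢; omega
              _ = m + 2 := card_range _
          exact_mod_cast h5
        · simp [hk]
      refine (sum_le_sum h3).trans ?_
      rw [sum_ite, sum_const_zero, add_zero, sum_const, nsmul_eq_mul]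
      have h5 : (filter (fun i => i < bs m) (range N)).card ≤ bs m := by
        calc _ ≤ (range (bs m)).card := card_le_card fun i hi => by simp at hi ⊢; omega
          _ = bs m := card_range _
      gcongr
    · refine le_of_eq (sum_eq_zero fun k _ => sum_eq_zero fun i _ => ?_)
      simp [absf, tv, hK, Real.zero_rpow hp0.ne']
  refine (sum_le_sum h1).trans ?_
  rw [sum_ite_eq']
  split_ifs
  · exact le_rfl
  · positivity

lemma harm (m : ℕ) : 1 + (m : ℝ) / 2 ≤ ∑ l ∈ range (2 ^ m), wt l := by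
  induction m with
  | zero => simp [wt]
  | succ m ih =>
    have h1 : 2 ^ (m + 1) = 2 ^ m + 2 ^ m := by ring
    rw [h1, sum_range_add]
    have h2 : (1 : ℝ) / 2 ≤ ∑ l ∈ range (2 ^ m), wt (2 ^ m + l) := by
      calc (1 : ℝ) / 2 = ∑ l ∈ range (2 ^ m), ((2 : ℝ) ^ (m + 1))⁻¹ := by
            rw [sum_const, card_range, nsmul_eq_mul, pow_succ]
            push_cast
            field_simp
        _ ≤ _ := by
            refine sum_le_sum fun l hl => ?_
            rw [mem_range] at hl
            unfold wt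
            refine inv_anti₀ (by positivity) ?_
            have : (l : ℝ) + 1 ≤ 2 ^ m := by exact_mod_cast hl
            push_cast
            rw [pow_succ]
            linarith
    push_cast
    linarith

lemma off_alt (m j : ℕ) : off alt (tv m) (bs m) j = ((-2 * ∑ k ∈ Ico j (bs m), wt (k - j) : ℝ) : ℂ) := by
  unfold off
  rw [mul_sum, Complex.ofReal_sum]
  refine sum_congr rfl fun k hk => ?_
  rw [mem_Ico] at hk
  have h1 : tv m (bs m, Sum.inr (k, col (k - j))) = 1 := by
    unfold tv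
    refine if_pos ⟨rfl, hk.2, ?_⟩
    unfold col
    have h2 : Nat.log 2 (k - j + 1) ≤ Nat.log 2 (bs m) := Nat.log_mono_right (by omega)
    have h3 : Nat.log 2 (bs m) = m + 1 := Nat.log_pow (by norm_num) _
    omega
  rw [h1]
  unfold alt
  rw [pow_succ, pow_mul, pow_mul]
  change ((wt (k - j) : ℝ) : ℂ) * _ = _
  push_cast
  norm_num
  ring

lemma off_alt_norm {m j : ℕ} (hj : j < 2 ^ m) : (m : ℝ) + 2 ≤ ‖off alt (tv m) (bs m) j‖ := by
  rw [off_alt, Complex.norm_real, Real.norm_eq_abs]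
  have h1 : ∑ l ∈ range (2 ^ m), wt l ≤ ∑ k ∈ Ico j (bs m), wt (k - j) := by
    rw [sum_Ico_eq_sum_range]
    simp only [add_tsub_cancel_left]
    refine sum_le_sum_of_subset_of_nonneg (range_mono ?_) fun l _ _ => (wt_pos l).le
    unfold bs
    rw [pow_succ]
    omega
  have h2 := harm m
  rw [abs_of_nonpos (by linarith [Nat.cast_nonneg (α := ℝ) m])]
  linarith

/-- the alternating symbol is not bounded -/
theorem alt_unbounded {p : ℝ} (hp1 : 1 < p) (D : ℝ) (hD : 0 ≤ D) :
    ¬ ∀ m : ℕ, lpn p (range (bs m)) (fun j => ‖off alt (tv m) (bs m) j‖) ≤ D * ((bs m : ℝ) * (m + 2)) ^ (1 / p) := by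
  intro h
  have hp0 : 0 < p := by linarith
  have key : ∀ m : ℕ, ((m : ℝ) + 2) ^ (p - 1) ≤ 2 * D ^ p := by
    intro m
    have h1 := h m
    rw [lpn_le_iff hp0 _ _ (by positivity), Real.mul_rpow hD (by positivity), ← Real.rpow_mul (by positivity), one_div_mul_cancel hp0.ne',
      Real.rpow_one] at h1
    have h2 : (2 : ℝ) ^ m * ((m : ℝ) + 2) ^ p ≤ ∑ j ∈ range (bs m), |‖off alt (tv m) (bs m) j‖| ^ p := by
      calc (2 : ℝ) ^ m * ((m : ℝ) + 2) ^ p = ∑ j ∈ range (2 ^ m), ((m : ℝ) + 2) ^ p := by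
            rw [sum_const, card_range, nsmul_eq_mul]
            push_cast
            rfl
        _ ≤ ∑ j ∈ range (2 ^ m), |‖off alt (tv m) (bs m) j‖| ^ p := by
            refine sum_le_sum fun j hj => ?_
            rw [mem_range] at hj
            rw [abs_norm]
            have := off_alt_norm hj
            gcongr
        _ ≤ _ := by
            refine sum_le_sum_of_subset_of_nonneg (range_mono ?_) fun _ _ _ => by positivity
            unfold bs
            exact Nat.pow_le_pow_right (by norm_num) (by omega)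
    have h3 := h2.trans h1
    have h4 : (bs m : ℝ) = 2 * 2 ^ m := by
      unfold bs
      push_cast
      ring
    rw [h4] at h3
    have h5 : ((m : ℝ) + 2) ^ p = ((m : ℝ) + 2) ^ (p - 1) * (m + 2) := by
      rw [← Real.rpow_add_one (by positivity)]
      congr 1
      ring
    rw [h5] at h3
    have h6 : (0 : ℝ) < 2 ^ m * (m + 2) := by positivity
    have h7 : ((m : ℝ) + 2) ^ (p - 1) * (2 ^ m * (m + 2)) ≤ (2 * D ^ p) * (2 ^ m * (m + 2)) := by
      calc _ = 2 ^ m * (((m : ℝ) + 2) ^ (p - 1) * (m + 2)) := by ring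
        _ ≤ _ := h3
        _ = _ := by ring
    exact le_of_mul_le_mul_right h7 h6
  have h1 : Tendsto (fun m : ℕ => ((m : ℝ) + 2) ^ (p - 1)) atTop atTop :=
    (tendsto_rpow_atTop (by linarith)).comp (tendsto_atTop_add_const_right _ _ tendsto_natCast_atTop_atTop)
  obtain ⟨m, hm⟩ := (h1.eventually (eventually_gt_atTop (2 * D ^ p))).exists
  linarith [key m]

lemma imPow_lam (n : ℕ) : imPow (Real.pi / Real.log 2) (lam n) = alt n := by
  unfold imPow alt
  have h1 : Complex.log (lam n) = ((-(n * Real.log 2) : ℝ) : ℂ) := by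
    rw [← Complex.ofReal_log (lam_pos n).le]
    congr 1
    unfold lam
    rw [Real.log_pow, one_div, Real.log_inv]
    ring
  have hl : Real.log 2 ≠ 0 := (Real.log_pos (by norm_num)).ne'
  have hl' : (Real.log 2 : ℂ) ≠ 0 := by exact_mod_cast hl
  rw [h1]
  have h2 : Complex.I * ((Real.pi / Real.log 2 : ℝ) : ℂ) * ((-(n * Real.log 2) : ℝ) : ℂ) = (n : ℂ) * (-(Real.pi * Complex.I)) := by
    push_cast
    field_simp
  rw [h2, Complex.exp_nat_mul, Complex.exp_neg, Complex.exp_pi_mul_I]
  norm_num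

namespace Model

variable {p : ℝ} {X : Type} [NormedAddCommGroup X] [NormedSpace ℂ X] (m : Model p X)

/-- the test vectors in `X` -/
lemma exists_tv (hp1 : 1 < p) (k : ℕ) : ∃ x, m.co x = tv k ∧ ‖x‖ ≤ m.M * ((bs k : ℝ) * (k + 2)) ^ (1 / p) := by
  obtain ⟨x, hx⟩ := m.surj (tv k) _ (tv_PN (by linarith : 0 < p) k)
  exact ⟨x, hx, m.upper _ _ fun N => by rw [hx]; exact tv_PN (by linarith) k N⟩

lemma lpn_le_norm (hp1 : 1 < p) (K : ℕ) (y : X) : lpn p (range K) (fun j => ‖m.co y (K, Sum.inl j)‖) ≤ ‖y‖ := by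
  have hp0 : 0 < p := by linarith
  refine le_trans ?_ (m.lower y (K + 1))
  unfold PN
  rw [lpn_le_iff hp0 _ _ (lpn_nonneg _ _), lpn_rpow hp0]
  have hinj : Function.Injective (fun j : ℕ => ((K, Sum.inl j) : I)) := by
    intro a b h
    simpa using h
  have h1 : ∑ j ∈ range K, |‖m.co y (K, Sum.inl j)‖| ^ p =
      ∑ i ∈ (range K).map ⟨fun j : ℕ => ((K, Sum.inl j) : I), hinj⟩, |absf (m.co y) i| ^ p := by
    rw [sum_map]
    rfl
  rw [h1]
  refine sum_le_sum_of_subset_of_nonneg ?_ fun _ _ _ => Real.rpow_nonneg (abs_nonneg _) _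
  intro i hi
  rw [Finset.mem_map] at hi
  obtain ⟨j, hj, rfl⟩ := hi
  rw [mem_range] at hj
  change (K, Sum.inl j) ∈ box (K + 1)
  rw [mem_box_iff]
  refine ⟨by omega, ?_, by simp⟩
  rintro _ ⟨rfl⟩
  omega

/-- no bounded operator acts as the alternating symbol -/
theorem no_alt (hp1 : 1 < p) (B : X →L[ℂ] X) (hB : ∀ x k j, m.co x = tv k → m.co (B x) (bs k, Sum.inl j) = off alt (tv k) (bs k) j) : False := by
  have hM := m.M_nonneg
  refine alt_unbounded hp1 (‖B‖ * m.M) (by positivity) fun k => ?_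
  obtain ⟨x, hx, hn⟩ := m.exists_tv hp1 k
  have h1 := m.lpn_le_norm hp1 (bs k) (B x)
  simp only [hB x k _ hx] at h1
  refine h1.trans ((B.le_opNorm x).trans ?_)
  rw [mul_assoc]
  gcongr

theorem no_bip [CompleteSpace X] (hp1 : 1 < p) : ¬ HasBIP (m.A hp1) := by
  intro h
  obtain ⟨B, θ, h0, h1, h2⟩ := h (Real.pi / Real.log 2)
  rw [m.angle_eq hp1] at h0
  set σ := (θ + Real.pi) / 2 with hσ
  have h3 : θ < σ := by rw [hσ]; linarith
  have h4 : σ < Real.pi := by rw [hσ]; linarith
  have hrho : rho = qf 1 1 := by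
    funext z
    unfold rho qf
    congr 1
    push_cast
    ring
  have hf1 : IsH0Inf σ rho := by
    rw [hrho]
    exact isH0' (by linarith) h4 one_pos one_pos
  have hf2 : IsH0Inf σ (fun z => rho z * imPow (Real.pi / Real.log 2) z) := by
    rw [hrho]
    exact isH0 (by linarith) h4 one_pos one_pos _
  have hne : ∀ n, rho (lam n) ≠ 0 := by
    intro n
    unfold rho
    have h5 : (lam n : ℂ) ≠ 0 := by exact_mod_cast (lam_pos n).ne'
    have h6 : (1 : ℂ) + lam n ≠ 0 := by
      have : (0 : ℝ) < 1 + lam n := by linarith [lam_pos n]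
      exact_mod_cast this.ne'
    exact div_ne_zero h5 (pow_ne_zero 2 h6)
  have key : ∀ x i, op (fun n => rho (lam n)) (m.co (B x)) i = op (fun n => rho (lam n) * alt n) (m.co x) i := by
    intro x i
    have h5 := congrArg (fun T : X →L[ℂ] X => m.co (T x) i) h2
    simp only [ContinuousLinearMap.comp_apply] at h5
    rw [m.co_funcCalc hp1 h0 h3 h4 hf1, m.co_funcCalc hp1 h0 h3 h4 hf2] at h5
    simpa only [imPow_lam] using h5
  have hinr : ∀ x K q, m.co (B x) (K, Sum.inr q) = alt (2 * q.1 + 1) * m.co x (K, Sum.inr q) := by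
    intro x K q
    have h5 := key x (K, Sum.inr q)
    rw [op_inr, op_inr, mul_assoc] at h5
    exact mul_left_cancel₀ (hne _) h5
  refine m.no_alt hp1 B fun x k j hx => ?_
  have h5 := key x (bs k, Sum.inl j)
  rw [op_inl, op_inl] at h5
  have h6 : m.co x (bs k, Sum.inl j) = 0 := by rw [hx]; rfl
  rw [h6, mul_zero, zero_add] at h5
  have h7 : off (fun n => rho (lam n)) (m.co (B x)) (bs k) j + rho (lam (2 * j)) * off alt (tv k) (bs k) j =
      off (fun n => rho (lam n) * alt n) (m.co x) (bs k) j := by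
    unfold off
    rw [mul_sum, ← sum_add_distrib]
    refine sum_congr rfl fun l _ => ?_
    rw [hinr, hx]
    ring
  have h8 : rho (lam (2 * j)) * m.co (B x) (bs k, Sum.inl j) = rho (lam (2 * j)) * off alt (tv k) (bs k) j := by
    linear_combination h5 - h7
  exact mul_left_cancel₀ (hne _) h8

theorem no_hinf [CompleteSpace X] (hp1 : 1 < p) : ¬ HasBoundedHInftyCalculus (m.A hp1) := by
  rintro ⟨σ, θ, h0, h1, h2, C, hC⟩
  rw [m.angle_eq hp1] at h0
  have hp0 : 0 < p := by linarith
  have hM := m.M_nonneg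
  obtain ⟨c, hc, hcz⟩ := exists_c' (σ := σ) (by linarith) h2
  set s := Real.pi / Real.log 2 with hs
  set B := (c ^ 2)⁻¹ * Real.exp (|s| * Real.pi) with hB
  have hB0 : 0 ≤ B := by positivity
  have hsup : ∀ δ : ℝ, 0 < δ → ∀ z ∈ sector σ, ‖qf δ δ z * imPow s z‖ ≤ B := by
    intro δ hδ z hz
    obtain ⟨-, -, h3⟩ := qf_bounds h2 hc hcz hδ hδ hz
    rw [norm_mul]
    have h4 : ‖z‖ / ((‖z‖ + δ) * (1 + δ * ‖z‖)) ≤ 1 := by
      rw [div_le_one (by positivity)]
      have : 0 ≤ ‖z‖ := norm_nonneg z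
      nlinarith [mul_nonneg this this, mul_nonneg hδ.le this]
    refine mul_le_mul (h3.trans ?_) (imPow_norm s hz.1) (norm_nonneg _) (by positivity)
    calc _ ≤ (c ^ 2)⁻¹ * 1 := by gcongr
      _ = _ := mul_one _
  have hC0 : 0 ≤ C * B := by
    have h3 := hC _ (isH0 (by linarith) h2 one_pos one_pos s) B (hsup 1 one_pos)
    exact (norm_nonneg _).trans h3
  refine alt_unbounded hp1 (C * B * m.M) (by positivity) fun k => ?_
  obtain ⟨x, hx, hn⟩ := m.exists_tv hp1 k
  have hδ : ∀ δ : ℝ, 0 < δ → lpn p (range (bs k)) (fun j => ‖off (fun n => qf δ δ (lam n) * alt n) (tv k) (bs k) j‖) ≤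
      C * B * m.M * ((bs k : ℝ) * (k + 2)) ^ (1 / p) := by
    intro δ hδ
    have h3 := hC _ (isH0 (by linarith) h2 hδ hδ s) B (hsup δ hδ)
    have h4 := m.lpn_le_norm hp1 (bs k) (funcCalc (m.A hp1) θ (fun z => qf δ δ z * imPow s z) x)
    have h5 : ∀ j, m.co (funcCalc (m.A hp1) θ (fun z => qf δ δ z * imPow s z) x) (bs k, Sum.inl j) =
        off (fun n => qf δ δ (lam n) * alt n) (tv k) (bs k) j := by
      intro j
      rw [m.co_funcCalc hp1 h0 h1 h2 (isH0 (by linarith) h2 hδ hδ s), op_inl, hx]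
      have h6 : tv k (bs k, Sum.inl j) = 0 := rfl
      rw [h6, mul_zero, zero_add]
      simp only [hs, imPow_lam]
    simp only [h5] at h4
    refine h4.trans ((ContinuousLinearMap.le_opNorm _ x).trans ?_)
    rw [mul_assoc (C * B)]
    gcongr
  have hlim : ∀ n, Tendsto (fun δ : ℝ => qf δ δ (lam n) * alt n) (𝓝[>] 0) (𝓝 (alt n)) := by
    intro n
    have h5 : (lam n : ℂ) ≠ 0 := by exact_mod_cast (lam_pos n).ne'
    have h3 : Tendsto (fun δ : ℝ => qf δ δ (lam n) * alt n) (𝓝 0) (𝓝 (qf 0 0 (lam n) * alt n)) := by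
      have h4 : ContinuousAt (fun δ : ℝ => qf δ δ (lam n) * alt n) 0 := by
        unfold qf
        refine ContinuousAt.mul (ContinuousAt.div (by fun_prop) (by fun_prop) ?_) (by fun_prop)
        simpa using h5
      exact h4.tendsto
    have h4 : qf 0 0 (lam n) = 1 := by
      unfold qf
      simp [h5]
    rw [h4, one_mul] at h3
    exact h3.mono_left nhdsWithin_le_nhds
  have hoff : ∀ j, Tendsto (fun δ : ℝ => ‖off (fun n => qf δ δ (lam n) * alt n) (tv k) (bs k) j‖) (𝓝[>] 0) (𝓝 ‖off alt (tv k) (bs k) j‖) := by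
    intro j
    refine Tendsto.norm ?_
    unfold off
    refine tendsto_finsetSum _ fun l _ => ?_
    exact (((hlim _).sub (hlim _)).mul_const _).const_mul _
  have htot : Tendsto (fun δ : ℝ => lpn p (range (bs k)) (fun j => ‖off (fun n => qf δ δ (lam n) * alt n) (tv k) (bs k) j‖)) (𝓝[>] 0)
      (𝓝 (lpn p (range (bs k)) (fun j => ‖off alt (tv k) (bs k) j‖))) :=
    ((lpn_cont hp0 _).tendsto _).comp (tendsto_pi_nhds.2 hoff)
  exact le_of_tendsto htot (eventually_nhdsWithin_of_forall fun δ hδ' => hδ δ hδ')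

end Model

end

end Pool.Agent.H716R3
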