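import Pool.Agent.H716R3.Model

/-! Sectoriality of the model operator. -/

open Finset Pool.Agent.Helper604.UMD Filter Topology
open scoped NNReal

namespace Pool.Agent.H716R3

noncomputable section

lemma exists_c {ω : ℝ} (h0 : 0 < ω) (h1 : ω ≤ Real.pi) : ∃ c : ℝ, 0 < c ∧ ∀ z : ℂ, ω ≤ |Complex.arg z| →
    ∀ s : ℝ, 0 ≤ s → c * (‖z‖ + s) ≤ ‖z - s‖ := by
  have hcos : Real.cos ω < 1 := by
    rw [← Real.cos_zero]
    exact Real.cos_lt_cos_of_nonneg_of_le_pi le_rfl h1 h0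
  refine ⟨Real.sqrt ((1 - Real.cos ω) / 2), Real.sqrt_pos.2 (by linarith), fun z hz s hs => ?_⟩
  have h2 : z.re ≤ Real.cos ω * ‖z‖ := by
    rw [← Complex.norm_mul_cos_arg z, mul_comm, ← Real.cos_abs (Complex.arg z)]
    gcongr
    exact Real.cos_le_cos_of_nonneg_of_le_pi h0.le (Complex.abs_arg_le_pi z) hz
  have h3 := dist_half z (Real.neg_one_le_cos ω) h2 hs
  refine abs_le_of_sq_le_sq' ?_ (norm_nonneg _) |>.2
  rw [mul_pow, Real.sq_sqrt (by linarith)]
  exact h3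

lemma zero_mem_closure {ω : ℝ} (h0 : 0 < ω) : (0 : ℂ) ∈ closure (sector ω) := by
  rw [Metric.mem_closure_iff]
  intro ε hε
  refine ⟨((ε / 2 : ℝ) : ℂ), ⟨?_, ?_⟩, ?_⟩
  · exact_mod_cast (half_pos hε).ne'
  · rw [Complex.arg_ofReal_of_nonneg (half_pos hε).le, abs_zero]
    exact h0
  · rw [dist_zero_left, Complex.norm_real, Real.norm_of_nonneg (half_pos hε).le]
    linarith

lemma of_not_mem {ω : ℝ} (h0 : 0 < ω) {z : ℂ} (hz : z ∉ closure (sector ω)) : z ≠ 0 ∧ ω ≤ |Complex.arg z| := by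
  have h1 : z ≠ 0 := by
    rintro rfl
    exact hz (zero_mem_closure h0)
  refine ⟨h1, ?_⟩
  by_contra h
  exact hz (subset_closure ⟨h1, not_le.1 h⟩)

lemma res_eq {X : Type*} [NormedAddCommGroup X] [NormedSpace ℂ X] {A : X →ₗ.[ℂ] X} {z : ℂ} {R : X →L[ℂ] X}
    (h : IsResolvent A z R) : res A z = R := by
  unfold res
  have hex : ∃ R, IsResolvent A z R := ⟨R, h⟩
  rw [dif_pos hex]
  ext x
  obtain ⟨h1, h2⟩ := h.1 x
  have h3 := hex.choose_spec.2 ⟨R x, h1⟩
  have h4 : z • ((⟨R x, h1⟩ : A.domain) : X) - A ⟨R x, h1⟩ = x := h2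
  rw [h4] at h3
  exact h3

namespace Model

variable {p : ℝ} {X : Type} [NormedAddCommGroup X] [NormedSpace ℂ X] (m : Model p X)

lemma isRes (hp1 : 1 < p) {z : ℂ} {c : ℝ} (hc : 0 < c) (hz : z ≠ 0) (h : ∀ s : ℝ, 0 ≤ s → c * (‖z‖ + s) ≤ ‖z - s‖) :
    IsResolvent (m.A hp1) z (m.Op hp1 (symR z)) := by
  have hR := BV.symR hc hz h
  have hne : ∀ n, z - (lam n : ℂ) ≠ 0 := fun n => by
    have := h _ (lam_pos n).le
    have h1 : 0 < c * (‖z‖ + lam n) := mul_pos hc (by linarith [lam_pos n, norm_nonneg z])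
    exact norm_pos_iff.1 (h1.trans_le this)
  have e1 : z • symR z - symA * symR z = 1 := by
    funext n
    simp only [Pi.sub_apply, Pi.smul_apply, Pi.mul_apply, symA, symR, smul_eq_mul, Pi.one_apply]
    rw [← sub_mul, mul_inv_cancel₀ (hne n)]
  have e2 : z • symR z - symR z * symA = 1 := by rw [mul_comm (symR z) symA, e1]
  constructor
  · intro x
    refine ⟨Submodule.mem_top, ?_⟩
    have h1 := m.Op_sub hp1 (hR.smul z) (BV.symA.mul hR)
    rw [e1, m.Op_one, m.Op_smul hp1 hR, m.Op_mul hp1 BV.symA hR] at h1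
    have h2 := congrArg (fun T : X →L[ℂ] X => T x) h1
    simp only [ContinuousLinearMap.id_apply, sub_apply, smul_apply, ContinuousLinearMap.comp_apply] at h2
    exact h2.symm
  · rintro ⟨x, hx⟩
    have h1 := m.Op_sub hp1 (hR.smul z) (hR.mul BV.symA)
    rw [e2, m.Op_one, m.Op_smul hp1 hR, m.Op_mul hp1 hR BV.symA] at h1
    have h2 := congrArg (fun T : X →L[ℂ] X => T x) h1
    simp only [ContinuousLinearMap.id_apply, sub_apply, smul_apply, ContinuousLinearMap.comp_apply] at h2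
    rw [m.A_apply, map_sub, map_smul]
    exact h2.symm

lemma res_A (hp1 : 1 < p) {z : ℂ} {c : ℝ} (hc : 0 < c) (hz : z ≠ 0) (h : ∀ s : ℝ, 0 ≤ s → c * (‖z‖ + s) ≤ ‖z - s‖) :
    res (m.A hp1) z = m.Op hp1 (symR z) := res_eq (m.isRes hp1 hc hz h)

lemma res_norm (hp1 : 1 < p) {z : ℂ} {c : ℝ} (hc0 : 0 < c) (hz : z ≠ 0) (h : ∀ s : ℝ, 0 ≤ s → c * (‖z‖ + s) ≤ ‖z - s‖) :
    ‖res (m.A hp1) z‖ ≤ m.M * (c⁻¹ + (c ^ 2)⁻¹ * hc p) * ‖z‖⁻¹ := by
  rw [m.res_A hp1 hc0 hz h]
  refine (m.Op_norm hp1 (BV.symR hc0 hz h)).trans (le_of_eq ?_)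
  ring

lemma sectorial_angle (hp1 : 1 < p) {ω : ℝ} (h0 : 0 < ω) (h1 : ω ≤ Real.pi) : IsSectorialOfAngle (m.A hp1) ω := by
  obtain ⟨c, hc0, hc1⟩ := exists_c h0 h1
  constructor
  · intro z hz
    obtain ⟨hz0, hz1⟩ := of_not_mem h0 hz
    exact ⟨_, m.isRes hp1 hc0 hz0 (hc1 z hz1)⟩
  · intro ε hε
    refine ⟨m.M * (c⁻¹ + (c ^ 2)⁻¹ * hc p), fun z hz => ?_⟩
    obtain ⟨hz0, hz1⟩ := of_not_mem (by linarith : 0 < ω + ε) hz
    rw [norm_smul]
    have h2 := m.res_norm hp1 hc0 hz0 (hc1 z (by linarith))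
    have h3 : 0 < ‖z‖ := norm_pos_iff.2 hz0
    calc ‖z‖ * ‖res (m.A hp1) z‖ ≤ ‖z‖ * (m.M * (c⁻¹ + (c ^ 2)⁻¹ * hc p) * ‖z‖⁻¹) := by gcongr
      _ = _ := by field_simp

lemma angle_eq (hp1 : 1 < p) : sectorialAngle (m.A hp1) = 0 := by
  unfold sectorialAngle
  have hb : BddBelow {ω : ℝ | 0 < ω ∧ ω < Real.pi ∧ IsSectorialOfAngle (m.A hp1) ω} := ⟨0, fun ω h => h.1.le⟩
  apply le_antisymm
  · apply le_of_forall_pos_le_add
    intro ε hε
    rw [zero_add]
    have hpi := Real.pi_pos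
    refine (csInf_le hb ⟨?_, ?_, m.sectorial_angle hp1 (ω := min ε (Real.pi / 2)) ?_ ?_⟩).trans (min_le_left _ _)
    · positivity
    · exact (min_le_right _ _).trans_lt (by linarith)
    · positivity
    · exact (min_le_right _ _).trans (by linarith)
  · apply le_csInf
    · have hpi := Real.pi_pos
      exact ⟨Real.pi / 2, by positivity, by linarith, m.sectorial_angle hp1 (by positivity) (by linarith)⟩
    · intro ω h
      exact h.1.le

lemma A_closed (hp1 : 1 < p) : (m.A hp1).IsClosed := by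
  have h : ((m.A hp1).graph : Set (X × X)) = {q : X × X | m.Ab hp1 q.1 = q.2} := by
    ext q
    simp only [SetLike.mem_coe, LinearPMap.mem_graph_iff, Set.mem_ofPred_eq]
    constructor
    · rintro ⟨y, h1, h2⟩
      rw [← h1, ← h2]
      rfl
    · intro h
      exact ⟨⟨q.1, Submodule.mem_top⟩, rfl, h⟩
  change IsClosed ((m.A hp1).graph : Set (X × X))
  rw [h]
  exact isClosed_eq (by fun_prop) (by fun_prop)

/-- truncations -/
lemma trunc (hp1 : 1 < p) (x : X) {ε : ℝ} (hε : 0 < ε) : ∃ N, ∃ y : X,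
    (m.co y = fun i => if i ∈ box N then m.co x i else 0) ∧ ‖x - y‖ ≤ ε := by
  classical
  have hp0 : 0 < p := by linarith
  set s : ℕ → ℝ := fun N => ∑ i ∈ box N, |absf (m.co x) i| ^ p with hs
  have hmono : Monotone s := fun N N' h => sum_le_sum_of_subset_of_nonneg (box_mono h) fun _ _ _ => by positivity
  have hbdd : BddAbove (Set.range s) := by
    refine ⟨‖x‖ ^ p, ?_⟩
    rintro _ ⟨N, rfl⟩
    have := m.lower x N
    rw [PN, lpn_le_iff hp0 _ _ (norm_nonneg _)] at this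
    exact this
  have hlim := tendsto_atTop_ciSup hmono hbdd
  set δ : ℝ := ε / (m.M + 1) with hδ
  have hM := m.M_nonneg
  have hδ0 : 0 < δ := by positivity
  have hδp : 0 < δ ^ p := Real.rpow_pos_of_pos hδ0 _
  obtain ⟨N, hN⟩ := (hlim.eventually (lt_mem_nhds (sub_lt_self (iSup s) hδp))).exists
  have hy : ∀ N', PN p N' (absf (fun i => if i ∈ box N then m.co x i else 0)) ≤ ‖x‖ := by
    intro N'
    refine le_trans ?_ (m.lower x N')
    refine lpn_mono hp0 _ fun i _ => ?_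
    unfold absf
    rw [abs_norm, abs_norm]
    by_cases hi : i ∈ box N
    · simp only [hi, if_true]; exact le_rfl
    · simp only [hi, if_false, norm_zero]; exact norm_nonneg _
  obtain ⟨y, hy⟩ := m.surj _ _ hy
  refine ⟨N, y, hy, ?_⟩
  have h1 : ∀ N', PN p N' (absf (m.co (x - y))) ≤ δ := by
    intro N'
    have h2 : PN p N' (absf (m.co (x - y))) ≤ PN p (max N N') (absf (m.co (x - y))) :=
      lpn_subset hp0 (box_mono (le_max_right _ _)) _
    refine h2.trans ?_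
    rw [PN, lpn_le_iff hp0 _ _ hδ0.le, map_sub, hy]
    have h3 : ∑ i ∈ box (max N N'), |absf (m.co x - fun i => if i ∈ box N then m.co x i else 0) i| ^ p =
        s (max N N') - s N := by
      rw [hs]
      simp only
      rw [← sum_sdiff (box_mono (le_max_left N N')), ← sum_sdiff (box_mono (le_max_left N N')) (f := fun i => |absf (m.co x) i| ^ p)]
      have h4 : ∑ i ∈ box N, |absf (m.co x - fun i => if i ∈ box N then m.co x i else 0) i| ^ p = 0 := by
        refine sum_eq_zero fun i hi => ?_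
        simp [absf, hi, Real.zero_rpow hp0.ne']
      have h5 : ∑ i ∈ box (max N N') \ box N, |absf (m.co x - fun i => if i ∈ box N then m.co x i else 0) i| ^ p =
          ∑ i ∈ box (max N N') \ box N, |absf (m.co x) i| ^ p := by
        refine sum_congr rfl fun i hi => ?_
        rw [Finset.mem_sdiff] at hi
        simp [absf, hi.2]
      rw [h4, h5]
      ring
    rw [h3]
    have h6 := le_ciSup hbdd (max N N')
    linarith
  refine (m.upper _ _ h1).trans ?_
  rw [hδ]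
  rw [mul_div_assoc']
  rw [div_le_iff₀ (by positivity)]
  nlinarith

lemma op_supp {g : ℕ → ℂ} {N : ℕ} {w : I → ℂ} (hw : ∀ i, i ∉ box N → w i = 0) (i : I) (hi : i ∉ box N) : op g w i = 0 := by
  obtain ⟨K, i⟩ := i
  rcases i with j | q
  · rw [op_inl, hw _ hi, mul_zero, zero_add]
    unfold off
    refine sum_eq_zero fun k hk => ?_
    rw [mem_Ico] at hk
    rw [mem_box_iff] at hi
    rw [hw _ ?_, mul_zero, mul_zero]
    rw [mem_box_iff]
    rintro ⟨hK, -, h⟩
    have := h _ rfl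
    apply hi
    refine ⟨hK, ?_, by simp⟩
    rintro _ ⟨rfl⟩
    omega
  · rw [op_inr, hw _ hi, mul_zero]

lemma mem_of_supp (hp1 : 1 < p) {N : ℕ} {w : I → ℂ} (hw : ∀ i, i ∉ box N → w i = 0) : ∃ x, m.co x = w := by
  have hp0 : 0 < p := by linarith
  refine m.surj w (PN p N (absf w)) fun N' => ?_
  have h2 : PN p N' (absf w) ≤ PN p (max N N') (absf w) := lpn_subset hp0 (box_mono (le_max_right _ _)) _
  refine h2.trans (le_of_eq ?_)
  unfold PN lpn
  congr 1
  symm
  refine sum_subset (box_mono (le_max_left _ _)) fun i _ hi => ?_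
  rw [absf, hw i hi, norm_zero, abs_zero, Real.zero_rpow hp0.ne']

lemma dense_range (hp1 : 1 < p) : Dense (LinearMap.range (m.A hp1).toFun : Set X) := by
  intro x
  rw [Metric.mem_closure_iff]
  intro ε hε
  obtain ⟨N, y, hy, hxy⟩ := m.trunc hp1 x (half_pos hε)
  have hw : ∀ i, i ∉ box N → m.co y i = 0 := by
    intro i hi
    rw [hy]
    exact if_neg hi
  obtain ⟨z, hz⟩ := m.mem_of_supp hp1 (N := N) (op_supp (g := fun n => ((lam n)⁻¹ : ℂ)) hw)
  refine ⟨y, ⟨⟨z, Submodule.mem_top⟩, ?_⟩, ?_⟩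
  · change m.Ab hp1 z = y
    apply m.inj hp1
    unfold Ab
    rw [m.co_Op hp1 BV.symA, hz, ← op_mul]
    have e : (symA * fun n => ((lam n)⁻¹ : ℂ)) = 1 := by
      funext n
      have : (lam n : ℂ) ≠ 0 := by exact_mod_cast (lam_pos n).ne'
      simp only [Pi.mul_apply, symA, Pi.one_apply]
      exact mul_inv_cancel₀ this
    rw [e, op_one]
  · rw [dist_eq_norm]
    linarith

theorem isSectorial (hp1 : 1 < p) : IsSectorial (m.A hp1) := by
  refine ⟨m.A_closed hp1, ?_, m.dense_range hp1, ?_⟩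
  · have : ((m.A hp1).domain : Set X) = Set.univ := rfl
    rw [this]
    exact dense_univ
  · have hpi := Real.pi_pos
    exact ⟨Real.pi / 2, by positivity, by linarith, m.sectorial_angle hp1 (by positivity) (by linarith)⟩

end Model

end

end Pool.Agent.H716R3
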