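import Pool.Agent.H716R3.Defs2
import Pool.Agent.H716R3.Sec

/-! Failure of `R`-sectoriality for `p = 4`. -/

open Finset Pool.Agent.Helper604.UMD Filter Topology MeasureTheory
open scoped NNReal

namespace Pool.Agent.H716R3

noncomputable section

/-- sign -/
def sg (b : Bool) : ℝ := if b then 1 else -1

lemma sg_mul_self (b : Bool) : sg b * sg b = 1 := by cases b <;> simp [sg]
lemma sg_not (b : Bool) : sg (!b) = -sg b := by cases b <;> simp [sg]
lemma abs_sg (b : Bool) : |sg b| = 1 := by cases b <;> simp [sg]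

lemma sum_sg_mul {ι : Type} [Fintype ι] [DecidableEq ι] {k l : ι} (h : k ≠ l) : ∑ ε : ι → Bool, sg (ε k) * sg (ε l) = 0 := by
  let e : (ι → Bool) ≃ (ι → Bool) := Function.Involutive.toPerm (fun ε => Function.update ε k (!ε k)) (by
    intro ε
    funext i
    by_cases hi : i = k
    · subst hi
      simp
    · simp [hi])
  have h1 : ∑ ε : ι → Bool, sg (ε k) * sg (ε l) = ∑ ε : ι → Bool, sg (e ε k) * sg (e ε l) := (Equiv.sum_comp e fun ε => sg (ε k) * sg (ε l)).symm
  have h2 : ∀ ε : ι → Bool, sg (e ε k) * sg (e ε l) = -(sg (ε k) * sg (ε l)) := by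
    intro ε
    have h3 : e ε k = !ε k := by simp [e]
    have h4 : e ε l = ε l := by simp [e, h.symm]
    rw [h3, h4, sg_not]
    ring
  simp only [h2, sum_neg_distrib] at h1
  linarith

lemma rad_orth_real {ι : Type} [Fintype ι] [DecidableEq ι] (y : ι → ℝ) :
    ∑ ε : ι → Bool, (∑ k, sg (ε k) * y k) ^ 2 = (2 : ℝ) ^ Fintype.card ι * ∑ k, y k ^ 2 := by
  have h1 : ∀ ε : ι → Bool, (∑ k, sg (ε k) * y k) ^ 2 = ∑ k, ∑ l, (sg (ε k) * sg (ε l)) * (y k * y l) := by
    intro ε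
    rw [pow_two, sum_mul_sum]
    refine sum_congr rfl fun k _ => sum_congr rfl fun l _ => ?_
    ring
  simp only [h1]
  rw [sum_comm]
  have h2 : ∀ k, ∑ ε : ι → Bool, ∑ l, (sg (ε k) * sg (ε l)) * (y k * y l) = (2 : ℝ) ^ Fintype.card ι * y k ^ 2 := by
    intro k
    rw [sum_comm]
    simp only [← sum_mul]
    rw [sum_eq_single k]
    · simp only [sg_mul_self, sum_const, card_univ, Fintype.card_pi, Fintype.card_bool, prod_const, nsmul_eq_mul]
      push_cast
      ring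
    · intro l _ hl
      rw [sum_sg_mul (Ne.symm hl), zero_mul]
    · simp
  simp only [h2, ← mul_sum]

/-- symbol of `t (t + A)⁻¹` -/
def symS (t : ℝ) (n : ℕ) : ℝ := t / (t + lam n)

lemma symS_mono {t : ℝ} (ht : 0 < t) {a b : ℕ} (h : a ≤ b) : symS t a ≤ symS t b := by
  have h1 : lam b ≤ lam a := by
    induction b, h using Nat.le_induction with
    | base => exact le_rfl
    | succ b _ ih => exact (lam_anti b).trans ih
  unfold symS
  have := lam_pos b
  gcongr

lemma symS_jump (m : ℕ) : symS (lam (2 * m)) (2 * m + 1) - symS (lam (2 * m)) (2 * m) = 1 / 6 := by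
  unfold symS
  rw [lam_succ]
  have := lam_pos (2 * m)
  field_simp
  norm_num

/-- the coloured test vectors: colour `s`, position `m` -/
def wv (K s m : ℕ) : I → ℂ := fun i => match i with
  | (K', Sum.inr (k, c)) => if K' = K ∧ c = s ∧ k < K ∧ 2 ^ s ∣ m ∧ m ≤ k ∧ k < m + 2 ^ (s + 1) then 1 else 0
  | (_, Sum.inl _) => 0

lemma wv_off_nonneg_term {t : ℝ} (ht : 0 < t) (K s m j k : ℕ) (hjk : j ≤ k) :
    0 ≤ wt (k - j) * ((symS t (2 * k + 1) - symS t (2 * j)) * (if K = K ∧ col (k - j) = s ∧ k < K ∧ 2 ^ s ∣ m ∧ m ≤ k ∧ k < m + 2 ^ (s + 1) then (1 : ℝ) else 0)) := by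
  have h1 := symS_mono ht (by omega : 2 * j ≤ 2 * k + 1)
  refine mul_nonneg (wt_pos _).le (mul_nonneg (by linarith) ?_)
  split_ifs <;> norm_num

/-- lower bound for the action on the test vectors -/
lemma off_wv {K s m j : ℕ} (hm : 2 ^ s ∣ m) (h1 : j ≤ m) (h2 : m < j + 2 ^ s) (h3 : j + 2 ^ (s + 1) ≤ K) :
    1 / 12 ≤ (off (fun n => (symS (lam (2 * m)) n : ℂ)) (wv K s m) K j).re := by
  set t := lam (2 * m) with ht
  have ht0 : 0 < t := lam_pos _
  have e : off (fun n => (symS t n : ℂ)) (wv K s m) K j =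
      ((∑ k ∈ Ico j K, wt (k - j) * ((symS t (2 * k + 1) - symS t (2 * j)) *
        (if K = K ∧ col (k - j) = s ∧ k < K ∧ 2 ^ s ∣ m ∧ m ≤ k ∧ k < m + 2 ^ (s + 1) then (1 : ℝ) else 0)) : ℝ) : ℂ) := by
    unfold off
    rw [Complex.ofReal_sum]
    refine sum_congr rfl fun k _ => ?_
    simp only [wv]
    split_ifs <;> push_cast <;> simp
  rw [e, Complex.ofReal_re]
  have hsub : Ico (j + (2 ^ s - 1)) (j + (2 ^ (s + 1) - 1)) ⊆ Ico j K := by
    intro k hk
    rw [mem_Ico] at hk ⊢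
    have : 0 < 2 ^ s := by positivity
    omega
  refine le_trans ?_ (sum_le_sum_of_subset_of_nonneg hsub fun k hk _ => wv_off_nonneg_term ht0 K s m j k (mem_Ico.1 hk).1)
  have hps : 2 ^ (s + 1) = 2 * 2 ^ s := by ring
  have hp : 0 < 2 ^ s := by positivity
  have hterm : ∀ k ∈ Ico (j + (2 ^ s - 1)) (j + (2 ^ (s + 1) - 1)), ((2 : ℝ) ^ (s + 1))⁻¹ * (1 / 6) ≤
      wt (k - j) * ((symS t (2 * k + 1) - symS t (2 * j)) *
        (if K = K ∧ col (k - j) = s ∧ k < K ∧ 2 ^ s ∣ m ∧ m ≤ k ∧ k < m + 2 ^ (s + 1) then (1 : ℝ) else 0)) := by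
    intro k hk
    rw [mem_Ico] at hk
    have hcol : col (k - j) = s := by
      unfold col
      rw [Nat.log_eq_iff (Or.inr ⟨by norm_num, by omega⟩)]
      constructor <;> omega
    rw [if_pos ⟨rfl, hcol, by omega, hm, by omega, by omega⟩, mul_one]
    have h4 : 1 / 6 ≤ symS t (2 * k + 1) - symS t (2 * j) := by
      have h5 := symS_jump m
      rw [← ht] at h5
      have h6 := symS_mono ht0 (by omega : 2 * m + 1 ≤ 2 * k + 1)
      have h7 := symS_mono ht0 (by omega : 2 * j ≤ 2 * m)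
      linarith
    have h8 : ((2 : ℝ) ^ (s + 1))⁻¹ ≤ wt (k - j) := by
      unfold wt
      refine inv_anti₀ (by positivity) ?_
      have : k - j + 1 ≤ 2 ^ (s + 1) := by omega
      exact_mod_cast this
    have h9 := (wt_pos (k - j)).le
    gcongr
  calc (1 : ℝ) / 12 = ∑ k ∈ Ico (j + (2 ^ s - 1)) (j + (2 ^ (s + 1) - 1)), ((2 : ℝ) ^ (s + 1))⁻¹ * (1 / 6) := by
        rw [sum_const, Nat.card_Ico, nsmul_eq_mul]
        have h4 : j + (2 ^ (s + 1) - 1) - (j + (2 ^ s - 1)) = 2 ^ s := by omega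
        rw [h4, pow_succ]
        push_cast
        field_simp
        norm_num
    _ ≤ _ := sum_le_sum hterm

/-- number of positions seen by a coordinate -/
lemma count_pos (K s k : ℕ) : (filter (fun m => 2 ^ s ∣ m ∧ m ≤ k ∧ k < m + 2 ^ (s + 1)) (range K)).card ≤ 2 := by
  have h : filter (fun m => 2 ^ s ∣ m ∧ m ≤ k ∧ k < m + 2 ^ (s + 1)) (range K) ⊆ {2 ^ s * (k / 2 ^ s), 2 ^ s * (k / 2 ^ s - 1)} := by
    intro m hm
    rw [mem_filter] at hm
    obtain ⟨-, ⟨b, rfl⟩, h1, h2⟩ := hm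
    have hp : 0 < 2 ^ s := by positivity
    have h3 : b ≤ k / 2 ^ s := by
      rw [Nat.le_div_iff_mul_le hp]
      linarith
    have h4 : k / 2 ^ s < b + 2 := by
      rw [Nat.div_lt_iff_lt_mul hp]
      calc k < 2 ^ s * b + 2 ^ (s + 1) := h2
        _ = _ := by ring
    rw [mem_insert, mem_singleton]
    rcases (by omega : b = k / 2 ^ s ∨ b = k / 2 ^ s - 1) with h5 | h5
    · left; rw [h5]
    · right; rw [h5]
  exact (card_le_card h).trans (card_le_two)

end

end Pool.Agent.H716R3
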