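import Pool.Agent.H716R3.Rad
import Pool.Agent.H716R3.Neg

/-! Failure of `R`-sectoriality for `p > 2`. -/

open Finset Pool.Agent.Helper604.UMD Filter Topology MeasureTheory
open scoped NNReal

namespace Pool.Agent.H716R3

noncomputable section

lemma wv_supp {K S s m : ℕ} (hs : s < S) (i : I) (hi : i ∉ box (K + S + 1)) : wv K s m i = 0 := by
  obtain ⟨K', i⟩ := i
  rcases i with j | ⟨k, c⟩
  · rfl
  · unfold wv
    rw [mem_box_iff] at hi
    refine if_neg ?_
    rintro ⟨h1, h2, h3, -⟩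
    apply hi
    refine ⟨by omega, by simp, ?_⟩
    rintro _ ⟨rfl⟩
    constructor <;> simp only <;> omega

/-- the coordinates seen by the test vectors -/
def seen (K S : ℕ) : Finset I := (range K ×ˢ range S).image fun q => (K, Sum.inr q)

lemma card_seen (K S : ℕ) : (seen K S).card ≤ K * S := by
  unfold seen
  refine card_image_le.trans ?_
  rw [card_product, card_range, card_range]

lemma wv_seen {K S s m : ℕ} (hs : s < S) (i : I) (hi : i ∉ seen K S) : wv K s m i = 0 := by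
  obtain ⟨K', i⟩ := i
  rcases i with j | ⟨k, c⟩
  · rfl
  · unfold wv
    refine if_neg ?_
    rintro ⟨h1, h2, h3, -⟩
    apply hi
    unfold seen
    rw [Finset.mem_image]
    refine ⟨(k, c), ?_, by rw [h1]⟩
    rw [mem_product, mem_range, mem_range]
    exact ⟨h3, by simp only; omega⟩

/-- each coordinate is covered at most twice -/
lemma wv_sum (K S : ℕ) (i : I) : ∑ q : Fin S × Fin K, ‖wv K q.1 q.2 i‖ ≤ 2 := by
  obtain ⟨K', i⟩ := i
  rcases i with j | ⟨k, c⟩
  · simp [wv]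
  · rw [Fintype.sum_prod_type]
    have h1 : ∀ s : Fin S, ∑ m : Fin K, ‖wv K s m (K', Sum.inr (k, c))‖ ≤ if (s : ℕ) = c then 2 else 0 := by
      intro s
      split_ifs with hs
      · rw [Fin.sum_univ_eq_sum_range (fun m => ‖wv K s m (K', Sum.inr (k, c))‖) K]
        have h2 : ∀ m ∈ range K, ‖wv K s m (K', Sum.inr (k, c))‖ ≤ if (2 ^ (s : ℕ) ∣ m ∧ m ≤ k ∧ k < m + 2 ^ ((s : ℕ) + 1)) then (1 : ℝ) else 0 := by
          intro m _
          simp only [wv]
          split_ifs with h3 h4 h4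
          · simp
          · exact absurd ⟨h3.2.2.2.1, h3.2.2.2.2.1, h3.2.2.2.2.2⟩ h4
          · simp
          · simp
        refine (sum_le_sum h2).trans ?_
        rw [sum_ite, sum_const_zero, add_zero, sum_const, nsmul_eq_mul, mul_one]
        exact_mod_cast count_pos K s k
      · refine le_of_eq (sum_eq_zero fun m _ => ?_)
        simp only [wv]
        rw [if_neg, norm_zero]
        rintro ⟨-, h, -⟩
        exact hs h.symm
    refine (sum_le_sum fun s _ => h1 s).trans ?_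
    rw [Fin.sum_univ_eq_sum_range (fun s => if s = c then (2 : ℝ) else 0) S, sum_ite_eq']
    split_ifs <;> norm_num

namespace Model

variable {p : ℝ} {X : Type} [NormedAddCommGroup X] [NormedSpace ℂ X] (m : Model p X)

lemma upper_seen (hp1 : 1 < p) (K S : ℕ) (y : X) (h1 : ∀ i, i ∉ seen K S → m.co y i = 0) (h2 : ∀ i, ‖m.co y i‖ ≤ 2) :
    ‖y‖ ≤ m.M * (2 * ((K : ℝ) * S) ^ (1 / p)) := by
  have hp0 : 0 < p := by linarith
  refine m.upper _ _ fun N => ?_
  have e : 2 * ((K : ℝ) * S) ^ (1 / p) = (2 ^ p * ((K : ℝ) * S)) ^ (1 / p) := by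
    rw [Real.mul_rpow (x := 2 ^ p) (by positivity) (by positivity), ← Real.rpow_mul (by norm_num), mul_one_div_cancel hp0.ne', Real.rpow_one]
  rw [e]
  unfold PN lpn
  refine Real.rpow_le_rpow (sum_nonneg fun _ _ => by positivity) ?_ (by positivity)
  classical
  calc ∑ i ∈ box N, |absf (m.co y) i| ^ p ≤ ∑ i ∈ box N ∪ seen K S, |absf (m.co y) i| ^ p :=
        sum_le_sum_of_subset_of_nonneg subset_union_left fun _ _ _ => by positivity
    _ = ∑ i ∈ seen K S, |absf (m.co y) i| ^ p := by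
        symm
        refine sum_subset subset_union_right fun i _ hi => ?_
        rw [absf, h1 i hi, norm_zero, abs_zero, Real.zero_rpow hp0.ne']
    _ ≤ ∑ i ∈ seen K S, (2 : ℝ) ^ p := by
        refine sum_le_sum fun i _ => ?_
        rw [absf, abs_norm]
        exact Real.rpow_le_rpow (norm_nonneg _) (h2 i) hp0.le
    _ ≤ 2 ^ p * ((K : ℝ) * S) := by
        rw [sum_const, nsmul_eq_mul, mul_comm]
        have : ((seen K S).card : ℝ) ≤ (K : ℝ) * S := by exact_mod_cast card_seen K S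
        gcongr

lemma lower_sq (hp2 : 2 < p) {N K : ℕ} (hNK : N ≤ K) (hN : 0 < N) (y : X) :
    ∑ j ∈ range N, (m.co y (K, Sum.inl j)).re ^ 2 ≤ (N : ℝ) ^ (1 - 2 / p) * ‖y‖ ^ 2 := by
  have hp1 : 1 < p := by linarith
  have hp0 : 0 < p := by linarith
  have h1 := m.lpn_le_norm hp1 K y
  have h2 : lpn p (range N) (fun j => ‖m.co y (K, Sum.inl j)‖) ≤ ‖y‖ := (lpn_subset hp0 (range_mono hNK) _).trans h1
  have h3 : ∑ j ∈ range N, (m.co y (K, Sum.inl j)).re ^ 2 ≤ ∑ j ∈ range N, |‖m.co y (K, Sum.inl j)‖ ^ 2| := by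
    refine sum_le_sum fun j _ => ?_
    rw [abs_of_nonneg (by positivity)]
    have := Complex.abs_re_le_norm (m.co y (K, Sum.inl j))
    rw [← sq_abs (m.co y (K, Sum.inl j)).re]
    gcongr
  have h4 := Real.rpow_sum_le_const_mul_sum_rpow (range N) (fun j => ‖m.co y (K, Sum.inl j)‖ ^ 2) (p := p / 2) (by linarith)
  have h5 : ∑ j ∈ range N, |‖m.co y (K, Sum.inl j)‖ ^ 2| ^ (p / 2) = lpn p (range N) (fun j => ‖m.co y (K, Sum.inl j)‖) ^ p := by
    rw [lpn_rpow hp0]
    refine sum_congr rfl fun j _ => ?_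
    rw [abs_of_nonneg (by positivity), abs_norm, ← Real.rpow_natCast, ← Real.rpow_mul (norm_nonneg _)]
    congr 1
    push_cast
    ring
  rw [h5, card_range] at h4
  have h6 : (∑ j ∈ range N, |‖m.co y (K, Sum.inl j)‖ ^ 2|) ^ (p / 2) ≤ ((N : ℝ) ^ (1 - 2 / p) * ‖y‖ ^ 2) ^ (p / 2) := by
    refine h4.trans ?_
    rw [Real.mul_rpow (by positivity) (by positivity), ← Real.rpow_mul (by positivity), ← Real.rpow_natCast ‖y‖ 2, ← Real.rpow_mul (norm_nonneg _)]
    have e1 : (1 - 2 / p) * (p / 2) = p / 2 - 1 := by field_simp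
    have e2 : ((2 : ℕ) : ℝ) * (p / 2) = p := by push_cast; ring
    rw [e1, e2]
    gcongr
    exact lpn_nonneg _ _
  refine h3.trans ?_
  exact (Real.rpow_le_rpow_iff (sum_nonneg fun _ _ => abs_nonneg _) (by positivity) (by positivity)).1 h6

lemma radNorm_sq {ι : Type} [Fintype ι] [DecidableEq ι] (x : ι → X) :
    radNorm x ^ 2 = ((2 : ℝ) ^ Fintype.card ι)⁻¹ * ∑ ε : ι → Bool, ‖∑ k, (if ε k then x k else -x k)‖ ^ 2 := by
  unfold radNorm
  rw [Real.sq_sqrt (by positivity)]

lemma radNorm_nonneg {ι : Type} [Fintype ι] [DecidableEq ι] (x : ι → X) : 0 ≤ radNorm x := by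
  unfold radNorm
  exact Real.sqrt_nonneg _

lemma radNorm_le {ι : Type} [Fintype ι] [DecidableEq ι] (x : ι → X) {a : ℝ}
    (h : ∀ ε : ι → Bool, ‖∑ k, (if ε k then x k else -x k)‖ ≤ a) : radNorm x ^ 2 ≤ a ^ 2 := by
  rw [radNorm_sq]
  have h1 : ∑ ε : ι → Bool, ‖∑ k, (if ε k then x k else -x k)‖ ^ 2 ≤ ∑ ε : ι → Bool, a ^ 2 := by
    refine sum_le_sum fun ε _ => ?_
    have := h ε
    gcongr
  rw [sum_const, card_univ, Fintype.card_pi, prod_const, Fintype.card_bool, nsmul_eq_mul, card_univ] at h1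
  push_cast at h1
  rw [inv_mul_le_iff₀ (by positivity)]
  exact h1

lemma co_signed {ι : Type} [Fintype ι] [DecidableEq ι] (x : ι → X) (ε : ι → Bool) (i : I) :
    m.co (∑ k, (if ε k then x k else -x k)) i = ∑ k, (sg (ε k) : ℂ) * m.co (x k) i := by
  rw [map_sum, Finset.sum_apply]
  refine sum_congr rfl fun k _ => ?_
  cases ε k <;> simp [sg]

/-- position of the test vector used for the coordinate `j` -/
def pos (s j : ℕ) : ℕ := 2 ^ s * ((j + (2 ^ s - 1)) / 2 ^ s)

lemma pos_spec (s j : ℕ) : 2 ^ s ∣ pos s j ∧ j ≤ pos s j ∧ pos s j < j + 2 ^ s := by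
  unfold pos
  have h0 : 0 < 2 ^ s := by positivity
  have h1 := Nat.div_add_mod (j + (2 ^ s - 1)) (2 ^ s)
  have h2 := Nat.mod_lt (j + (2 ^ s - 1)) h0
  refine ⟨dvd_mul_right _ _, ?_, ?_⟩ <;> omega

theorem not_rbdd (hp2 : 2 < p) (hp1 : 1 < p) {𝒮 : Set (X →L[ℂ] X)}
    (h𝒮 : ∀ t : ℝ, 0 < t → m.Op hp1 (fun n => (symS t n : ℂ)) ∈ 𝒮)
    (hBV : ∀ t : ℝ, 0 < t → ∃ S V, BV (fun n => (symS t n : ℂ)) S V) : ¬ IsRBounded 𝒮 := by
  rintro ⟨C, hC⟩
  have hp0 : 0 < p := by linarith
  have hM := m.M_nonneg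
  -- the inequality for each `S`
  have key : ∀ S : ℕ, 0 < S → (S : ℝ) ≤ 576 * C ^ 2 * m.M ^ 2 * (2 * S) ^ (2 / p) := by
    intro S hS
    set K : ℕ := 2 ^ (S + 1) with hK
    set N : ℕ := 2 ^ S with hN
    have hNK : K = 2 * N := by rw [hK, hN]; ring
    have hN0 : 0 < N := by rw [hN]; positivity
    have hx : ∀ q : Fin S × Fin K, ∃ x, m.co x = wv K q.1 q.2 := fun q => m.mem_of_supp hp1 (wv_supp q.1.2)
    choose x hx using hx
    -- upper bound
    have hup : ∀ ε : Fin S × Fin K → Bool, ‖∑ k, (if ε k then x k else -x k)‖ ≤ m.M * (2 * ((K : ℝ) * S) ^ (1 / p)) := by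
      intro ε
      refine m.upper_seen hp1 K S _ (fun i hi => ?_) (fun i => ?_)
      · rw [m.co_signed]
        refine sum_eq_zero fun q _ => ?_
        rw [hx, wv_seen q.1.2 i hi, mul_zero]
      · rw [m.co_signed]
        refine (norm_sum_le _ _).trans ?_
        refine le_trans (le_of_eq ?_) (wv_sum K S i)
        refine sum_congr rfl fun q _ => ?_
        rw [norm_mul, Complex.norm_real, Real.norm_eq_abs, abs_sg, one_mul, hx]
    have h1 := radNorm_le x hup
    -- the operators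
    set T : Fin S × Fin K → X →L[ℂ] X := fun q => m.Op hp1 (fun n => (symS (lam (2 * q.2)) n : ℂ)) with hT
    have h2 := hC (Fin S × Fin K) T x fun q => h𝒮 _ (lam_pos _)
    have h3 : radNorm (fun k => T k (x k)) ^ 2 ≤ C ^ 2 * radNorm x ^ 2 := by
      rw [← mul_pow]
      have := radNorm_nonneg (fun k => T k (x k))
      gcongr
    -- coordinates
    have hco : ∀ (q : Fin S × Fin K) (j : ℕ), m.co (T q (x q)) (K, Sum.inl j) = off (fun n => (symS (lam (2 * q.2)) n : ℂ)) (wv K q.1 q.2) K j := by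
      intro q j
      obtain ⟨S', V', hb⟩ := hBV (lam (2 * q.2)) (lam_pos _)
      rw [hT]
      simp only
      rw [m.co_Op hp1 hb, hx, op_inl]
      have : wv K q.1 q.2 (K, Sum.inl j) = 0 := rfl
      rw [this, mul_zero, zero_add]
    -- lower bound
    have hlow : (2 : ℝ) ^ Fintype.card (Fin S × Fin K) * (N * (S / 144)) ≤ ∑ ε : Fin S × Fin K → Bool, ∑ j ∈ range N, (m.co (∑ k, (if ε k then T k (x k) else -(T k (x k)))) (K, Sum.inl j)).re ^ 2 := by
      rw [sum_comm]
      have h4 : ∀ j ∈ range N, (2 : ℝ) ^ Fintype.card (Fin S × Fin K) * (S / 144) ≤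
          ∑ ε : Fin S × Fin K → Bool, (m.co (∑ k, (if ε k then T k (x k) else -(T k (x k)))) (K, Sum.inl j)).re ^ 2 := by
        intro j hj
        rw [mem_range] at hj
        have h5 : ∀ ε : Fin S × Fin K → Bool, (m.co (∑ k, (if ε k then T k (x k) else -(T k (x k)))) (K, Sum.inl j)).re =
            ∑ k, sg (ε k) * (m.co (T k (x k)) (K, Sum.inl j)).re := by
          intro ε
          rw [m.co_signed (fun k => T k (x k)) ε, Complex.re_sum]
          refine sum_congr rfl fun k _ => ?_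
          rw [Complex.re_ofReal_mul]
        simp only [h5]
        rw [rad_orth_real]
        gcongr
        rw [Fintype.sum_prod_type]
        calc (S : ℝ) / 144 = ∑ s : Fin S, (1 / 12 : ℝ) ^ 2 := by
              rw [sum_const, card_univ, Fintype.card_fin, nsmul_eq_mul]
              ring
          _ ≤ _ := by
              refine sum_le_sum fun s _ => ?_
              obtain ⟨hd, hl, hu⟩ := pos_spec s j
              have hs : 2 * 2 ^ (s : ℕ) ≤ N := by
                rw [hN, ← pow_succ']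
                exact Nat.pow_le_pow_right (by norm_num) s.2
              have hlt : pos s j < K := by omega
              have h6 := off_wv (K := K) hd hl hu (by rw [pow_succ]; omega)
              have h7 := hco (s, ⟨pos s j, hlt⟩) j
              simp only at h7
              rw [← h7] at h6
              refine le_trans ?_ (single_le_sum (f := fun mm : Fin K => (m.co (T (s, mm) (x (s, mm))) (K, Sum.inl j)).re ^ 2)
                (fun _ _ => by positivity) (mem_univ ⟨pos s j, hlt⟩))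
              gcongr
      have h5 := sum_le_sum h4
      rw [sum_const, card_range, nsmul_eq_mul] at h5
      refine le_trans (le_of_eq ?_) h5
      ring
    have h4 : ∑ ε : Fin S × Fin K → Bool, ∑ j ∈ range N, (m.co (∑ k, (if ε k then T k (x k) else -(T k (x k)))) (K, Sum.inl j)).re ^ 2 ≤
        (N : ℝ) ^ (1 - 2 / p) * ((2 : ℝ) ^ Fintype.card (Fin S × Fin K) * radNorm (fun k => T k (x k)) ^ 2) := by
      rw [radNorm_sq, mul_inv_cancel_left₀ (by positivity), mul_sum]
      exact sum_le_sum fun ε _ => m.lower_sq hp2 (by omega) hN0 _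
    have h5 : (N : ℝ) * (S / 144) ≤ (N : ℝ) ^ (1 - 2 / p) * (C ^ 2 * (m.M * (2 * ((K : ℝ) * S) ^ (1 / p))) ^ 2) := by
      have h6 : (2 : ℝ) ^ Fintype.card (Fin S × Fin K) * (N * (S / 144)) ≤ (2 : ℝ) ^ Fintype.card (Fin S × Fin K) *
          ((N : ℝ) ^ (1 - 2 / p) * (C ^ 2 * (m.M * (2 * ((K : ℝ) * S) ^ (1 / p))) ^ 2)) := by
        refine hlow.trans (h4.trans ?_)
        rw [mul_left_comm]
        gcongr
        exact h3.trans (by gcongr)
      exact le_of_mul_le_mul_left h6 (by positivity)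
    have hNR : (0 : ℝ) < N := by exact_mod_cast hN0
    have e1 : (((K : ℝ) * S) ^ (1 / p)) ^ 2 = (N : ℝ) ^ (2 / p) * (2 * S) ^ (2 / p) := by
      rw [← Real.mul_rpow hNR.le (by positivity), ← Real.rpow_natCast, ← Real.rpow_mul (by positivity), hNK]
      push_cast
      congr 1 <;> ring
    have e2 : (N : ℝ) ^ (1 - 2 / p) * (N : ℝ) ^ (2 / p) = N := by
      rw [← Real.rpow_add hNR, sub_add_cancel, Real.rpow_one]
    have h6 : (N : ℝ) * (S / 144) ≤ N * (4 * C ^ 2 * m.M ^ 2 * (2 * S) ^ (2 / p)) := by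
      refine h5.trans (le_of_eq ?_)
      rw [mul_pow, mul_pow, e1]
      calc _ = ((N : ℝ) ^ (1 - 2 / p) * (N : ℝ) ^ (2 / p)) * (4 * C ^ 2 * m.M ^ 2 * (2 * S) ^ (2 / p)) := by ring
        _ = _ := by rw [e2]
    have h7 := le_of_mul_le_mul_left h6 hNR
    linarith
  -- contradiction
  have hexp : 0 < 1 - 2 / p := by
    rw [sub_pos, div_lt_one hp0]
    exact hp2
  have hlim := (tendsto_rpow_atTop hexp).comp tendsto_natCast_atTop_atTop
  obtain ⟨S, hS1, hS2⟩ := ((hlim.eventually_gt_atTop (576 * C ^ 2 * m.M ^ 2 * 2 ^ (2 / p))).and (eventually_gt_atTop 0)).exists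
  have h1 := key S hS2
  have hSR : (0 : ℝ) < S := by exact_mod_cast hS2
  have h2 : (S : ℝ) = (S : ℝ) ^ (1 - 2 / p) * (S : ℝ) ^ (2 / p) := by
    rw [← Real.rpow_add hSR, sub_add_cancel, Real.rpow_one]
  rw [Real.mul_rpow (by norm_num) hSR.le, ← mul_assoc] at h1
  nth_rewrite 1 [h2] at h1
  have h3 := le_of_mul_le_mul_right h1 (Real.rpow_pos_of_pos hSR _)
  simp only [Function.comp_apply] at hS1
  linarith

/-- `-t` is outside the sector -/
lemma neg_not_mem {ω : ℝ} (h0 : 0 ≤ ω) (h1 : ω < Real.pi) {t : ℝ} (ht : 0 < t) : -(t : ℂ) ∉ closure (sector ω) := by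
  have hsub : closure (sector ω) ⊆ {z : ℂ | Real.cos ω * ‖z‖ ≤ z.re} := by
    refine closure_minimal ?_ (isClosed_le (by fun_prop) (by fun_prop))
    rintro z ⟨hz, hz1⟩
    change Real.cos ω * ‖z‖ ≤ z.re
    rw [← Complex.norm_mul_cos_arg z, mul_comm, ← Real.cos_abs (Complex.arg z)]
    gcongr
    exact Real.cos_le_cos_of_nonneg_of_le_pi (abs_nonneg _) h1.le hz1.le
  intro h
  have h2 := hsub h
  simp only [Set.mem_ofPred_eq, norm_neg, Complex.norm_real, Real.norm_of_nonneg ht.le, Complex.neg_re, Complex.ofReal_re] at h2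
  have h3 : -1 < Real.cos ω := by
    rw [← Real.cos_pi]
    exact Real.cos_lt_cos_of_nonneg_of_le_pi h0 le_rfl h1
  nlinarith

lemma neg_res (hp1 : 1 < p) {t : ℝ} (ht : 0 < t) : (∃ S V, BV (fun n => (symS t n : ℂ)) S V) ∧
    m.Op hp1 (fun n => (symS t n : ℂ)) = (-(t : ℂ)) • res (m.A hp1) (-(t : ℂ)) := by
  have hz : -(t : ℂ) ≠ 0 := by
    rw [neg_ne_zero]
    exact_mod_cast ht.ne'
  have h : ∀ s : ℝ, 0 ≤ s → 1 * (‖-(t : ℂ)‖ + s) ≤ ‖-(t : ℂ) - s‖ := by
    intro s hs
    rw [← Complex.ofReal_neg, ← Complex.ofReal_sub, Complex.norm_real, Complex.norm_real, Real.norm_eq_abs, Real.norm_eq_abs,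
      abs_of_nonpos (by linarith), abs_of_nonpos (by linarith)]
    linarith
  have hR := BV.symR one_pos hz h
  have e : (fun n => (symS t n : ℂ)) = (-(t : ℂ)) • symR (-(t : ℂ)) := by
    funext n
    simp only [Pi.smul_apply, smul_eq_mul, symR, symS]
    have h1 : (t : ℂ) + lam n ≠ 0 := by
      have := lam_pos n
      exact_mod_cast (by linarith : t + lam n ≠ 0)
    have h2 : -(t : ℂ) - lam n ≠ 0 := by
      intro h3
      apply h1
      linear_combination -h3
    push_cast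
    field_simp
    ring
  refine ⟨⟨_, _, by rw [e]; exact hR.smul _⟩, ?_⟩
  rw [e, m.Op_smul hp1 hR, m.res_A hp1 one_pos hz h]

/-- for `p > 2` the operator is not `R`-sectorial -/
theorem no_rsect (hp2 : 2 < p) (hp1 : 1 < p) : ¬ IsRSectorial (m.A hp1) := by
  rintro ⟨ω, h1, h2, h3⟩
  rw [m.angle_eq] at h1
  refine m.not_rbdd hp2 hp1 (fun t ht => ?_) (fun t ht => (m.neg_res hp1 ht).1) h3
  exact ⟨-(t : ℂ), neg_not_mem h1.le h2 ht, (m.neg_res hp1 ht).2⟩

end Model

end

end Pool.Agent.H716R3
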