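import Mathlib

/-! The UMD property, and spaces isomorphic to Hilbert spaces. -/

open MeasureTheory Filter Topology
open scoped NNReal ENNReal

namespace Pool.Agent.H716R3

universe u w

noncomputable section

/-- **UMD**: for some `p ∈ (1, ∞)` (equivalently, by Burkholder and Maurey, for all) martingale differences are unconditional
in `L^p(Ω; X)`: there is a constant `β` such that `‖∑ ε_n d_n‖_p ≤ β ‖∑ d_n‖_p` for all `X`-valued `L^p`-martingales with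
differences `d_0 = M_0`, `d_{n+1} = M_{n+1} - M_n`, and all signs `ε_n`. -/
def IsUMD (X : Type u) [NormedAddCommGroup X] [NormedSpace ℂ X] : Prop :=
  ∃ p : ℝ≥0∞, 1 < p ∧ p < ∞ ∧ ∃ β : ℝ≥0, ∀ (Ω : Type w) (m0 : MeasurableSpace Ω) (μ : Measure Ω) (_ : IsProbabilityMeasure μ)
    (ℱ : Filtration ℕ m0) (M : ℕ → Ω → X), Martingale M ℱ μ → (∀ n, MemLp (M n) p μ) →
    ∀ ε : ℕ → ℝ, (∀ n, ε n = 1 ∨ ε n = -1) → ∀ N : ℕ,
      eLpNorm (fun ω => ε 0 • M 0 ω + ∑ n ∈ Finset.range N, ε (n + 1) • (M (n + 1) ω - M n ω)) p μ ≤ β * eLpNorm (M N) p μ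

section hilbert

variable {Ω : Type w} {m0 : MeasurableSpace Ω} {μ : Measure Ω} [IsProbabilityMeasure μ] {ℱ : Filtration ℕ m0}
  {H : Type*} [NormedAddCommGroup H] [InnerProductSpace ℂ H] [CompleteSpace H]

/-- orthogonality of a martingale difference to the past -/
lemma orth {M : ℕ → Ω → H} (hM : Martingale M ℱ μ) (hL : ∀ n, MemLp (M n) 2 μ) (n : ℕ) {g : Ω → H} (hg : MemLp g 2 μ)
    (hgm : StronglyMeasurable[ℱ n] g) :
    inner ℂ (((hL (n + 1)).sub (hL n)).toLp) hg.toLp = 0 := by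
  have h1 := inner_condExpL2_eq_inner_fun (𝕜 := ℂ) (ℱ.le n) (((hL (n + 1)).sub (hL n)).toLp) hg.toLp
    (AEStronglyMeasurable.congr hgm.aestronglyMeasurable hg.coeFn_toLp.symm)
  rw [← h1]
  have h2 := ((hL (n + 1)).sub (hL n)).condExpL2_ae_eq_condExp (𝕜 := ℂ) (ℱ.le n)
  have h3 : μ[M (n + 1) - M n|ℱ n] =ᵐ[μ] 0 := by
    have h4 := condExp_sub ((hL (n + 1)).integrable (by norm_num)) ((hL n).integrable (by norm_num)) (ℱ n)
    have h5 := hM.2 n (n + 1) (Nat.le_succ n)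
    have h6 := hM.2 n n le_rfl
    filter_upwards [h4, h5, h6] with ω h4 h5 h6
    rw [h4, Pi.sub_apply, h5, h6, sub_self]
    rfl
  have h4 : ((condExpL2 H ℂ (ℱ.le n) (((hL (n + 1)).sub (hL n)).toLp) : Lp H 2 μ)) = 0 := by
    apply Lp.ext
    refine (h2.trans h3).trans ?_
    exact (Lp.coeFn_zero H 2 μ).symm
  rw [h4, inner_zero_left]

/-- the transformed martingale -/
def Sg {Y : Type*} [NormedAddCommGroup Y] [NormedSpace ℂ Y] (M : ℕ → Ω → Y) (ε : ℕ → ℝ) (N : ℕ) : Ω → Y :=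
  fun ω => ε 0 • M 0 ω + ∑ n ∈ Finset.range N, ε (n + 1) • (M (n + 1) ω - M n ω)

lemma Sg_zero {Y : Type*} [NormedAddCommGroup Y] [NormedSpace ℂ Y] (M : ℕ → Ω → Y) (ε : ℕ → ℝ) : Sg M ε 0 = ε 0 • M 0 := by
  funext ω
  simp [Sg]

lemma Sg_succ {Y : Type*} [NormedAddCommGroup Y] [NormedSpace ℂ Y] (M : ℕ → Ω → Y) (ε : ℕ → ℝ) (N : ℕ) :
    Sg M ε (N + 1) = Sg M ε N + ε (N + 1) • (M (N + 1) - M N) := by
  funext ω
  simp [Sg, Finset.sum_range_succ, add_assoc]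

lemma Sg_one {Y : Type*} [NormedAddCommGroup Y] [NormedSpace ℂ Y] (M : ℕ → Ω → Y) (N : ℕ) : Sg M (fun _ => 1) N = M N := by
  funext ω
  simp only [Sg, one_smul, Finset.sum_range_sub (fun n => M n ω)]
  abel

lemma Sg_memLp {Y : Type*} [NormedAddCommGroup Y] [NormedSpace ℂ Y] {M : ℕ → Ω → Y} (hL : ∀ n, MemLp (M n) 2 μ) (ε : ℕ → ℝ) (N : ℕ) : MemLp (Sg M ε N) 2 μ := by
  induction N with
  | zero =>
    rw [Sg_zero]
    exact (hL 0).const_smul _
  | succ N ih =>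
    rw [Sg_succ]
    exact ih.add (((hL (N + 1)).sub (hL N)).const_smul _)

lemma Sg_meas {M : ℕ → Ω → H} (hM : Martingale M ℱ μ) (ε : ℕ → ℝ) (N : ℕ) : StronglyMeasurable[ℱ N] (Sg M ε N) := by
  induction N with
  | zero =>
    rw [Sg_zero]
    exact (hM.1 0).const_smul _
  | succ N ih =>
    rw [Sg_succ]
    exact (ih.mono (ℱ.mono (Nat.le_succ N))).add (((hM.1 (N + 1)).sub ((hM.1 N).mono (ℱ.mono (Nat.le_succ N)))).const_smul _)

lemma Sg_norm {M : ℕ → Ω → H} (hM : Martingale M ℱ μ) (hL : ∀ n, MemLp (M n) 2 μ) {ε : ℕ → ℝ} (hε : ∀ n, ε n = 1 ∨ ε n = -1) (N : ℕ) :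
    ‖(Sg_memLp hL ε N).toLp‖ ^ 2 = ‖(hL 0).toLp‖ ^ 2 + ∑ n ∈ Finset.range N, ‖((hL (n + 1)).sub (hL n)).toLp‖ ^ 2 := by
  induction N with
  | zero =>
    rw [Finset.sum_range_zero, add_zero]
    have h1 : (Sg_memLp hL ε 0).toLp = ε 0 • (hL 0).toLp := by
      rw [← MemLp.toLp_const_smul]
      exact MemLp.toLp_congr _ _ (by rw [Sg_zero])
    rw [h1, norm_smul]
    rcases hε 0 with h | h <;> rw [h] <;> simp
  | succ N ih =>
    rw [Finset.sum_range_succ, ← add_assoc, ← ih]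
    have h1 : (Sg_memLp hL ε (N + 1)).toLp = (Sg_memLp hL ε N).toLp + ε (N + 1) • (((hL (N + 1)).sub (hL N)).toLp) := by
      rw [← MemLp.toLp_const_smul, ← MemLp.toLp_add]
      exact MemLp.toLp_congr _ _ (by rw [Sg_succ])
    have h2 := orth hM hL N (Sg_memLp hL ε N) (Sg_meas hM ε N)
    have h3 : inner ℂ ((Sg_memLp hL ε N).toLp) (((hL (N + 1)).sub (hL N)).toLp) = 0 := by
      rw [← inner_conj_symm, h2, map_zero]
    rw [h1]
    rcases hε (N + 1) with h | h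
    · rw [h, one_smul, @norm_add_sq ℂ, h3]
      simp
    · rw [h, neg_one_smul, @norm_add_sq ℂ, inner_neg_right, h3, norm_neg]
      simp

lemma Sg_eLpNorm {M : ℕ → Ω → H} (hM : Martingale M ℱ μ) (hL : ∀ n, MemLp (M n) 2 μ) {ε : ℕ → ℝ} (hε : ∀ n, ε n = 1 ∨ ε n = -1) (N : ℕ) :
    eLpNorm (Sg M ε N) 2 μ = eLpNorm (M N) 2 μ := by
  have h1 := Sg_norm hM hL hε N
  have h2 := Sg_norm hM hL (ε := fun _ => 1) (fun _ => Or.inl rfl) N
  have h3 : ‖(Sg_memLp hL ε N).toLp‖ = ‖(Sg_memLp hL (fun _ => 1) N).toLp‖ := by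
    rw [← sq_eq_sq₀ (norm_nonneg _) (norm_nonneg _), h1, h2]
  rw [Lp.norm_toLp, Lp.norm_toLp, ENNReal.toReal_eq_toReal_iff' (Sg_memLp hL ε N).2.ne (Sg_memLp hL _ N).2.ne] at h3
  rw [h3, Sg_one]

end hilbert

/-- Banach spaces isomorphic to a Hilbert space are UMD. -/
theorem isUMD_of_equiv {X : Type u} [NormedAddCommGroup X] [NormedSpace ℂ X] [CompleteSpace X] {H : Type*} [NormedAddCommGroup H]
    [InnerProductSpace ℂ H] [CompleteSpace H] (e : X ≃L[ℂ] H) : IsUMD.{u, w} X := by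
  refine ⟨2, by norm_num, by norm_num, ‖(e.symm : H →L[ℂ] X)‖₊ * ‖(e : X →L[ℂ] H)‖₊, ?_⟩
  intro Ω m0 μ hμ ℱ M hM hL ε hε N
  set E : X →L[ℂ] H := (e : X →L[ℂ] H) with hE
  set E' : H →L[ℂ] X := (e.symm : H →L[ℂ] X) with hE'
  have hint : ∀ n, Integrable (M n) μ := fun n => (hL n).integrable (by norm_num)
  have hM' : Martingale (fun n ω => E (M n ω)) ℱ μ := by
    refine ⟨fun n => E.continuous.comp_stronglyMeasurable (hM.1 n), fun i j hij => ?_⟩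
    have h1 := (E.restrictScalars ℝ).comp_condExp_comm (m := ℱ i) (hint j)
    have h2 := hM.2 i j hij
    filter_upwards [h1, h2] with ω h1 h2
    have h3 : (μ[(fun ω => E (M j ω))|ℱ i]) ω = E ((μ[M j|ℱ i]) ω) := h1.symm
    rw [h3, h2]
  have hL' : ∀ n, MemLp (fun ω => E (M n ω)) 2 μ := fun n => E.comp_memLp' (hL n)
  have h1 := Sg_eLpNorm hM' hL' hε N
  have h2 : Sg M ε N = fun ω => E' (Sg (fun n ω => E (M n ω)) ε N ω) := by
    funext ω
    have h3 : Sg (fun n ω => E (M n ω)) ε N ω = E (Sg M ε N ω) := by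
      simp only [Sg, map_add, map_sum]
      congr 1
      · exact ((E.restrictScalars ℝ).map_smul (ε 0) (M 0 ω)).symm
      · refine Finset.sum_congr rfl fun n _ => ?_
        have h4 := (E.restrictScalars ℝ).map_smul (ε (n + 1)) (M (n + 1) ω - M n ω)
        rw [ContinuousLinearMap.coe_restrictScalars'] at h4
        rw [h4, map_sub]
    rw [h3]
    exact (e.symm_apply_apply _).symm
  change eLpNorm (Sg M ε N) 2 μ ≤ _
  rw [h2]
  have h5 : eLpNorm (fun ω => E' (Sg (fun n ω => E (M n ω)) ε N ω)) 2 μ ≤ ‖E'‖₊ * eLpNorm (Sg (fun n ω => E (M n ω)) ε N) 2 μ := by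
    have := eLpNorm_le_nnreal_smul_eLpNorm_of_ae_le_mul (f := fun ω => E' (Sg (fun n ω => E (M n ω)) ε N ω)) (g := Sg (fun n ω => E (M n ω)) ε N)
      (c := ‖E'‖₊) (μ := μ) (Eventually.of_forall fun ω => E'.le_opNNNorm _) 2
    simpa [ENNReal.smul_def] using this
  have h6 : eLpNorm (fun ω => E (M N ω)) 2 μ ≤ ‖E‖₊ * eLpNorm (M N) 2 μ := by
    have := eLpNorm_le_nnreal_smul_eLpNorm_of_ae_le_mul (f := fun ω => E (M N ω)) (g := M N)
      (c := ‖E‖₊) (μ := μ) (Eventually.of_forall fun ω => E.le_opNNNorm _) 2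
    simpa [ENNReal.smul_def] using this
  refine h5.trans ?_
  rw [h1]
  calc (‖E'‖₊ : ℝ≥0∞) * eLpNorm (fun ω => E (M N ω)) 2 μ ≤ ‖E'‖₊ * (‖E‖₊ * eLpNorm (M N) 2 μ) := by gcongr
    _ = _ := by
      rw [ENNReal.coe_mul, mul_assoc]

end

end Pool.Agent.H716R3
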